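import Pool.Agent.MPU.Defs

set_option autoImplicit false

/-!
MPU-Bas: calculus of membership in the classes.

`F : List Bool → ℕ → ℤ` is a family with one parameter, its membership is
`(fun y => F (pop y) (top y)) ∈ 𝓒.G`; a family with two parameters `F : List Bool → ℕ → ℕ → ℤ` is a
member if `(fun y => F (pop (pop y)) (top (pop y)) (top y)) ∈ 𝓒.G`.
-/

namespace Pool.Agent.MPU

open Polynomial

@[simp] theorem top_push (x : List Bool) (i : ℕ) : top (push x i) = i := by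
  induction i with
  | zero => rfl
  | succ i ih =>
    show top (push x i) + 1 = i + 1
    rw [ih]

@[simp] theorem pop_push (x : List Bool) (i : ℕ) : pop (push x i) = x := by
  induction i with
  | zero => rfl
  | succ i ih => exact ih

variable {𝓒 : GapClass}

theorem lpop {φ : List Bool → List Bool} (h : φ ∈ 𝓒.L) : (fun x => pop (φ x)) ∈ 𝓒.L :=
  𝓒.comp_mem φ h pop 𝓒.pop_mem

theorem lpush {φ : List Bool → List Bool} {t : List Bool → ℕ} (h : φ ∈ 𝓒.L) (ht : t ∈ 𝓒.N) :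
    (fun x => push (φ x) (t x)) ∈ 𝓒.L := 𝓒.push_mem φ h t ht

theorem ntop {φ : List Bool → List Bool} (h : φ ∈ 𝓒.L) : (fun x => top (φ x)) ∈ 𝓒.N :=
  𝓒.substN φ h top 𝓒.top_mem

theorem nadd {s t : List Bool → ℕ} (hs : s ∈ 𝓒.N) (ht : t ∈ 𝓒.N) : (fun x => s x + t x) ∈ 𝓒.N :=
  𝓒.add_mem s hs t ht

theorem nmul {s t : List Bool → ℕ} (hs : s ∈ 𝓒.N) (ht : t ∈ 𝓒.N) : (fun x => s x * t x) ∈ 𝓒.N :=
  𝓒.mul_mem s hs t ht

theorem nsub {s t : List Bool → ℕ} (hs : s ∈ 𝓒.N) (ht : t ∈ 𝓒.N) : (fun x => s x - t x) ∈ 𝓒.N :=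
  𝓒.sub_mem s hs t ht

theorem ndiv {s t : List Bool → ℕ} (hs : s ∈ 𝓒.N) (ht : t ∈ 𝓒.N) : (fun x => s x / t x) ∈ 𝓒.N :=
  𝓒.div_mem s hs t ht

theorem nmod {s t : List Bool → ℕ} (hs : s ∈ 𝓒.N) (ht : t ∈ 𝓒.N) : (fun x => s x % t x) ∈ 𝓒.N :=
  𝓒.mod_mem s hs t ht

theorem nite {a b s t : List Bool → ℕ} (ha : a ∈ 𝓒.N) (hb : b ∈ 𝓒.N) (hs : s ∈ 𝓒.N) (ht : t ∈ 𝓒.N) :
    (fun x => if a x ≤ b x then s x else t x) ∈ 𝓒.N := 𝓒.ite_mem a ha b hb s hs t ht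

theorem nlt {a b s t : List Bool → ℕ} (ha : a ∈ 𝓒.N) (hb : b ∈ 𝓒.N) (hs : s ∈ 𝓒.N) (ht : t ∈ 𝓒.N) :
    (fun x => if a x < b x then s x else t x) ∈ 𝓒.N :=
  nite (nadd ha (𝓒.const_mem 1)) hb hs ht

theorem neq {a b s t : List Bool → ℕ} (ha : a ∈ 𝓒.N) (hb : b ∈ 𝓒.N) (hs : s ∈ 𝓒.N) (ht : t ∈ 𝓒.N) :
    (fun x => if a x = b x then s x else t x) ∈ 𝓒.N := by
  have h := nite ha hb (nite hb ha hs ht) ht
  convert h using 2 with x
  by_cases h1 : a x = b x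
  · simp [h1]
  · by_cases h2 : a x ≤ b x
    · rw [if_neg h1, if_pos h2, if_neg]
      omega
    · rw [if_neg h1, if_neg h2]

theorem nsubst {φ : List Bool → List Bool} {t : List Bool → ℕ} (ht : t ∈ 𝓒.N) (h : φ ∈ 𝓒.L) :
    (fun x => t (φ x)) ∈ 𝓒.N := 𝓒.substN φ h t ht

theorem nsum {n : List Bool → ℕ} {F : List Bool → ℕ → ℕ} (hn : n ∈ 𝓒.N)
    (hF : (fun y => F (pop y) (top y)) ∈ 𝓒.N) :
    (fun x => ∑ i ∈ Finset.range (n x), F x i) ∈ 𝓒.N := by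
  have h := 𝓒.sumN n hn _ hF
  simpa only [pop_push, top_push] using h

theorem gcast {t : List Bool → ℕ} (ht : t ∈ 𝓒.N) : (fun x => (t x : ℤ)) ∈ 𝓒.G := 𝓒.cast_mem t ht

theorem gconst (c : ℤ) : (fun _ => c) ∈ 𝓒.G := by
  rcases Int.eq_nat_or_neg c with ⟨k, rfl | rfl⟩
  · exact gcast (𝓒.const_mem k)
  · exact neg_mem (gcast (𝓒.const_mem k))

theorem gadd {f g : List Bool → ℤ} (hf : f ∈ 𝓒.G) (hg : g ∈ 𝓒.G) : (fun x => f x + g x) ∈ 𝓒.G :=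
  add_mem hf hg

theorem gsub {f g : List Bool → ℤ} (hf : f ∈ 𝓒.G) (hg : g ∈ 𝓒.G) : (fun x => f x - g x) ∈ 𝓒.G :=
  sub_mem hf hg

theorem gmul {f g : List Bool → ℤ} (hf : f ∈ 𝓒.G) (hg : g ∈ 𝓒.G) : (fun x => f x * g x) ∈ 𝓒.G :=
  mul_mem hf hg

theorem gneg {f : List Bool → ℤ} (hf : f ∈ 𝓒.G) : (fun x => -f x) ∈ 𝓒.G := neg_mem hf

theorem gpw {f : List Bool → ℤ} (hf : f ∈ 𝓒.G) (k : ℕ) : (fun x => f x ^ k) ∈ 𝓒.G := pow_mem hf k

theorem gsubst {φ : List Bool → List Bool} {f : List Bool → ℤ} (hf : f ∈ 𝓒.G) (h : φ ∈ 𝓒.L) :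
    (fun x => f (φ x)) ∈ 𝓒.G := 𝓒.substG φ h f hf

/-- Case distinction by the comparison of small numbers. -/
theorem gite {a b : List Bool → ℕ} {f g : List Bool → ℤ} (ha : a ∈ 𝓒.N) (hb : b ∈ 𝓒.N)
    (hf : f ∈ 𝓒.G) (hg : g ∈ 𝓒.G) : (fun x => if a x ≤ b x then f x else g x) ∈ 𝓒.G := by
  have h1 : (fun x => (((if a x ≤ b x then 1 else 0 : ℕ) : ℕ) : ℤ)) ∈ 𝓒.G :=
    gcast (nite ha hb (𝓒.const_mem 1) (𝓒.const_mem 0))
  have h := gadd (gmul h1 hf) (gmul (gsub (gconst 1) h1) hg)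
  convert h using 2 with x
  by_cases h2 : a x ≤ b x
  · simp [h2]
  · simp [h2]

theorem glt {a b : List Bool → ℕ} {f g : List Bool → ℤ} (ha : a ∈ 𝓒.N) (hb : b ∈ 𝓒.N)
    (hf : f ∈ 𝓒.G) (hg : g ∈ 𝓒.G) : (fun x => if a x < b x then f x else g x) ∈ 𝓒.G :=
  gite (nadd ha (𝓒.const_mem 1)) hb hf hg

theorem geq {a b : List Bool → ℕ} {f g : List Bool → ℤ} (ha : a ∈ 𝓒.N) (hb : b ∈ 𝓒.N)
    (hf : f ∈ 𝓒.G) (hg : g ∈ 𝓒.G) : (fun x => if a x = b x then f x else g x) ∈ 𝓒.G := by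
  have h := gite ha hb (gite hb ha hf hg) hg
  convert h using 2 with x
  by_cases h1 : a x = b x
  · simp [h1]
  · by_cases h2 : a x ≤ b x
    · rw [if_neg h1, if_pos h2, if_neg]
      omega
    · rw [if_neg h1, if_neg h2]

/-- Sums. -/
theorem gsum {n : List Bool → ℕ} {F : List Bool → ℕ → ℤ} (hn : n ∈ 𝓒.N)
    (hF : (fun y => F (pop y) (top y)) ∈ 𝓒.G) :
    (fun x => ∑ i ∈ Finset.range (n x), F x i) ∈ 𝓒.G := by
  have h := 𝓒.sumG n hn _ hF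
  simpa only [pop_push, top_push] using h

/-- Substitution in a family with one parameter. -/
theorem gs1 {F : List Bool → ℕ → ℤ} {φ : List Bool → List Bool} {a : List Bool → ℕ}
    (hF : (fun y => F (pop y) (top y)) ∈ 𝓒.G) (hφ : φ ∈ 𝓒.L) (ha : a ∈ 𝓒.N) :
    (fun x => F (φ x) (a x)) ∈ 𝓒.G := by
  have h := gsubst hF (lpush hφ ha)
  simpa only [pop_push, top_push] using h

/-- Substitution in a family with two parameters. -/
theorem gs2 {F : List Bool → ℕ → ℕ → ℤ} {φ : List Bool → List Bool} {a b : List Bool → ℕ}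
    (hF : (fun y => F (pop (pop y)) (top (pop y)) (top y)) ∈ 𝓒.G) (hφ : φ ∈ 𝓒.L) (ha : a ∈ 𝓒.N)
    (hb : b ∈ 𝓒.N) : (fun x => F (φ x) (a x) (b x)) ∈ 𝓒.G := by
  have h := gsubst hF (lpush (lpush hφ ha) hb)
  simpa only [pop_push, top_push] using h

theorem fam_eq (F : List Bool → ℕ → ℕ → ℤ) (x : List Bool) :
    fam (fun y => F (pop (pop y)) (top (pop y)) (top y)) x = F x := by
  funext i j
  simp only [fam, pop_push, top_push]

theorem powE_congr {n k i j : ℕ} {f g : ℕ → ℕ → ℤ} (h : ∀ a < n, ∀ b < n, f a b = g a b) :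
    powE n f k i j = powE n g k i j := by
  have h1 : mat n f = mat n g := by
    ext a b
    exact h a a.2 b b.2
  rw [powE, powE, h1]

/-- Entries of powers of matrices. -/
theorem gpow {n k i j : List Bool → ℕ} {F : List Bool → ℕ → ℕ → ℤ} (hn : n ∈ 𝓒.N) (hk : k ∈ 𝓒.N)
    (hi : i ∈ 𝓒.N) (hj : j ∈ 𝓒.N) (hF : (fun y => F (pop (pop y)) (top (pop y)) (top y)) ∈ 𝓒.G) :
    (fun x => powE (n x) (F x) (k x) (i x) (j x)) ∈ 𝓒.G := by
  have h := 𝓒.powG n hn k hk i hi j hj _ hF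
  simpa only [fam_eq] using h

/-- Coefficients of characteristic polynomials. -/
theorem gchar {n k : List Bool → ℕ} {F : List Bool → ℕ → ℕ → ℤ} (hn : n ∈ 𝓒.N) (hk : k ∈ 𝓒.N)
    (hF : (fun y => F (pop (pop y)) (top (pop y)) (top y)) ∈ 𝓒.G) :
    (fun x => (mat (n x) (F x)).charpoly.coeff (k x)) ∈ 𝓒.G := by
  have h := 𝓒.charG n hn k hk _ hF
  simpa only [fam_eq] using h

/-- Determinants. -/
theorem gdet {n : List Bool → ℕ} {F : List Bool → ℕ → ℕ → ℤ} (hn : n ∈ 𝓒.N)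
    (hF : (fun y => F (pop (pop y)) (top (pop y)) (top y)) ∈ 𝓒.G) :
    (fun x => (mat (n x) (F x)).det) ∈ 𝓒.G := by
  have h1 : (fun x => (1 : ℤ) - 2 * ((n x % 2 : ℕ) : ℤ)) ∈ 𝓒.G :=
    gsub (gconst 1) (gmul (gconst 2) (gcast (nmod hn (𝓒.const_mem 2))))
  have h := gmul h1 (gchar hn (𝓒.const_mem 0) hF)
  convert h using 2 with x
  rw [Matrix.det_eq_sign_charpoly_coeff, Fintype.card_fin]
  congr 1
  rcases Nat.even_or_odd (n x) with h2 | h2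
  · rw [h2.neg_one_pow, Nat.even_iff.1 h2]
    simp
  · rw [h2.neg_one_pow, Nat.odd_iff.1 h2]
    norm_num

/-- The entry `(i, j)` of the adjugate, `0` if it is out of range. -/
noncomputable def adjE (n : ℕ) (f : ℕ → ℕ → ℤ) (i j : ℕ) : ℤ :=
  if h : i < n ∧ j < n then (mat n f).adjugate ⟨i, h.1⟩ ⟨j, h.2⟩ else 0

/-- Entries of the adjugate. -/
theorem gadj {n i j : List Bool → ℕ} {F : List Bool → ℕ → ℕ → ℤ} (hn : n ∈ 𝓒.N)
    (hi : i ∈ 𝓒.N) (hj : j ∈ 𝓒.N) (hF : (fun y => F (pop (pop y)) (top (pop y)) (top y)) ∈ 𝓒.G) :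
    (fun x => adjE (n x) (F x) (i x) (j x)) ∈ 𝓒.G := by
  have hp : (fun y => pop (pop y)) ∈ 𝓒.L := lpop 𝓒.pop_mem
  have h1 : (fun x => (mat (n x) (fun a b => if a = j x then (if b = i x then 1 else 0) else
      F x a b)).det) ∈ 𝓒.G :=
    gdet hn (geq (ntop 𝓒.pop_mem) (nsubst hj hp)
      (geq 𝓒.top_mem (nsubst hi hp) (gconst 1) (gconst 0)) hF)
  have h2 := glt hi hn (glt hj hn h1 (gconst 0)) (gconst 0)
  convert h2 using 2 with x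
  by_cases h3 : i x < n x
  · by_cases h4 : j x < n x
    · rw [adjE, dif_pos ⟨h3, h4⟩, if_pos h3, if_pos h4, Matrix.adjugate_apply]
      congr 1
      ext a b
      rw [Matrix.updateRow_apply]
      simp only [mat, Matrix.of_apply, Pi.single_apply, Fin.ext_iff]
    · rw [adjE, dif_neg (fun h => h4 h.2), if_pos h3, if_neg h4]
  · rw [adjE, dif_neg (fun h => h3 h.1), if_neg h3]

end Pool.Agent.MPU
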