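import Pool.Agent.MPU.Defs

set_option autoImplicit false

/-!
MPU-Pol: the polynomials `pol n p`.
-/

namespace Pool.Agent.MPU

open Polynomial

theorem pol_coeff (n : ℕ) (p : ℕ → ℤ) (k : ℕ) :
    (pol n p).coeff k = if k < n then p k else if k = n then 1 else 0 := by
  rw [pol, coeff_add, coeff_X_pow, finsetSum_coeff]
  simp only [coeff_C_mul, coeff_X_pow, mul_ite, mul_one, mul_zero]
  rw [Finset.sum_ite_eq]
  by_cases h : k < n
  · rw [if_neg (ne_of_lt h), if_pos (Finset.mem_range.2 h), if_pos h, zero_add]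
  · rw [if_neg h, if_neg (fun h' => h (Finset.mem_range.1 h')), add_zero]

theorem pol_monic (n : ℕ) (p : ℕ → ℤ) : (pol n p).Monic := by
  refine monic_of_natDegree_le_of_coeff_eq_one n ?_ ?_
  · rw [natDegree_le_iff_coeff_eq_zero]
    intro k hk
    rw [pol_coeff, if_neg (by omega), if_neg (by omega)]
  · rw [pol_coeff, if_neg (lt_irrefl n), if_pos rfl]

theorem pol_natDegree (n : ℕ) (p : ℕ → ℤ) : (pol n p).natDegree = n := by
  refine natDegree_eq_of_le_of_coeff_ne_zero ?_ ?_
  · rw [natDegree_le_iff_coeff_eq_zero]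
    intro k hk
    rw [pol_coeff, if_neg (by omega), if_neg (by omega)]
  · rw [pol_coeff, if_neg (lt_irrefl n), if_pos rfl]
    exact one_ne_zero

theorem pol_self {P : ℤ[X]} (hP : P.Monic) {n : ℕ} (hn : P.natDegree = n) :
    pol n (fun i => P.coeff i) = P := by
  ext k
  rw [pol_coeff]
  by_cases h : k < n
  · rw [if_pos h]
  · rw [if_neg h]
    by_cases h2 : k = n
    · rw [if_pos h2, h2, ← hn]
      exact hP.coeff_natDegree.symm
    · rw [if_neg h2, coeff_eq_zero_of_natDegree_lt]
      omega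

theorem pol_congr {n : ℕ} {p q : ℕ → ℤ} (h : ∀ i < n, p i = q i) : pol n p = pol n q := by
  ext k
  rw [pol_coeff, pol_coeff]
  by_cases hk : k < n
  · rw [if_pos hk, if_pos hk, h k hk]
  · rw [if_neg hk, if_neg hk]

end Pool.Agent.MPU
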