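import Pool.Agent.MPU.Mz
import Pool.Agent.MPU.Pol
import Pool.Agent.MPN.Comp

set_option autoImplicit false

/-!
MPU-Blk: the block diagonal matrix of two companion matrices.

PLAN. (1) `comp_dvd`: the companion matrix `C1 = mat n (cpE n p)` satisfies `aeval C1 R = 0 ↔ pol n p ∣ R`: after the base
change to `ℚ` this is `Pool.Agent.MPN.minpoly_comp` (`comp d c` of that file, with `P = (pol n p).map _`) and
`mz_map`, `mz_dvd`: `minpoly ℤ C1 = pol n p` since both are monic with the same image in `ℚ[X]` (`map_injective`).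
(2) `mat (n + m) (blk n m p q)` is `Matrix.reindex finSumFinEquiv finSumFinEquiv (Matrix.fromBlocks C1 0 0 C2)`
(`mz_reindex finSumFinEquiv`; on `Sum.inl`, `Sum.inr` the values of `finSumFinEquiv` are `i`, `n + j`).
(3) `aeval` of a block diagonal matrix is block diagonal (proof in `Pool/Agent/MPN/Comp.lean`, private theorem
`aeval_blocks`; copy it here for a commutative ring or for `ℤ`), so it vanishes iff both blocks vanish.
-/

namespace Pool.Agent.MPU

open Polynomial

/-- entries of the companion matrix of `pol n p` -/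
def cpE (n : ℕ) (p : ℕ → ℤ) (i j : ℕ) : ℤ := if j + 1 = n then -p i else if i = j + 1 then 1 else 0

/-- entries of the block diagonal matrix of the companion matrices of `pol n p` and `pol m q` -/
def blk (n m : ℕ) (p q : ℕ → ℤ) (i j : ℕ) : ℤ :=
  if i < n then (if j < n then cpE n p i j else 0)
  else (if j < n then 0 else cpE m q (i - n) (j - n))

theorem comp_minpoly (n : ℕ) (p : ℕ → ℤ) : minpoly ℤ (mat n (cpE n p)) = pol n p := by
  have h1 : (mat n (cpE n p)).map (Int.cast : ℤ → ℚ) =
      Pool.Agent.MPN.comp n fun i : Fin n => ((pol n p).map (Int.castRingHom ℚ)).coeff i := by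
    ext i j
    have hc : ((pol n p).map (Int.castRingHom ℚ)).coeff (i : ℕ) = (p i : ℚ) := by
      rw [coeff_map, pol_coeff, if_pos i.2]
      rfl
    show ((cpE n p i j : ℤ) : ℚ) = if (j : ℕ) + 1 = n then
      -((pol n p).map (Int.castRingHom ℚ)).coeff (i : ℕ) else if (i : ℕ) = j + 1 then 1 else 0
    rw [hc]
    unfold cpE
    by_cases h2 : (j : ℕ) + 1 = n
    · rw [if_pos h2, if_pos h2, Int.cast_neg]
    · rw [if_neg h2, if_neg h2]
      by_cases h3 : (i : ℕ) = j + 1
      · rw [if_pos h3, if_pos h3, Int.cast_one]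
      · rw [if_neg h3, if_neg h3, Int.cast_zero]
  have h2 := mz_map (mat n (cpE n p))
  have h3 : ((pol n p).map (Int.castRingHom ℚ)).natDegree = n := by
    rw [(pol_monic n p).natDegree_map, pol_natDegree]
  rw [h1, Pool.Agent.MPN.minpoly_comp ((pol_monic n p).map _) h3] at h2
  exact Polynomial.map_injective (Int.castRingHom ℚ) Int.cast_injective h2

private theorem aeval_blocksZ {ι κ : Type} [Fintype ι] [DecidableEq ι] [Fintype κ]
    [DecidableEq κ] (M : Matrix ι ι ℤ) (N : Matrix κ κ ℤ) (F : ℤ[X]) :
    aeval (Matrix.fromBlocks M 0 0 N) F = Matrix.fromBlocks (aeval M F) 0 0 (aeval N F) := by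
  have hX : ∀ n : ℕ, Matrix.fromBlocks M 0 0 N ^ n = Matrix.fromBlocks (M ^ n) 0 0 (N ^ n) := by
    intro n
    induction n with
    | zero => simp only [pow_zero, Matrix.fromBlocks_one]
    | succ n ih =>
      rw [pow_succ, ih, Matrix.fromBlocks_multiply]
      simp only [Matrix.mul_zero, Matrix.zero_mul, add_zero, zero_add, pow_succ]
  induction F using Polynomial.induction_on' with
  | add p q hp hq =>
    rw [map_add, hp, hq, Matrix.fromBlocks_add, map_add, map_add, add_zero, add_zero]
  | monomial n a =>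
    simp only [aeval_monomial, hX, ← Algebra.smul_def, Matrix.fromBlocks_smul, smul_zero]

theorem blk_dvd (n m : ℕ) (p q : ℕ → ℤ) (R : ℤ[X]) :
    minpoly ℤ (mat (n + m) (blk n m p q)) ∣ R ↔ pol n p ∣ R ∧ pol m q ∣ R := by
  have h1 := mz_reindex (finSumFinEquiv (m := n) (n := m))
    (Matrix.fromBlocks (mat n (cpE n p)) 0 0 (mat m (cpE m q))) (mat (n + m) (blk n m p q)) (by
      intro i j
      show blk n m p q (finSumFinEquiv i : Fin (n + m)) (finSumFinEquiv j : Fin (n + m)) = _
      unfold blk
      rcases i with i | i <;> rcases j with j | j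
      · rw [finSumFinEquiv_apply_left, finSumFinEquiv_apply_left, Fin.val_castAdd, Fin.val_castAdd,
          if_pos i.2, if_pos j.2]
        rfl
      · rw [finSumFinEquiv_apply_left, finSumFinEquiv_apply_right, Fin.val_castAdd, Fin.val_natAdd,
          if_pos i.2, if_neg (by omega)]
        rfl
      · rw [finSumFinEquiv_apply_right, finSumFinEquiv_apply_left, Fin.val_castAdd, Fin.val_natAdd,
          if_neg (by omega), if_pos j.2]
        rfl
      · rw [finSumFinEquiv_apply_right, finSumFinEquiv_apply_right, Fin.val_natAdd, Fin.val_natAdd,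
          if_neg (by omega), if_neg (by omega), Nat.add_sub_cancel_left, Nat.add_sub_cancel_left]
        rfl)
  rw [h1, ← mz_dvd, aeval_blocksZ, ← comp_minpoly n p, ← comp_minpoly m q, ← mz_dvd, ← mz_dvd,
    ← Matrix.fromBlocks_zero, Matrix.fromBlocks_inj]
  constructor
  · rintro ⟨h, -, -, h'⟩
    exact ⟨h, h'⟩
  · rintro ⟨h, h'⟩
    exact ⟨h, rfl, rfl, h'⟩

end Pool.Agent.MPU
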