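import Mathlib

set_option autoImplicit false

/-!
PROJECT MPU (MP_80b7d7_lc, helper76): definitions.

A `GapClass` consists of the closure properties of the class `GapL` (together with the logspace
functions and the numbers which are computed in unary in logspace) which are used in the theorem.
-/

namespace Pool.Agent.MPU

open Polynomial

/-- The string `1^i 0 x`, which encodes the pair of the string `x` and the number `i` in unary. -/
def push (x : List Bool) (i : ℕ) : List Bool := List.replicate i true ++ false :: x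

/-- The number of the leading ones of a string. -/
def top : List Bool → ℕ
  | true :: x => top x + 1
  | _ => 0

/-- The string without its leading ones and the zero which follows them. -/
def pop : List Bool → List Bool
  | true :: x => pop x
  | false :: x => x
  | [] => []

/-- The square matrix of size `n` with the entries `f i j`. -/
def mat (n : ℕ) (f : ℕ → ℕ → ℤ) : Matrix (Fin n) (Fin n) ℤ := Matrix.of fun i j => f i j

/-- The family of the integers `f (1^j 0 1^i 0 x)`, the entries of a matrix which depends on `x`. -/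
def fam (f : List Bool → ℤ) (x : List Bool) (i j : ℕ) : ℤ := f (push (push x i) j)

/-- The entry `(i, j)` of the `k`-th power of the matrix of size `n` with the entries `f i j`
(`0` if the pair `(i, j)` is out of range). -/
def powE (n : ℕ) (f : ℕ → ℕ → ℤ) (k i j : ℕ) : ℤ :=
  if h : i < n ∧ j < n then (mat n f ^ k) ⟨i, h.1⟩ ⟨j, h.2⟩ else 0

/-- A class `G` of integer valued functions on binary strings with closure properties of `GapL`,
together with a class `L` of functions from strings to strings (the logspace functions) and a class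
`N` of functions from strings to natural numbers (the functions `t` such that the string of length
`t x` is computed in logspace). -/
structure GapClass where
  /-- the logspace functions -/
  L : Set (List Bool → List Bool)
  /-- the small numbers -/
  N : Set (List Bool → ℕ)
  /-- the counting functions -/
  G : Subring (List Bool → ℤ)
  id_mem : (fun x => x) ∈ L
  pop_mem : pop ∈ L
  comp_mem : ∀ φ ∈ L, ∀ ψ ∈ L, (fun x => ψ (φ x)) ∈ L
  push_mem : ∀ φ ∈ L, ∀ t ∈ N, (fun x => push (φ x) (t x)) ∈ L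
  top_mem : top ∈ N
  const_mem : ∀ k : ℕ, (fun _ => k) ∈ N
  add_mem : ∀ s ∈ N, ∀ t ∈ N, (fun x => s x + t x) ∈ N
  mul_mem : ∀ s ∈ N, ∀ t ∈ N, (fun x => s x * t x) ∈ N
  sub_mem : ∀ s ∈ N, ∀ t ∈ N, (fun x => s x - t x) ∈ N
  div_mem : ∀ s ∈ N, ∀ t ∈ N, (fun x => s x / t x) ∈ N
  mod_mem : ∀ s ∈ N, ∀ t ∈ N, (fun x => s x % t x) ∈ N
  ite_mem : ∀ a ∈ N, ∀ b ∈ N, ∀ s ∈ N, ∀ t ∈ N, (fun x => if a x ≤ b x then s x else t x) ∈ N
  substN : ∀ φ ∈ L, ∀ t ∈ N, (fun x => t (φ x)) ∈ N
  sumN : ∀ n ∈ N, ∀ t ∈ N, (fun x => ∑ i ∈ Finset.range (n x), t (push x i)) ∈ N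
  /-- small numbers are counting functions -/
  cast_mem : ∀ t ∈ N, (fun x => (t x : ℤ)) ∈ G
  /-- the substitution of a logspace function -/
  substG : ∀ φ ∈ L, ∀ f ∈ G, (fun x => f (φ x)) ∈ G
  /-- sums with a small number of terms -/
  sumG : ∀ n ∈ N, ∀ f ∈ G, (fun x => ∑ i ∈ Finset.range (n x), f (push x i)) ∈ G
  /-- powers of matrices of small size with small exponents -/
  powG : ∀ n ∈ N, ∀ k ∈ N, ∀ i ∈ N, ∀ j ∈ N, ∀ f ∈ G,
    (fun x => powE (n x) (fam f x) (k x) (i x) (j x)) ∈ G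
  /-- coefficients of characteristic polynomials of matrices of small size -/
  charG : ∀ n ∈ N, ∀ k ∈ N, ∀ f ∈ G,
    (fun x => (mat (n x) (fam f x)).charpoly.coeff (k x)) ∈ G
  /-- every counting function is an entry of a power of a matrix whose entries are differences of
  small numbers (it counts the paths of a graph, with signs) -/
  complete : ∀ f ∈ G, ∃ w ∈ N, ∃ m ∈ N, ∃ a ∈ N, ∃ b ∈ N, (∀ x, 2 ≤ w x) ∧
    ∀ x, f x = powE (w x) (fam (fun y => (a y : ℤ) - b y) x) (m x) 0 1

/-- The monic polynomial `X ^ n + ∑ i < n, p i * X ^ i`. -/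
noncomputable def pol (n : ℕ) (p : ℕ → ℤ) : ℤ[X] :=
  X ^ n + ∑ i ∈ Finset.range n, C (p i) * X ^ i

/-- The minimal polynomials of matrices whose entries are differences of small numbers. -/
def MinPolyN (𝓒 : GapClass) : Prop :=
  ∀ n ∈ 𝓒.N, ∀ k ∈ 𝓒.N, ∀ a ∈ 𝓒.N, ∀ b ∈ 𝓒.N,
    (fun x => (minpoly ℤ (mat (n x) (fam (fun y => (a y : ℤ) - b y) x))).coeff (k x)) ∈ 𝓒.G

/-- The minimal polynomials of matrices with entries in the class. -/
def MinPolyG (𝓒 : GapClass) : Prop :=
  ∀ n ∈ 𝓒.N, ∀ k ∈ 𝓒.N, ∀ f ∈ 𝓒.G,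
    (fun x => (minpoly ℤ (mat (n x) (fam f x))).coeff (k x)) ∈ 𝓒.G

/-- The greatest common divisors `D x` of two monic polynomials with coefficients in the class. -/
def GcdG (𝓒 : GapClass) : Prop :=
  ∀ n ∈ 𝓒.N, ∀ m ∈ 𝓒.N, ∀ p ∈ 𝓒.G, ∀ q ∈ 𝓒.G, ∀ D : List Bool → ℤ[X],
    (∀ x, (D x).Monic ∧ ∀ E : ℤ[X], E ∣ D x ↔
      E ∣ pol (n x) (fun i => p (push x i)) ∧ E ∣ pol (m x) (fun i => q (push x i))) →
    ∀ k ∈ 𝓒.N, (fun x => (D x).coeff (k x)) ∈ 𝓒.G

/-- The class contains the indicators of the zero sets of its elements. -/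
def ZeroG (𝓒 : GapClass) : Prop := ∀ f ∈ 𝓒.G, (fun x => if f x = 0 then (1 : ℤ) else 0) ∈ 𝓒.G

/-- If `D x` is a monic factor of a monic polynomial with coefficients in the class and if the
multiple `g x * D x` by an integer `g x ≠ 0` has coefficients in the class, `g` being in the class,
then `D x` has coefficients in the class. -/
def GaussG (𝓒 : GapClass) : Prop :=
  ∀ n ∈ 𝓒.N, ∀ p ∈ 𝓒.G, ∀ f ∈ 𝓒.G, ∀ g ∈ 𝓒.G, ∀ D : List Bool → ℤ[X],
    (∀ x, (D x).Monic ∧ D x ∣ pol (n x) (fun i => p (push x i)) ∧ g x ≠ 0 ∧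
      ∀ k, g x * (D x).coeff k = f (push x k)) →
    ∀ k ∈ 𝓒.N, (fun x => (D x).coeff (k x)) ∈ 𝓒.G

end Pool.Agent.MPU
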