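import Pool.Agent.MPU.Bas

set_option autoImplicit false

/-!
MPU-DivF: exact division of monic polynomials by a determinant formula.

PLAN. Let `d = natDegree μ` and `K ≥ natDegree R = d + natDegree D`. Put `R' i = R.coeff (K - i)` (`i ≤ K`),
`D' l = if l + d ≤ K then D.coeff (K - d - l) else 0`, and `T i l = tz d μ i l`
(`= μ.coeff (d - (i - l))` if `l ≤ i`, `i - l ≤ d`). Then `R' i = ∑ l ∈ range (K + 1), T i l * D' l` for `i ≤ K`
(`coeff_mul`, `Finset.Nat.sum_antidiagonal_eq_sum_range_succ`; the nonzero terms `μ.coeff a * D.coeff b`, `a + b = K - i`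
have `a ≤ d`, `b ≤ K - d`, i.e. `a = d - (i - l)`, `b = K - d - l`). The matrix `mat (K + 1) (tz d μ)` is lower triangular
with diagonal entries `μ.coeff d = 1`, so its determinant is 1 (`Matrix.det_of_lowerTriangular`) and
`adjugate *ᵥ (T *ᵥ D') = D'` (`Matrix.adjugate_mul`, `Matrix.mulVec_mulVec`). So
`D' i = ∑ l ∈ range (K + 1), adjE (K + 1) (tz d μ) i l * R' l` for `i ≤ K`; take `i = K - d - k`.
-/

namespace Pool.Agent.MPU

open Polynomial

/-- entries of the Toeplitz matrix of the reversed polynomial -/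
noncomputable def tz (d : ℕ) (μ : ℤ[X]) (i l : ℕ) : ℤ :=
  if l ≤ i then (if i ≤ l + d then μ.coeff (d - (i - l)) else 0) else 0

private theorem tz_eq (d : ℕ) {μ : ℤ[X]} (hd : μ.natDegree ≤ d) {K i b : ℕ} (hi : i ≤ K) (hb : b + d ≤ K) :
    tz d μ i (K - d - b) = if b ≤ K - i then μ.coeff (K - i - b) else 0 := by
  unfold tz
  by_cases h1 : K - d - b ≤ i
  · rw [if_pos h1]
    by_cases h2 : b ≤ K - i
    · rw [if_pos h2, if_pos (by omega)]
      congr 1
      omega
    · rw [if_neg h2, if_neg (by omega)]
  · rw [if_neg h1, if_pos (by omega)]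
    exact (coeff_eq_zero_of_natDegree_lt (by omega)).symm

private theorem tz_sum {R μ D : ℤ[X]} {d e K i : ℕ} (hd : μ.natDegree ≤ d) (he : D.natDegree ≤ e)
    (h : R = μ * D) (hK : d + e ≤ K) (hi : i ≤ K) :
    ∑ l ∈ Finset.range (K + 1), tz d μ i l * (if l + d ≤ K then D.coeff (K - d - l) else 0) =
      R.coeff (K - i) := by
  have h1 : ∑ l ∈ Finset.range (K + 1), tz d μ i l * (if l + d ≤ K then D.coeff (K - d - l) else 0) =
      ∑ l ∈ Finset.range (K - d + 1), tz d μ i l * D.coeff (K - d - l) := by
    symm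
    have hsub : Finset.range (K - d + 1) ⊆ Finset.range (K + 1) := by
      intro l hl
      rw [Finset.mem_range] at hl ⊢
      omega
    rw [← Finset.sum_subset hsub]
    · refine Finset.sum_congr rfl fun l hl => ?_
      rw [Finset.mem_range] at hl
      rw [if_pos (by omega)]
    · intro l _ hl
      rw [Finset.mem_range] at hl
      rw [if_neg (by omega), mul_zero]
  have h2 : ∑ l ∈ Finset.range (K - d + 1), tz d μ i l * D.coeff (K - d - l) =
      ∑ b ∈ Finset.range (K - d + 1), tz d μ i (K - d - b) * D.coeff b := by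
    rw [← Finset.sum_range_reflect]
    refine Finset.sum_congr rfl fun b hb => ?_
    rw [Finset.mem_range] at hb
    have e1 : K - d + 1 - 1 - b = K - d - b := by omega
    have e2 : K - d - (K - d - b) = b := by omega
    rw [e1, e2]
  have h3 : ∑ b ∈ Finset.range (K - d + 1), tz d μ i (K - d - b) * D.coeff b =
      ∑ b ∈ Finset.range (K + 1), (if b ≤ K - i then μ.coeff (K - i - b) else 0) * D.coeff b := by
    have hsub : Finset.range (K - d + 1) ⊆ Finset.range (K + 1) := by
      intro l hl
      rw [Finset.mem_range] at hl ⊢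
      omega
    rw [← Finset.sum_subset hsub]
    · refine Finset.sum_congr rfl fun b hb => ?_
      rw [Finset.mem_range] at hb
      rw [tz_eq d hd hi (by omega)]
    · intro b _ hb
      rw [Finset.mem_range] at hb
      rw [coeff_eq_zero_of_natDegree_lt (p := D) (by omega), mul_zero]
  have h4 : R.coeff (K - i) =
      ∑ b ∈ Finset.range (K + 1), (if b ≤ K - i then μ.coeff (K - i - b) else 0) * D.coeff b := by
    have hsub : Finset.range (K - i + 1) ⊆ Finset.range (K + 1) := by
      intro l hl
      rw [Finset.mem_range] at hl ⊢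
      omega
    rw [h, mul_comm μ D, coeff_mul, Finset.Nat.sum_antidiagonal_eq_sum_range_succ
      (fun a b => D.coeff a * μ.coeff b), ← Finset.sum_subset hsub]
    · refine Finset.sum_congr rfl fun b hb => ?_
      rw [Finset.mem_range] at hb
      rw [if_pos (by omega), mul_comm]
    · intro b _ hb
      rw [Finset.mem_range] at hb
      rw [if_neg (by omega), zero_mul]
  rw [h1, h2, h3, h4]

theorem div_coeff {R μ D : ℤ[X]} (hμ : μ.Monic) (hD : D.Monic) (h : R = μ * D) {K : ℕ}
    (hK : R.natDegree ≤ K) (k : ℕ) :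
    D.coeff k = if k + μ.natDegree ≤ K then
      ∑ l ∈ Finset.range (K + 1),
        adjE (K + 1) (tz μ.natDegree μ) (K - μ.natDegree - k) l * R.coeff (K - l) else 0 := by
  have hdeg : R.natDegree = μ.natDegree + D.natDegree := by rw [h, hμ.natDegree_mul hD]
  have hKd : μ.natDegree + D.natDegree ≤ K := hdeg ▸ hK
  by_cases hk : k + μ.natDegree ≤ K
  · rw [if_pos hk]
    obtain ⟨T, hT⟩ : ∃ T : Matrix (Fin (K + 1)) (Fin (K + 1)) ℤ, T = mat (K + 1) (tz μ.natDegree μ) := ⟨_, rfl⟩
    have hTa : ∀ a b : Fin (K + 1), T a b = tz μ.natDegree μ a b := by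
      intro a b
      rw [hT]
      rfl
    have hdet : T.det = 1 := by
      rw [Matrix.det_of_lowerTriangular T]
      · apply Finset.prod_eq_one
        intro a _
        rw [hTa, tz, if_pos le_rfl, if_pos (by omega), Nat.sub_self, Nat.sub_zero]
        exact hμ
      · intro a b hab
        have hab' : a < b := OrderDual.toDual_lt_toDual.1 hab
        rw [hTa, tz, if_neg]
        exact Nat.not_le.2 hab'
    have hmul : T.mulVec (fun l : Fin (K + 1) =>
        if (l : ℕ) + μ.natDegree ≤ K then D.coeff (K - μ.natDegree - l) else 0) =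
        fun i : Fin (K + 1) => R.coeff (K - i) := by
      funext a
      rw [← tz_sum le_rfl le_rfl h hKd (Nat.lt_succ_iff.1 a.2), Finset.sum_range]
      change ∑ b, T a b * _ = _
      refine Finset.sum_congr rfl fun b _ => ?_
      rw [hTa]
    have hadj : T.adjugate.mulVec (fun i : Fin (K + 1) => R.coeff (K - i)) = fun l : Fin (K + 1) =>
        if (l : ℕ) + μ.natDegree ≤ K then D.coeff (K - μ.natDegree - l) else 0 := by
      rw [← hmul, Matrix.mulVec_mulVec, Matrix.adjugate_mul, hdet, one_smul, Matrix.one_mulVec]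
    have hlt : K - μ.natDegree - k < K + 1 := by omega
    have h5 := congrFun hadj ⟨K - μ.natDegree - k, hlt⟩
    have h6 : K - μ.natDegree - k + μ.natDegree ≤ K := by omega
    have h7 : K - μ.natDegree - (K - μ.natDegree - k) = k := by omega
    simp only [if_pos h6, h7] at h5
    rw [← h5, Finset.sum_range]
    change ∑ l, T.adjugate _ l * _ = _
    refine Finset.sum_congr rfl fun l _ => ?_
    rw [adjE, dif_pos ⟨hlt, l.2⟩, ← hT]
  · rw [if_neg hk]
    exact coeff_eq_zero_of_natDegree_lt (by omega)

end Pool.Agent.MPU
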