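import Pool.Agent.MPU.Fam
import Pool.Agent.MPU.DivF

set_option autoImplicit false

/-!
MPU-DivG: exact division of families of monic polynomials.

PLAN. Put `e x d = (if ∑ j ∈ range (K x - d), (μ x).coeff (d + 1 + j) ^ 2 = 0 then 1 else 0) *
(1 - (if (μ x).coeff d = 0 then 1 else 0))`; for `d ≤ K x` this is 1 if `d = natDegree (μ x)` and 0 otherwise
(`natDegree (μ x) ≤ natDegree (R x) ≤ K x`; a sum of squares of integers is 0 iff all terms are). Then by `div_coeff`
`(D x).coeff k = ∑ d ∈ range (K x + 1), e x d * (if k + d ≤ K x then ∑ l ∈ range (K x + 1),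
adjE (K x + 1) (tz d (μ x)) (K x - d - k) l * (R x).coeff (K x - l) else 0)`. Memberships (for the string
`y`, `x = pop y`, `k = top y`; inside the sums one or two more `pop`s): `gsum`, `gmul`, `gite`, `gadj` (with the family
`fun x i l => tz d (μ x) i l`, unfold `tz`: `gite`, `PG.coeff`), `PG.coeff`, `hz` for the indicators.
State the memberships for a general `φ ∈ 𝓒.L`, `d k ∈ 𝓒.N` first.
-/

namespace Pool.Agent.MPU

open Polynomial

variable {𝓒 : GapClass}

/-- the indicator of the degree -/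
private noncomputable def dgE (μ : List Bool → ℤ[X]) (K : List Bool → ℕ) (x : List Bool) (d : ℕ) :
    ℤ :=
  (if ∑ j ∈ Finset.range (K x - d), (μ x).coeff (d + 1 + j) ^ 2 = 0 then 1 else 0) *
    (1 - (if (μ x).coeff d = 0 then 1 else 0))

private theorem dg_E {μ : List Bool → ℤ[X]} {K : List Bool → ℕ} {x : List Bool} (hμ : (μ x).Monic)
    (hd : (μ x).natDegree ≤ K x) (d : ℕ) : dgE μ K x d = if d = (μ x).natDegree then 1 else 0 := by
  unfold dgE
  by_cases h1 : d = (μ x).natDegree
  · have h2 : ∑ j ∈ Finset.range (K x - d), (μ x).coeff (d + 1 + j) ^ 2 = 0 := by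
      refine Finset.sum_eq_zero fun j _ => ?_
      rw [Polynomial.coeff_eq_zero_of_natDegree_lt (by omega)]
      norm_num
    have h3 : (μ x).coeff d ≠ 0 := by
      rw [h1, hμ.coeff_natDegree]
      exact one_ne_zero
    rw [if_pos h1, if_pos h2, if_neg h3]
    norm_num
  · rw [if_neg h1]
    rcases Nat.lt_or_gt_of_ne h1 with h2 | h2
    · have h3 : ∑ j ∈ Finset.range (K x - d), (μ x).coeff (d + 1 + j) ^ 2 ≠ 0 := by
        have h4 : (0 : ℤ) < ∑ j ∈ Finset.range (K x - d), (μ x).coeff (d + 1 + j) ^ 2 := by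
          refine Finset.sum_pos' (fun j _ => sq_nonneg _)
            ⟨(μ x).natDegree - d - 1, Finset.mem_range.2 (by omega), ?_⟩
          have h5 : d + 1 + ((μ x).natDegree - d - 1) = (μ x).natDegree := by omega
          rw [h5, hμ.coeff_natDegree]
          norm_num
        exact ne_of_gt h4
      rw [if_neg h3, zero_mul]
    · rw [if_pos (Polynomial.coeff_eq_zero_of_natDegree_lt h2), sub_self, mul_zero]

private theorem dg_E_mem (hz : ZeroG 𝓒) {μ : List Bool → ℤ[X]} (hμ : PG 𝓒 μ) {K : List Bool → ℕ}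
    (hK : K ∈ 𝓒.N) : (fun y => dgE μ K (pop y) (top y)) ∈ 𝓒.G := by
  have h1 : (fun y => ∑ j ∈ Finset.range (K (pop y) - top y),
      (μ (pop y)).coeff (top y + 1 + j) ^ 2) ∈ 𝓒.G :=
    gsum (n := fun y => K (pop y) - top y) (F := fun y j => (μ (pop y)).coeff (top y + 1 + j) ^ 2)
      (nsub (nsubst hK lp1) nt1)
      (gpw (hμ.coeff lp2 (nadd (nadd nt2 (𝓒.const_mem 1)) nt1)) 2)
  exact gmul (hz _ h1) (gsub (gconst 1) (hz _ (hμ.coeff lp1 nt1)))

private theorem dg_adj_mem {μ : List Bool → ℤ[X]} (hμ : PG 𝓒 μ) {K : List Bool → ℕ}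
    (hK : K ∈ 𝓒.N) : (fun w => adjE (K (pop (pop (pop w))) + 1)
      (tz (top (pop w)) (μ (pop (pop (pop w)))))
      (K (pop (pop (pop w))) - top (pop w) - top (pop (pop w))) (top w)) ∈ 𝓒.G := by
  refine gadj (n := fun w => K (pop (pop (pop w))) + 1)
    (i := fun w => K (pop (pop (pop w))) - top (pop w) - top (pop (pop w))) (j := fun w => top w)
    (F := fun w => tz (top (pop w)) (μ (pop (pop (pop w)))))
    (nadd (nsubst hK lp3) (𝓒.const_mem 1)) (nsub (nsub (nsubst hK lp3) nt2) nt3) nt1 ?_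
  exact gite nt1 nt2 (gite nt2 (nadd nt1 nt4)
    (hμ.coeff (lpop lp4) (nsub nt4 (nsub nt2 nt1))) (gconst 0)) (gconst 0)

theorem div_mem (hz : ZeroG 𝓒) {R μ D : List Bool → ℤ[X]} (hR : PG 𝓒 R) (hμ : PG 𝓒 μ)
    (hm : ∀ x, (μ x).Monic ∧ (D x).Monic ∧ R x = μ x * D x) {K : List Bool → ℕ} (hK : K ∈ 𝓒.N)
    (hRK : ∀ x, (R x).natDegree ≤ K x) : PG 𝓒 D := by
  have hdeg : ∀ x, (μ x).natDegree ≤ K x := by
    intro x
    obtain ⟨h1, h2, h3⟩ := hm x
    have h4 := hRK x
    rw [h3, h1.natDegree_mul h2] at h4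
    omega
  have hform : ∀ y, (D (pop y)).coeff (top y) =
      ∑ d ∈ Finset.range (K (pop y) + 1), dgE μ K (pop y) d *
        (if top y + d ≤ K (pop y) then
          ∑ l ∈ Finset.range (K (pop y) + 1),
            adjE (K (pop y) + 1) (tz d (μ (pop y))) (K (pop y) - d - top y) l *
              (R (pop y)).coeff (K (pop y) - l) else 0) := by
    intro y
    obtain ⟨h1, h2, h3⟩ := hm (pop y)
    rw [Finset.sum_eq_single_of_mem (μ (pop y)).natDegree
      (Finset.mem_range.2 (Nat.lt_succ_of_le (hdeg _)))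
      (fun d _ hd => by rw [dg_E h1 (hdeg _), if_neg hd, zero_mul]),
      dg_E h1 (hdeg _), if_pos rfl, one_mul]
    exact div_coeff h1 h2 h3 (hRK _) (top y)
  have hT : (fun z => if top (pop z) + top z ≤ K (pop (pop z)) then
      ∑ l ∈ Finset.range (K (pop (pop z)) + 1),
        adjE (K (pop (pop z)) + 1) (tz (top z) (μ (pop (pop z))))
          (K (pop (pop z)) - top z - top (pop z)) l *
          (R (pop (pop z))).coeff (K (pop (pop z)) - l) else 0) ∈ 𝓒.G := by
    refine gite (nadd nt2 nt1) (nsubst hK lp2) ?_ (gconst 0)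
    exact gsum (n := fun z => K (pop (pop z)) + 1)
      (F := fun z l => adjE (K (pop (pop z)) + 1) (tz (top z) (μ (pop (pop z))))
          (K (pop (pop z)) - top z - top (pop z)) l *
          (R (pop (pop z))).coeff (K (pop (pop z)) - l))
      (nadd (nsubst hK lp2) (𝓒.const_mem 1))
      (gmul (dg_adj_mem hμ hK) (hR.coeff lp3 (nsub (nsubst hK lp3) nt1)))
  have hfin := gsum (n := fun y => K (pop y) + 1)
      (F := fun y d => dgE μ K (pop y) d *
        (if top y + d ≤ K (pop y) then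
          ∑ l ∈ Finset.range (K (pop y) + 1),
            adjE (K (pop y) + 1) (tz d (μ (pop y))) (K (pop y) - d - top y) l *
              (R (pop y)).coeff (K (pop y) - l) else 0))
      (nadd (nsubst hK lp1) (𝓒.const_mem 1))
      (gmul (gs1 (dg_E_mem hz hμ hK) lp2 nt1) hT)
  unfold PG
  have he : (fun y => (D (pop y)).coeff (top y)) = fun y =>
      ∑ d ∈ Finset.range (K (pop y) + 1), dgE μ K (pop y) d *
        (if top y + d ≤ K (pop y) then
          ∑ l ∈ Finset.range (K (pop y) + 1),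
            adjE (K (pop y) + 1) (tz d (μ (pop y))) (K (pop y) - d - top y) l *
              (R (pop y)).coeff (K (pop y) - l) else 0) := funext hform
  rw [he]
  exact hfin

end Pool.Agent.MPU
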