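import Pool.Agent.MPU.Bas

set_option autoImplicit false

/-!
MPU-Fam: families of polynomials with coefficients in the class, and the four properties for
families.
-/

namespace Pool.Agent.MPU

open Polynomial

/-- The family `D` of polynomials has coefficients in the class. -/
def PG (𝓒 : GapClass) (D : List Bool → ℤ[X]) : Prop :=
  (fun y => (D (pop y)).coeff (top y)) ∈ 𝓒.G

variable {𝓒 : GapClass}

theorem PG.coeff {D : List Bool → ℤ[X]} (h : PG 𝓒 D) {φ : List Bool → List Bool}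
    {k : List Bool → ℕ} (hφ : φ ∈ 𝓒.L) (hk : k ∈ 𝓒.N) : (fun x => (D (φ x)).coeff (k x)) ∈ 𝓒.G :=
  gs1 (F := fun x k => (D x).coeff k) h hφ hk

theorem PG.coeff' {D : List Bool → ℤ[X]} (h : PG 𝓒 D) {k : List Bool → ℕ} (hk : k ∈ 𝓒.N) :
    (fun x => (D x).coeff (k x)) ∈ 𝓒.G := h.coeff 𝓒.id_mem hk

theorem lp1 : (fun y => pop y) ∈ 𝓒.L := 𝓒.pop_mem
theorem lp2 : (fun y => pop (pop y)) ∈ 𝓒.L := lpop lp1
theorem lp3 : (fun y => pop (pop (pop y))) ∈ 𝓒.L := lpop lp2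
theorem lp4 : (fun y => pop (pop (pop (pop y)))) ∈ 𝓒.L := lpop lp3
theorem nt1 : (fun y => top y) ∈ 𝓒.N := 𝓒.top_mem
theorem nt2 : (fun y => top (pop y)) ∈ 𝓒.N := ntop lp1
theorem nt3 : (fun y => top (pop (pop y))) ∈ 𝓒.N := ntop lp2
theorem nt4 : (fun y => top (pop (pop (pop y)))) ∈ 𝓒.N := ntop lp3

/-- The minimal polynomials of a family of matrices. -/
theorem minPolyG_fam (h : MinPolyG 𝓒) {n : List Bool → ℕ} (hn : n ∈ 𝓒.N)
    {F : List Bool → ℕ → ℕ → ℤ} (hF : (fun y => F (pop (pop y)) (top (pop y)) (top y)) ∈ 𝓒.G) :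
    PG 𝓒 (fun x => minpoly ℤ (mat (n x) (F x))) := by
  have h1 := h (fun y => n (pop y)) (nsubst hn lp1) _ nt1
    (fun z => F (pop (pop (pop z))) (top (pop z)) (top z)) (gs2 hF lp3 nt2 nt1)
  have h2 : ∀ y, fam (fun z => F (pop (pop (pop z))) (top (pop z)) (top z)) y = F (pop y) := by
    intro y
    funext i j
    simp only [fam, pop_push, top_push]
  simp only [h2] at h1
  exact h1

/-- The minimal polynomials of a family of matrices with small entries. -/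
theorem minPolyN_fam (h : MinPolyN 𝓒) {n : List Bool → ℕ} (hn : n ∈ 𝓒.N)
    {a b : List Bool → ℕ → ℕ → ℕ} (ha : (fun y => a (pop (pop y)) (top (pop y)) (top y)) ∈ 𝓒.N)
    (hb : (fun y => b (pop (pop y)) (top (pop y)) (top y)) ∈ 𝓒.N) :
    PG 𝓒 (fun x => minpoly ℤ (mat (n x) (fun i j => (a x i j : ℤ) - b x i j))) := by
  have ha' := nsubst ha (lpush (lpush lp3 nt2) (nt1 (𝓒 := 𝓒)))
  have hb' := nsubst hb (lpush (lpush lp3 nt2) (nt1 (𝓒 := 𝓒)))
  simp only [pop_push, top_push] at ha' hb'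
  have h1 := h (fun y => n (pop y)) (nsubst hn lp1) _ nt1 _ ha' _ hb'
  have h2 : ∀ y, fam (fun z => ((a (pop (pop (pop z))) (top (pop z)) (top z) : ℕ) : ℤ) -
      (b (pop (pop (pop z))) (top (pop z)) (top z) : ℕ)) y =
      fun i j => (a (pop y) i j : ℤ) - b (pop y) i j := by
    intro y
    funext i j
    simp only [fam, pop_push, top_push]
  simp only [h2] at h1
  exact h1

/-- Greatest common divisors of families of polynomials. -/
theorem gcdG_fam (h : GcdG 𝓒) {n m : List Bool → ℕ} (hn : n ∈ 𝓒.N) (hm : m ∈ 𝓒.N)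
    {p q : List Bool → ℕ → ℤ} (hp : (fun y => p (pop y) (top y)) ∈ 𝓒.G)
    (hq : (fun y => q (pop y) (top y)) ∈ 𝓒.G) {D : List Bool → ℤ[X]}
    (hD : ∀ x, (D x).Monic ∧ ∀ E : ℤ[X], E ∣ D x ↔ E ∣ pol (n x) (p x) ∧ E ∣ pol (m x) (q x)) :
    PG 𝓒 D := by
  refine h (fun y => n (pop y)) (nsubst hn lp1) (fun y => m (pop y)) (nsubst hm lp1)
    (fun z => p (pop (pop z)) (top z)) (gs1 hp lp2 nt1)
    (fun z => q (pop (pop z)) (top z)) (gs1 hq lp2 nt1) (fun y => D (pop y)) (fun y => ?_) _ nt1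
  simp only [pop_push, top_push]
  exact hD (pop y)

/-- Gauss' lemma for families of polynomials. -/
theorem gaussG_fam (h : GaussG 𝓒) {n : List Bool → ℕ} (hn : n ∈ 𝓒.N) {g : List Bool → ℤ}
    (hg : g ∈ 𝓒.G) {p f : List Bool → ℕ → ℤ} (hp : (fun y => p (pop y) (top y)) ∈ 𝓒.G)
    (hf : (fun y => f (pop y) (top y)) ∈ 𝓒.G) {D : List Bool → ℤ[X]}
    (hD : ∀ x, (D x).Monic ∧ D x ∣ pol (n x) (p x) ∧ g x ≠ 0 ∧ ∀ k, g x * (D x).coeff k = f x k) :
    PG 𝓒 D := by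
  refine h (fun y => n (pop y)) (nsubst hn lp1) (fun z => p (pop (pop z)) (top z))
    (gs1 hp lp2 nt1) (fun z => f (pop (pop z)) (top z)) (gs1 hf lp2 nt1) (fun y => g (pop y))
    (gsubst hg lp1) (fun y => D (pop y)) (fun y => ?_) _ nt1
  simp only [pop_push, top_push]
  exact hD (pop y)

end Pool.Agent.MPU
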