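import Pool.Agent.MPU.Mz
import Pool.Agent.MPU.Bas

set_option autoImplicit false

/-!
MPU-FinF: the minimal polynomial from its part prime to `X`.

PLAN. Let `A = mat n F`, `minpoly ℤ A = X ^ b * U`, `U.coeff 0 ≠ 0`. (1) `natDegree U ≤ n` and `b ≤ n`
(`mz_natDegree_le`, `U` monic). For `i j < n`: `hE U n F c i j = (A ^ c * aeval A U) i j` (`aeval_eq_sum_range'`,
`Finset.sum_range`, `pow_add`). (2) `tE = 0 ↔ aeval A (X ^ c * U) = 0` (a sum of squares of integers)
`↔ X ^ b * U ∣ X ^ c * U` (`mz_dvd`) `↔ b ≤ c` (`U ≠ 0`, `mul_dvd_mul_iff_right`, `pow_dvd_pow_iff` for the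
non-unit `X`). (3) so `bE .. c = 1` if `c = b` and `0` otherwise (`c = 0` apart). (4)
`(X ^ b * U).coeff k = if b ≤ k then U.coeff (k - b) else 0` (`coeff_X_pow_mul'`).
-/

namespace Pool.Agent.MPU

open Polynomial

/-- the entries of `A ^ c * U(A)` -/
noncomputable def hE (U : ℤ[X]) (n : ℕ) (F : ℕ → ℕ → ℤ) (c i j : ℕ) : ℤ :=
  ∑ k ∈ Finset.range (n + 1), U.coeff k * powE n F (c + k) i j

/-- the sum of the squares of the entries of `A ^ c * U(A)` -/
noncomputable def tE (U : ℤ[X]) (n : ℕ) (F : ℕ → ℕ → ℤ) (c : ℕ) : ℤ :=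
  ∑ i ∈ Finset.range n, ∑ j ∈ Finset.range n, hE U n F c i j ^ 2

/-- the indicator of `c = b` -/
noncomputable def bE (U : ℤ[X]) (n : ℕ) (F : ℕ → ℕ → ℤ) (c : ℕ) : ℤ :=
  (if tE U n F c = 0 then 1 else 0) *
    (if c = 0 then 1 else 1 - (if tE U n F (c - 1) = 0 then 1 else 0))

private theorem hE_eq {n : ℕ} {F : ℕ → ℕ → ℤ} {U : ℤ[X]} (hd : U.natDegree ≤ n) (c : ℕ)
    (i j : Fin n) : hE U n F c i j = (mat n F ^ c * aeval (mat n F) U) i j := by
  rw [aeval_eq_sum_range' (Nat.lt_succ_of_le hd), Finset.mul_sum, Matrix.sum_apply]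
  unfold hE
  refine Finset.sum_congr rfl fun k _ => ?_
  rw [mul_smul_comm, ← pow_add, Matrix.smul_apply, smul_eq_mul]
  unfold powE
  rw [dif_pos ⟨i.2, j.2⟩]

private theorem tE_zero {n : ℕ} {F : ℕ → ℕ → ℤ} {U : ℤ[X]} (hd : U.natDegree ≤ n) (c : ℕ) :
    tE U n F c = 0 ↔ aeval (mat n F) (X ^ c * U) = 0 := by
  have hA : aeval (mat n F) (X ^ c * U) = mat n F ^ c * aeval (mat n F) U := by
    rw [map_mul, map_pow, aeval_X]
  rw [hA]
  unfold tE
  rw [Finset.sum_eq_zero_iff_of_nonneg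
    (fun i _ => Finset.sum_nonneg fun j _ => sq_nonneg _)]
  constructor
  · intro h
    ext i j
    have h1 := h i (Finset.mem_range.2 i.2)
    rw [Finset.sum_eq_zero_iff_of_nonneg (fun j _ => sq_nonneg _)] at h1
    have h2 := h1 j (Finset.mem_range.2 j.2)
    rw [hE_eq hd c i j] at h2
    rw [Matrix.zero_apply]
    exact pow_eq_zero_iff (two_ne_zero) |>.1 h2
  · intro h i hi
    refine Finset.sum_eq_zero fun j hj => ?_
    have h1 := hE_eq (F := F) hd c ⟨i, Finset.mem_range.1 hi⟩ ⟨j, Finset.mem_range.1 hj⟩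
    rw [h, Matrix.zero_apply] at h1
    have h2 : hE U n F c i j = 0 := h1
    rw [h2]
    norm_num

theorem minpoly_unit {n b : ℕ} {F : ℕ → ℕ → ℤ} {U : ℤ[X]} (hU : U.coeff 0 ≠ 0)
    (h : minpoly ℤ (mat n F) = X ^ b * U) (k : ℕ) :
    (minpoly ℤ (mat n F)).coeff k =
      ∑ c ∈ Finset.range (n + 1), bE U n F c * (if c ≤ k then U.coeff (k - c) else 0) := by
  have hU0 : U ≠ 0 := by
    rintro rfl
    exact hU (coeff_zero 0)
  have hdeg : b + U.natDegree ≤ n := by
    have h1 := mz_natDegree_le (mat n F)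
    rw [h, natDegree_mul (pow_ne_zero _ X_ne_zero) hU0, natDegree_X_pow, Fintype.card_fin] at h1
    exact h1
  have ht : ∀ c, tE U n F c = 0 ↔ b ≤ c := by
    intro c
    rw [tE_zero (by omega) c, mz_dvd, h, mul_dvd_mul_iff_right hU0]
    exact pow_dvd_pow_iff X_ne_zero not_isUnit_X
  have hb : ∀ c, bE U n F c = if c = b then 1 else 0 := by
    intro c
    unfold bE
    by_cases h1 : b ≤ c
    · rw [if_pos ((ht c).2 h1), one_mul]
      by_cases h2 : c = 0
      · rw [if_pos h2, if_pos (by omega)]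
      · rw [if_neg h2]
        by_cases h3 : b ≤ c - 1
        · rw [if_pos ((ht (c - 1)).2 h3), if_neg (by omega), sub_self]
        · rw [if_neg (fun h4 => h3 ((ht (c - 1)).1 h4)), if_pos (by omega), sub_zero]
    · rw [if_neg (fun h4 => h1 ((ht c).1 h4)), zero_mul, if_neg (by omega)]
  rw [h, coeff_X_pow_mul']
  rw [Finset.sum_eq_single b]
  · rw [hb, if_pos rfl, one_mul]
  · intro c _ hc
    rw [hb, if_neg hc, zero_mul]
  · intro hc
    exact absurd (Finset.mem_range.2 (by omega)) hc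

end Pool.Agent.MPU
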