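import Pool.Agent.MPU.ZiA
import Pool.Agent.MPU.FinF

set_option autoImplicit false

/-!
MPU-FinA: minimal polynomials of matrices with small entries give all minimal polynomials.
-/

namespace Pool.Agent.MPU

open Polynomial

variable {𝓒 : GapClass}

theorem exists_unit {P : ℤ[X]} (hP : P ≠ 0) : ∃ (b : ℕ) (U : ℤ[X]), P = X ^ b * U ∧ U.coeff 0 ≠ 0 := by
  obtain ⟨q, h1, h2⟩ := Polynomial.exists_eq_pow_rootMultiplicity_mul_and_not_dvd P hP 0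
  rw [C_0, sub_zero] at h1 h2
  exact ⟨_, q, h1, fun h => h2 (X_dvd_iff.2 h)⟩

private theorem fina_hE {n : List Bool → ℕ} (hn : n ∈ 𝓒.N) {f : List Bool → ℤ} (hf : f ∈ 𝓒.G)
    {U : List Bool → ℤ[X]} (hU : PG 𝓒 U) {φ : List Bool → List Bool} (hφ : φ ∈ 𝓒.L)
    {c i j : List Bool → ℕ} (hc : c ∈ 𝓒.N) (hi : i ∈ 𝓒.N) (hj : j ∈ 𝓒.N) :
    (fun x => hE (U (φ x)) (n (φ x)) (fam f (φ x)) (c x) (i x) (j x)) ∈ 𝓒.G := by
  have hφ1 : (fun y => φ (pop y)) ∈ 𝓒.L := 𝓒.comp_mem _ lp1 φ hφ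
  have hφ3 : (fun y => φ (pop (pop (pop y)))) ∈ 𝓒.L := 𝓒.comp_mem _ lp3 φ hφ
  unfold hE
  refine gsum (F := fun x k => (U (φ x)).coeff k *
    powE (n (φ x)) (fam f (φ x)) (c x + k) (i x) (j x))
    (nadd (nsubst hn hφ) (𝓒.const_mem 1)) ?_
  refine gmul (hU.coeff hφ1 nt1) ?_
  exact gpow (F := fun y => fam f (φ (pop y))) (nsubst hn hφ1) (nadd (nsubst hc lp1) nt1)
    (nsubst hi lp1) (nsubst hj lp1) (gsubst hf (lpush (lpush hφ3 nt2) nt1))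

private theorem fina_tE {n : List Bool → ℕ} (hn : n ∈ 𝓒.N) {f : List Bool → ℤ} (hf : f ∈ 𝓒.G)
    {U : List Bool → ℤ[X]} (hU : PG 𝓒 U) {φ : List Bool → List Bool} (hφ : φ ∈ 𝓒.L)
    {c : List Bool → ℕ} (hc : c ∈ 𝓒.N) :
    (fun x => tE (U (φ x)) (n (φ x)) (fam f (φ x)) (c x)) ∈ 𝓒.G := by
  have hφ1 : (fun y => φ (pop y)) ∈ 𝓒.L := 𝓒.comp_mem _ lp1 φ hφ
  have hφ2 : (fun y => φ (pop (pop y))) ∈ 𝓒.L := 𝓒.comp_mem _ lp2 φ hφ
  unfold tE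
  refine gsum (F := fun x i => ∑ j ∈ Finset.range (n (φ x)),
    hE (U (φ x)) (n (φ x)) (fam f (φ x)) (c x) i j ^ 2) (nsubst hn hφ) ?_
  refine gsum (F := fun y j => hE (U (φ (pop y))) (n (φ (pop y))) (fam f (φ (pop y)))
    (c (pop y)) (top y) j ^ 2) (nsubst hn hφ1) ?_
  exact gpw (fina_hE hn hf hU hφ2 (nsubst hc lp2) nt2 nt1) 2

private theorem fina_bE (h : MinPolyN 𝓒) {n : List Bool → ℕ} (hn : n ∈ 𝓒.N)
    {f : List Bool → ℤ} (hf : f ∈ 𝓒.G)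
    {U : List Bool → ℤ[X]} (hU : PG 𝓒 U) {φ : List Bool → List Bool} (hφ : φ ∈ 𝓒.L)
    {c : List Bool → ℕ} (hc : c ∈ 𝓒.N) :
    (fun x => bE (U (φ x)) (n (φ x)) (fam f (φ x)) (c x)) ∈ 𝓒.G := by
  unfold bE
  have hz := zero_of_small h
  refine gmul (hz _ (fina_tE hn hf hU hφ hc)) ?_
  exact geq hc (𝓒.const_mem 0) (gconst 1)
    (gsub (gconst 1) (hz _ (fina_tE hn hf hU hφ (nsub hc (𝓒.const_mem 1)))))

theorem minPolyG_of_small (h : MinPolyN 𝓒) : MinPolyG 𝓒 := by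
  intro n hn k hk f hf
  have hex : ∀ x, ∃ (b : ℕ) (U : ℤ[X]), minpoly ℤ (mat (n x) (fam f x)) = X ^ b * U ∧
      U.coeff 0 ≠ 0 := fun x =>
    exists_unit (minpoly.ne_zero (Algebra.IsIntegral.isIntegral (mat (n x) (fam f x))))
  choose b U hU using hex
  have hPG : PG 𝓒 U := unit_part h hn hf hU
  have e : (fun x => (minpoly ℤ (mat (n x) (fam f x))).coeff (k x)) = fun x =>
      ∑ c ∈ Finset.range (n x + 1), bE (U x) (n x) (fam f x) c *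
        (if c ≤ k x then (U x).coeff (k x - c) else 0) := by
    funext x
    exact minpoly_unit (hU x).2 (hU x).1 (k x)
  rw [e]
  refine gsum (F := fun x c => bE (U x) (n x) (fam f x) c *
    (if c ≤ k x then (U x).coeff (k x - c) else 0)) (nadd hn (𝓒.const_mem 1)) ?_
  refine gmul (fina_bE h hn hf hPG lp1 nt1) ?_
  exact gite nt1 (nsubst hk lp1) (hPG.coeff lp1 (nsub (nsubst hk lp1) nt1)) (gconst 0)

end Pool.Agent.MPU
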