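import Pool.Agent.MPU.Gz
import Pool.Agent.MPU.Fam
import Pool.Agent.MPU.Pol

set_option autoImplicit false

/-!
MPU-GauB: indicators of zero sets and Gauss' lemma give the minimal polynomials.

PLAN. Given `n k ∈ 𝓒.N`, `f ∈ 𝓒.G`; write `F x = fam f x`; `(fun y => F (pop (pop y)) (top (pop y)) (top y)) ∈ 𝓒.G`
because it is `f (push (push (pop (pop y)) (top (pop y))) (top y))` (`gsubst`, `lpush`, `lp2`, `nt2`, `nt1`).
(1) `(fun z => gE (n (pop (pop z))) (F (pop (pop z))) (top (pop z)) (top z)) ∈ 𝓒.G`: two `gsum`, `gmul`, `gpow`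
(inside the sums the string is `pop`ped: the summation variables are `top (pop y)`, `top y` for the string
`y = push (push z a) b`; state a general lemma first: for `φ ∈ 𝓒.L`, `s t ∈ 𝓒.N` the function
`fun z => gE (n (φ z)) (F (φ z)) (s z) (t z)` is in `𝓒.G`).
(2) for `φ ∈ 𝓒.L`, `d ∈ 𝓒.N` (`d k ∈ 𝓒.N`): `fun z => gD (n (φ z)) (F (φ z)) (d z)`, `ez ..`, `gC ..` are in `𝓒.G`
(`gdet`, `gadj`, `gsum`, `glt`, `geq`; `ez` by the hypothesis `hz : ZeroG 𝓒`).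
(3) `gaussG_fam hg hn` with `g x = ∑ d ∈ range (n x + 1), ez .. d * gD .. d`, `f x k = ∑ .. ez .. d * gC .. d k`,
`p x i = (mat (n x) (F x)).charpoly.coeff i` (`gchar`), `D x = minpoly ℤ (mat (n x) (F x))`: `mz_monic`,
`mz_dvd_charpoly` and `pol_self` (`Matrix.charpoly_monic`, `Matrix.charpoly_natDegree_eq_dim`), `gram_ne`,
`gram_coeff`. Then `PG.coeff'`.
-/

namespace Pool.Agent.MPU

open Polynomial

variable {𝓒 : GapClass}

private theorem gE_mem {n : List Bool → ℕ} {F : List Bool → ℕ → ℕ → ℤ}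
    {φ : List Bool → List Bool} {s t : List Bool → ℕ} (hn : n ∈ 𝓒.N)
    (hF : (fun y => F (pop (pop y)) (top (pop y)) (top y)) ∈ 𝓒.G) (hφ : φ ∈ 𝓒.L)
    (hs : s ∈ 𝓒.N) (ht : t ∈ 𝓒.N) :
    (fun z => gE (n (φ z)) (F (φ z)) (s z) (t z)) ∈ 𝓒.G := by
  have hφ1 : (fun y => φ (pop y)) ∈ 𝓒.L := 𝓒.comp_mem _ lp1 φ hφ
  have hφ2 : (fun y => φ (pop (pop y))) ∈ 𝓒.L := 𝓒.comp_mem _ lp2 φ hφ
  have hφ4 : (fun y => φ (pop (pop (pop (pop y))))) ∈ 𝓒.L := 𝓒.comp_mem _ lp4 φ hφ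
  have hF4 : (fun y => F (φ (pop (pop (pop (pop y))))) (top (pop y)) (top y)) ∈ 𝓒.G :=
    gs2 hF hφ4 nt2 nt1
  have hp : ∀ r ∈ 𝓒.N, (fun w => powE (n (φ (pop (pop w)))) (F (φ (pop (pop w))))
      (r (pop (pop w))) (top (pop w)) (top w)) ∈ 𝓒.G := fun r hr =>
    gpow (F := fun w => F (φ (pop (pop w)))) (nsubst hn hφ2) (nsubst hr lp2) nt2 nt1 hF4
  have h2 : (fun y => ∑ b ∈ Finset.range (n (φ (pop y))),
      powE (n (φ (pop y))) (F (φ (pop y))) (s (pop y)) (top y) b *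
        powE (n (φ (pop y))) (F (φ (pop y))) (t (pop y)) (top y) b) ∈ 𝓒.G :=
    gsum (F := fun y b => powE (n (φ (pop y))) (F (φ (pop y))) (s (pop y)) (top y) b *
        powE (n (φ (pop y))) (F (φ (pop y))) (t (pop y)) (top y) b)
      (nsubst hn hφ1) (gmul (hp s hs) (hp t ht))
  exact gsum (F := fun z a => ∑ b ∈ Finset.range (n (φ z)),
      powE (n (φ z)) (F (φ z)) (s z) a b * powE (n (φ z)) (F (φ z)) (t z) a b)
    (nsubst hn hφ) h2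

private theorem gD_mem {n : List Bool → ℕ} {F : List Bool → ℕ → ℕ → ℤ}
    {φ : List Bool → List Bool} {d : List Bool → ℕ} (hn : n ∈ 𝓒.N)
    (hF : (fun y => F (pop (pop y)) (top (pop y)) (top y)) ∈ 𝓒.G) (hφ : φ ∈ 𝓒.L)
    (hd : d ∈ 𝓒.N) : (fun z => gD (n (φ z)) (F (φ z)) (d z)) ∈ 𝓒.G := by
  have hφ2 : (fun y => φ (pop (pop y))) ∈ 𝓒.L := 𝓒.comp_mem _ lp2 φ hφ
  exact gdet (F := fun z => gE (n (φ z)) (F (φ z))) hd (gE_mem hn hF hφ2 nt2 nt1)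

private theorem ez_mem (hz : ZeroG 𝓒) {n : List Bool → ℕ} {F : List Bool → ℕ → ℕ → ℤ}
    {φ : List Bool → List Bool} {d : List Bool → ℕ} (hn : n ∈ 𝓒.N)
    (hF : (fun y => F (pop (pop y)) (top (pop y)) (top y)) ∈ 𝓒.G) (hφ : φ ∈ 𝓒.L)
    (hd : d ∈ 𝓒.N) : (fun z => ez (n (φ z)) (F (φ z)) (d z)) ∈ 𝓒.G := by
  have h1 := hz _ (gD_mem hn hF hφ (nadd hd (𝓒.const_mem 1)))
  have h2 := hz _ (gD_mem hn hF hφ hd)
  exact gmul h1 (gsub (gconst 1) h2)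

private theorem gC_mem {n : List Bool → ℕ} {F : List Bool → ℕ → ℕ → ℤ}
    {φ : List Bool → List Bool} {d k : List Bool → ℕ} (hn : n ∈ 𝓒.N)
    (hF : (fun y => F (pop (pop y)) (top (pop y)) (top y)) ∈ 𝓒.G) (hφ : φ ∈ 𝓒.L)
    (hd : d ∈ 𝓒.N) (hk : k ∈ 𝓒.N) : (fun z => gC (n (φ z)) (F (φ z)) (d z) (k z)) ∈ 𝓒.G := by
  have hφ1 : (fun y => φ (pop y)) ∈ 𝓒.L := 𝓒.comp_mem _ lp1 φ hφ
  have hφ3 : (fun y => φ (pop (pop (pop y)))) ∈ 𝓒.L := 𝓒.comp_mem _ lp3 φ hφ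
  have h1 : (fun y => adjE (d (pop y)) (gE (n (φ (pop y))) (F (φ (pop y)))) (k (pop y)) (top y)) ∈
      𝓒.G :=
    gadj (F := fun y => gE (n (φ (pop y))) (F (φ (pop y)))) (nsubst hd lp1) (nsubst hk lp1) nt1
      (gE_mem hn hF hφ3 nt2 nt1)
  have h2 : (fun y => gE (n (φ (pop y))) (F (φ (pop y))) (top y) (d (pop y))) ∈ 𝓒.G :=
    gE_mem hn hF hφ1 nt1 (nsubst hd lp1)
  have h3 : (fun z => ∑ j ∈ Finset.range (d z), adjE (d z) (gE (n (φ z)) (F (φ z))) (k z) j *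
      gE (n (φ z)) (F (φ z)) j (d z)) ∈ 𝓒.G :=
    gsum (F := fun z j => adjE (d z) (gE (n (φ z)) (F (φ z))) (k z) j *
      gE (n (φ z)) (F (φ z)) j (d z)) hd (gmul h1 h2)
  exact glt hk hd (gneg h3) (geq hk hd (gD_mem hn hF hφ hd) (gconst 0))

theorem minPolyG_of_gauss (hz : ZeroG 𝓒) (hg : GaussG 𝓒) : MinPolyG 𝓒 := by
  intro n hn k hk f hf
  have hF : (fun y => fam f (pop (pop y)) (top (pop y)) (top y)) ∈ 𝓒.G :=
    gsubst hf (lpush (lpush lp2 nt2) (nt1 (𝓒 := 𝓒)))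
  have hF3 : (fun y => fam f (pop (pop (pop y))) (top (pop y)) (top y)) ∈ 𝓒.G :=
    gs2 (F := fam f) hF lp3 nt2 nt1
  have hn1 : (fun x => n x + 1) ∈ 𝓒.N := nadd hn (𝓒.const_mem 1)
  have hgm : (fun x => ∑ d ∈ Finset.range (n x + 1), ez (n x) (fam f x) d *
      gD (n x) (fam f x) d) ∈ 𝓒.G :=
    gsum (F := fun x d => ez (n x) (fam f x) d * gD (n x) (fam f x) d) hn1
      (gmul (ez_mem hz hn hF lp1 nt1) (gD_mem hn hF lp1 nt1))
  have hfm : (fun y => ∑ d ∈ Finset.range (n (pop y) + 1), ez (n (pop y)) (fam f (pop y)) d *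
      gC (n (pop y)) (fam f (pop y)) d (top y)) ∈ 𝓒.G :=
    gsum (F := fun y d => ez (n (pop y)) (fam f (pop y)) d *
      gC (n (pop y)) (fam f (pop y)) d (top y)) (nsubst hn1 lp1)
      (gmul (ez_mem hz hn hF lp2 nt1) (gC_mem hn hF lp2 nt1 nt2))
  have hpm : (fun y => (mat (n (pop y)) (fam f (pop y))).charpoly.coeff (top y)) ∈ 𝓒.G :=
    gchar (F := fun y => fam f (pop y)) (nsubst hn lp1) nt1 hF3
  have hPG : PG 𝓒 (fun x => minpoly ℤ (mat (n x) (fam f x))) := by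
    refine gaussG_fam hg hn hgm
      (p := fun x i => (mat (n x) (fam f x)).charpoly.coeff i)
      (f := fun x k => ∑ d ∈ Finset.range (n x + 1), ez (n x) (fam f x) d *
        gC (n x) (fam f x) d k) hpm hfm ?_
    intro x
    refine ⟨mz_monic _, ?_, gram_ne _ _, fun k => gram_coeff _ _ k⟩
    have h1 : pol (n x) (fun i => (mat (n x) (fam f x)).charpoly.coeff i) =
        (mat (n x) (fam f x)).charpoly :=
      pol_self (Matrix.charpoly_monic _) (by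
        rw [Matrix.charpoly_natDegree_eq_dim, Fintype.card_fin])
    rw [h1]
    exact mz_dvd_charpoly _
  exact hPG.coeff' hk

end Pool.Agent.MPU
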