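import Pool.Agent.MPU.Fam
import Pool.Agent.MPU.Blk

set_option autoImplicit false

/-!
MPU-LcmB: minimal polynomials give least common multiples: `Λ x` is the minimal polynomial of the
block diagonal matrix of the two companion matrices.
-/

namespace Pool.Agent.MPU

open Polynomial

variable {𝓒 : GapClass}

private theorem cpE_mem {n i j : List Bool → ℕ} {φ : List Bool → List Bool} (hφ : φ ∈ 𝓒.L)
    (hn : n ∈ 𝓒.N) (hi : i ∈ 𝓒.N) (hj : j ∈ 𝓒.N) {p : List Bool → ℕ → ℤ}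
    (hp : (fun y => p (pop y) (top y)) ∈ 𝓒.G) :
    (fun y => cpE (n y) (p (φ y)) (i y) (j y)) ∈ 𝓒.G := by
  unfold cpE
  exact geq (nadd hj (𝓒.const_mem 1)) hn (gneg (gs1 hp hφ hi))
    (geq hi (nadd hj (𝓒.const_mem 1)) (gconst 1) (gconst 0))

theorem lcm_of_minPoly (h : MinPolyG 𝓒) {n m : List Bool → ℕ} (hn : n ∈ 𝓒.N) (hm : m ∈ 𝓒.N)
    {p q : List Bool → ℕ → ℤ} (hp : (fun y => p (pop y) (top y)) ∈ 𝓒.G)
    (hq : (fun y => q (pop y) (top y)) ∈ 𝓒.G) :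
    ∃ Λ : List Bool → ℤ[X], PG 𝓒 Λ ∧ ∀ x, (Λ x).Monic ∧
      ∀ R : ℤ[X], Λ x ∣ R ↔ pol (n x) (p x) ∣ R ∧ pol (m x) (q x) ∣ R := by
  refine ⟨fun x => minpoly ℤ (mat (n x + m x) (blk (n x) (m x) (p x) (q x))), ?_, fun x =>
    ⟨mz_monic _, fun R => blk_dvd _ _ _ _ R⟩⟩
  refine minPolyG_fam h (F := fun x => blk (n x) (m x) (p x) (q x)) (nadd hn hm) ?_
  have hn2 : (fun y => n (pop (pop y))) ∈ 𝓒.N := nsubst hn lp2
  have hm2 : (fun y => m (pop (pop y))) ∈ 𝓒.N := nsubst hm lp2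
  show (fun y => blk (n (pop (pop y))) (m (pop (pop y))) (p (pop (pop y))) (q (pop (pop y)))
    (top (pop y)) (top y)) ∈ 𝓒.G
  unfold blk
  exact glt nt2 hn2 (glt nt1 hn2 (cpE_mem lp2 hn2 nt2 nt1 hp) (gconst 0))
    (glt nt1 hn2 (gconst 0) (cpE_mem lp2 hm2 (nsub nt2 hn2) (nsub nt1 hn2) hq))

end Pool.Agent.MPU
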