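import Pool.Agent.MPU.ZMin
import Pool.Agent.MPU.LcmB
import Pool.Agent.MPU.DivG

set_option autoImplicit false

/-!
MPU-GcdB: minimal polynomials give greatest common divisors.

PLAN. (1) `gcd_mul_lcm`: `P = D * P'`, `Q = D * Q'`; `D * P' * Q'` is a multiple of `P` and `Q`, so `Λ ∣ D * P' * Q'`,
say `D * P' * Q' = Λ * h`. `Λ ∣ P * Q`, say `P * Q = Λ * E`. As `P ∣ Λ`, `Q ∣ Λ`: `Λ = P * a = Q * b`, so `Q = a * E`,
`P = b * E` (cancel `P`, `Q`), so `E ∣ D`, `D = E * c`. `Λ * E = P * Q = D * (D * P' * Q') = D * Λ * h`, so `E = D * h`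
and `1 = c * h`. `E` is monic (quotient of monic polynomials, `Monic.of_mul_monic_left`), so `h = 1` and `D = E`.
(2) `PG` of the product `pol (n x) (p x) * pol (m x) (q x)`: `coeff_mul`,
`Finset.Nat.sum_antidiagonal_eq_sum_range_succ`, `gsum`, `gmul`, `pol_coeff`, `glt`, `geq`, `gs1`.
(3) `gcd_of_minPoly`: given `n m p q D`, take `Λ` from `lcm_of_minPoly` (for `p' x i = p (push x i)`,
`q' x i = q (push x i)`), `div_mem` with `R = P * Q`, `K = n + m`.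
-/

namespace Pool.Agent.MPU

open Polynomial

theorem gcd_mul_lcm {P Q D Λ : ℤ[X]} (hP : P.Monic) (hQ : Q.Monic) (hD : D.Monic) (hΛ : Λ.Monic)
    (h1 : ∀ E : ℤ[X], E ∣ D ↔ E ∣ P ∧ E ∣ Q) (h2 : ∀ R : ℤ[X], Λ ∣ R ↔ P ∣ R ∧ Q ∣ R) :
    P * Q = Λ * D := by
  obtain ⟨hDP, hDQ⟩ := (h1 D).1 dvd_rfl
  obtain ⟨hPΛ, hQΛ⟩ := (h2 Λ).1 dvd_rfl
  obtain ⟨P', hP'⟩ := hDP
  obtain ⟨Q', hQ'⟩ := hDQ
  have h3 : Λ ∣ D * P' * Q' := by
    refine (h2 _).2 ⟨?_, ?_⟩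
    · rw [hP']
      exact dvd_mul_right _ _
    · rw [hQ']
      exact ⟨P', by ring⟩
  obtain ⟨h, hh⟩ := h3
  have h4 : Λ ∣ P * Q := (h2 _).2 ⟨dvd_mul_right _ _, dvd_mul_left _ _⟩
  obtain ⟨E, hE⟩ := h4
  obtain ⟨a, ha⟩ := hPΛ
  obtain ⟨b, hb⟩ := hQΛ
  have h5 : Q = a * E := by
    apply mul_left_cancel₀ hP.ne_zero
    rw [hE, ha, mul_assoc]
  have h6 : P = b * E := by
    apply mul_left_cancel₀ hQ.ne_zero
    rw [mul_comm Q P, hE, hb, mul_assoc]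
  obtain ⟨c, hc⟩ := (h1 E).2 ⟨⟨b, by rw [h6]; ring⟩, ⟨a, by rw [h5]; ring⟩⟩
  have h7 : E = D * h := by
    apply mul_left_cancel₀ hΛ.ne_zero
    rw [← hE]
    calc P * Q = D * (D * P' * Q') := by rw [hP', hQ']; ring
      _ = Λ * (D * h) := by rw [hh]; ring
  have h8 : h * c = 1 := by
    apply mul_left_cancel₀ hD.ne_zero
    rw [← mul_assoc, ← h7, ← hc, mul_one]
  have hEm : E.Monic := by
    refine hΛ.of_mul_monic_left ?_
    rw [← hE]
    exact hP.mul hQ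
  have hhm : h.Monic := by
    refine hD.of_mul_monic_left ?_
    rw [← h7]
    exact hEm
  have h9 : h = 1 := hhm.eq_one_of_isUnit (IsUnit.of_mul_eq_one c h8)
  rw [hE, h7, h9, mul_one]

variable {𝓒 : GapClass}

theorem pg_mul_pol {n m : List Bool → ℕ} (hn : n ∈ 𝓒.N) (hm : m ∈ 𝓒.N)
    {p q : List Bool → ℕ → ℤ} (hp : (fun y => p (pop y) (top y)) ∈ 𝓒.G)
    (hq : (fun y => q (pop y) (top y)) ∈ 𝓒.G) :
    PG 𝓒 (fun x => pol (n x) (p x) * pol (m x) (q x)) := by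
  have h := gsum (𝓒 := 𝓒) (n := fun y => top y + 1)
    (F := fun y i => (if i < n (pop y) then p (pop y) i else if i = n (pop y) then 1 else 0) *
      (if top y - i < m (pop y) then q (pop y) (top y - i) else
        if top y - i = m (pop y) then 1 else 0))
    (nadd nt1 (𝓒.const_mem 1))
    (gmul (glt nt1 (nsubst hn lp2) (gs1 hp lp2 nt1)
      (geq nt1 (nsubst hn lp2) (gconst 1) (gconst 0)))
      (glt (nsub nt2 nt1) (nsubst hm lp2) (gs1 hq lp2 (nsub nt2 nt1))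
        (geq (nsub nt2 nt1) (nsubst hm lp2) (gconst 1) (gconst 0))))
  refine (congrArg (· ∈ 𝓒.G) (funext fun y => ?_)).mp h
  rw [coeff_mul, Finset.Nat.sum_antidiagonal_eq_sum_range_succ
    (fun i j => (pol (n (pop y)) (p (pop y))).coeff i * (pol (m (pop y)) (q (pop y))).coeff j)]
  refine Finset.sum_congr rfl fun i _ => ?_
  rw [pol_coeff, pol_coeff]

theorem gcd_of_minPoly (h : MinPolyG 𝓒) : GcdG 𝓒 := by
  intro n hn m hm p hp q hq D hD k hk
  have hp' : (fun y => p (push (pop y) (top y))) ∈ 𝓒.G := gsubst hp (lpush lp1 nt1)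
  have hq' : (fun y => q (push (pop y) (top y))) ∈ 𝓒.G := gsubst hq (lpush lp1 nt1)
  obtain ⟨Λ, hΛ, hΛ2⟩ := lcm_of_minPoly h hn hm (p := fun x i => p (push x i))
    (q := fun x i => q (push x i)) hp' hq'
  have hDG : PG 𝓒 D := by
    refine div_mem (zero_of_minPoly h)
      (pg_mul_pol hn hm (p := fun x i => p (push x i)) (q := fun x i => q (push x i)) hp' hq') hΛ
      (fun x => ⟨(hΛ2 x).1, (hD x).1, gcd_mul_lcm (pol_monic _ _) (pol_monic _ _) (hD x).1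
        (hΛ2 x).1 (hD x).2 (hΛ2 x).2⟩) (K := fun x => n x + m x) (nadd hn hm) fun x => ?_
    refine natDegree_mul_le.trans ?_
    rw [pol_natDegree, pol_natDegree]
  exact hDG.coeff' hk

end Pool.Agent.MPU
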