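import Pool.Agent.MPU.Fam
import Pool.Agent.MPU.Pol

set_option autoImplicit false

/-!
MPU-GcdGa: greatest common divisors give Gauss' lemma: `D` is the greatest common divisor of `P` and
`X ^ (n + 1) * P + C g * D`.
-/

namespace Pool.Agent.MPU

open Polynomial

theorem gcd_gauss {P D : ℤ[X]} (hP : P.Monic) (hD : D.Monic) (hDP : D ∣ P) {g : ℤ} (hg : g ≠ 0) (n : ℕ)
    (E : ℤ[X]) : E ∣ D ↔ E ∣ P ∧ E ∣ X ^ (n + 1) * P + C g * D := by
  constructor
  · intro h
    exact ⟨h.trans hDP, dvd_add ((h.trans hDP).mul_left _) (h.mul_left _)⟩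
  · rintro ⟨h1, h2⟩
    have h3 : E ∣ C g * D := (dvd_add_right (h1.mul_left (X ^ (n + 1)))).1 h2
    have hE : E.IsPrimitive := isPrimitive_of_dvd hP.isPrimitive h1
    rw [IsPrimitive.Int.dvd_iff_map_cast_dvd_map_cast E D hE]
    have h4 : E.map (Int.castRingHom ℚ) ∣ (C g * D).map (Int.castRingHom ℚ) :=
      Polynomial.map_dvd _ h3
    rw [Polynomial.map_mul, map_C] at h4
    have hu : IsUnit (C ((Int.castRingHom ℚ) g) : ℚ[X]) := by
      rw [isUnit_C]
      refine IsUnit.mk0 _ ?_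
      simpa using hg
    exact (hu.dvd_mul_left).1 h4

private theorem deg_gauss {P D : ℤ[X]} (hP : P.Monic) (hDP : D ∣ P) (g : ℤ) {n : ℕ}
    (hn : P.natDegree = n) :
    (C g * D).natDegree < (X ^ (n + 1) * P).natDegree ∧ (X ^ (n + 1) * P).natDegree = 2 * n + 1 := by
  have h1 : (X ^ (n + 1) * P).natDegree = 2 * n + 1 := by
    rw [(monic_X_pow (n + 1)).natDegree_mul hP, natDegree_X_pow, hn]
    ring
  refine ⟨?_, h1⟩
  rw [h1]
  have h2 : D.natDegree ≤ n := by
    rw [← hn]
    exact natDegree_le_of_dvd hDP hP.ne_zero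
  have h3 : (C g * D).natDegree ≤ D.natDegree := natDegree_C_mul_le g D
  omega

theorem pol_gauss {P D : ℤ[X]} (hP : P.Monic) (hD : D.Monic) (hDP : D ∣ P) (g : ℤ) {n : ℕ}
    (hn : P.natDegree = n) :
    pol (2 * n + 1) (fun i => (X ^ (n + 1) * P + C g * D).coeff i) = X ^ (n + 1) * P + C g * D := by
  obtain ⟨h1, h2⟩ := deg_gauss hP hDP g hn
  refine pol_self ?_ ?_
  · exact ((monic_X_pow (n + 1)).mul hP).add_of_left (degree_lt_degree h1)
  · rw [natDegree_add_eq_left_of_natDegree_lt h1, h2]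

variable {𝓒 : GapClass}

theorem gauss_of_gcd (h : GcdG 𝓒) : GaussG 𝓒 := by
  intro n hn p hp f hf g hg D hD k hk
  have hp' : (fun y => p (push (pop y) (top y))) ∈ 𝓒.G := gsubst hp (lpush lp1 nt1)
  have hf' : (fun y => f (push (pop y) (top y))) ∈ 𝓒.G := gsubst hf (lpush lp1 nt1)
  have hnp : (fun y => n (pop y)) ∈ 𝓒.N := nsubst hn lp1
  have hn1 : (fun y => n (pop y) + 1) ∈ 𝓒.N := nadd hnp (𝓒.const_mem 1)
  have hs : (fun y => top y - (n (pop y) + 1)) ∈ 𝓒.N := nsub nt1 hn1
  have hps : (fun y => p (push (pop y) (top y - (n (pop y) + 1)))) ∈ 𝓒.G := gsubst hp (lpush lp1 hs)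
  have hcoef : (fun y => (pol (n (pop y)) (fun i => p (push (pop y) i))).coeff
      (top y - (n (pop y) + 1))) ∈ 𝓒.G := by
    have h1 := glt hs hnp hps (geq hs hnp (gconst 1) (gconst 0))
    have h2 : (fun y => (pol (n (pop y)) (fun i => p (push (pop y) i))).coeff
        (top y - (n (pop y) + 1))) = fun y => if top y - (n (pop y) + 1) < n (pop y) then
          p (push (pop y) (top y - (n (pop y) + 1))) else
          if top y - (n (pop y) + 1) = n (pop y) then 1 else 0 := by
      funext y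
      rw [pol_coeff]
    rw [h2]
    exact h1
  have hq : (fun y => (X ^ (n (pop y) + 1) * pol (n (pop y)) (fun i => p (push (pop y) i)) +
      C (g (pop y)) * D (pop y)).coeff (top y)) ∈ 𝓒.G := by
    have h1 := gadd (gite hn1 nt1 hcoef (gconst 0)) hf'
    have h2 : (fun y => (X ^ (n (pop y) + 1) * pol (n (pop y)) (fun i => p (push (pop y) i)) +
        C (g (pop y)) * D (pop y)).coeff (top y)) = fun y => (if n (pop y) + 1 ≤ top y then
          (pol (n (pop y)) (fun i => p (push (pop y) i))).coeff (top y - (n (pop y) + 1)) else 0) +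
          f (push (pop y) (top y)) := by
      funext y
      rw [coeff_add, coeff_X_pow_mul', coeff_C_mul, (hD (pop y)).2.2.2]
    rw [h2]
    exact h1
  have hm : (fun x => 2 * n x + 1) ∈ 𝓒.N := nadd (nmul (𝓒.const_mem 2) hn) (𝓒.const_mem 1)
  have key : PG 𝓒 D := by
    refine gcdG_fam h hn hm (p := fun x i => p (push x i))
      (q := fun x i => (X ^ (n x + 1) * pol (n x) (fun i => p (push x i)) +
        C (g x) * D x).coeff i) hp' hq fun x => ?_
    obtain ⟨h1, h2, h3, h4⟩ := hD x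
    refine ⟨h1, fun E => ?_⟩
    rw [pol_gauss (pol_monic _ _) h1 h2 (g x) (pol_natDegree _ _)]
    exact gcd_gauss (pol_monic _ _) h1 h2 h3 (n x) E
  exact key.coeff' hk

end Pool.Agent.MPU
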