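import Pool.Agent.MPU.Fam
import Pool.Agent.MPU.Pol

set_option autoImplicit false

/-!
MPU-GcdZ: greatest common divisors give the indicators of zero sets.

PLAN. For `f ∈ 𝓒.G` use `gcdG_fam` with `n = m = 1` (`𝓒.const_mem 1`), `p x i = 0`, `q x i = -f x`
(`gneg (gsubst hf lp1)`), `D x = if f x = 0 then X else 1`. `pol 1 p = X + C (p 0)` (`pol`, `Finset.sum_range_one`).
If `f x = 0` both polynomials are `X`. If `f x ≠ 0` and `E ∣ X`, `E ∣ X - C (f x)` then `E ∣ C (f x)`, so `E` is a
constant `C c`, and `C c ∣ X` gives `c ∣ 1` (coefficient of `X`), so `E ∣ 1`. The coefficient of `X ^ 1` of `D x` is the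
indicator (`coeff_X_one`, `coeff_one`); take `PG.coeff'` with `k = 1`.
-/

namespace Pool.Agent.MPU

open Polynomial

variable {𝓒 : GapClass}

theorem zero_of_gcd (h : GcdG 𝓒) : ZeroG 𝓒 := by
  intro f hf
  have hp1 : ∀ c : ℤ, pol 1 (fun _ => c) = X + C c := by
    intro c
    rw [pol, pow_one, Finset.sum_range_one, pow_zero, mul_one]
  have key : PG 𝓒 (fun x => if f x = 0 then (X : ℤ[X]) else 1) := by
    refine gcdG_fam h (n := fun _ => 1) (m := fun _ => 1) (𝓒.const_mem 1) (𝓒.const_mem 1)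
      (p := fun _ _ => 0) (q := fun x _ => -f x) (gconst 0) (gneg (gsubst hf lp1)) ?_
    intro x
    rw [hp1, hp1]
    by_cases hx : f x = 0
    · rw [if_pos hx, hx, neg_zero, C_0, add_zero]
      exact ⟨monic_X, fun E => ⟨fun hE => ⟨hE, hE⟩, fun hE => hE.1⟩⟩
    · rw [if_neg hx]
      refine ⟨monic_one, fun E => ⟨fun hE => ⟨hE.trans (one_dvd _), hE.trans (one_dvd _)⟩, ?_⟩⟩
      rintro ⟨h1, h2⟩
      have h3 : E ∣ C (f x) := by
        have h4 := dvd_sub h1 h2
        have h5 : (X + C 0 : ℤ[X]) - (X + C (-f x)) = C (f x) := by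
          rw [C_0, C_neg]
          ring
        rw [h5] at h4
        exact h4
      have h6 : E.natDegree ≤ 0 := by
        have h7 := natDegree_le_of_dvd h3 (C_ne_zero.mpr hx)
        rw [natDegree_C] at h7
        exact h7
      rw [eq_C_of_natDegree_le_zero h6] at h1 ⊢
      have h8 := (C_dvd_iff_dvd_coeff _ _).mp h1 1
      have h9 : (X + C 0 : ℤ[X]).coeff 1 = 1 := by
        rw [C_0, add_zero, coeff_X_one]
      rw [h9] at h8
      have h10 := map_dvd (C : ℤ →+* ℤ[X]) h8
      rw [map_one] at h10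
      exact h10
  have h1 := key.coeff' (𝓒.const_mem 1)
  have h2 : (fun x => (if f x = 0 then (X : ℤ[X]) else 1).coeff 1) =
      fun x => if f x = 0 then (1 : ℤ) else 0 := by
    funext x
    by_cases hx : f x = 0
    · rw [if_pos hx, if_pos hx, coeff_X_one]
    · rw [if_neg hx, if_neg hx, coeff_one, if_neg one_ne_zero]
  exact h2 ▸ h1

end Pool.Agent.MPU
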