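import Mathlib

set_option autoImplicit false

/-!
MPU-Jor: the nilpotent Jordan block and block diagonal matrices over `ℤ`. Mathlib only.

PLAN. (1) `jor_pow`: `(jor N ^ k) i j = if (j : ℕ) = i + k then 1 else 0` (induction on `k`, `pow_succ`). So
`aeval (jor N) q` has the entries `if i ≤ j then q.coeff (j - i) else 0` (`aeval_eq_sum_range`), and it vanishes iff
`q.coeff k = 0` for all `k < N` (row 0), iff `X ^ N ∣ q` (`X_pow_dvd_iff`).
(2) `aeval_blocks`: copy the proof of the private theorem `aeval_blocks` of `Pool/Agent/MPN/Comp.lean`.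
-/

namespace Pool.Agent.MPU

open Polynomial

/-- nilpotent Jordan block -/
def jor (N : ℕ) : Matrix (Fin N) (Fin N) ℤ := Matrix.of fun i j => if (j : ℕ) = i + 1 then 1 else 0

private theorem jor_pow (N k : ℕ) (i j : Fin N) :
    (jor N ^ k) i j = if (j : ℕ) = i + k then 1 else 0 := by
  induction k generalizing j with
  | zero =>
    rw [pow_zero, Matrix.one_apply, add_zero]
    by_cases h : i = j
    · rw [if_pos h, if_pos (by rw [h])]
    · rw [if_neg h, if_neg (fun h' => h (Fin.ext h'.symm))]
  | succ k ih =>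
    rw [pow_succ, Matrix.mul_apply]
    have hj : ∀ l j : Fin N, jor N l j = if (j : ℕ) = l + 1 then 1 else 0 := fun _ _ => rfl
    simp only [ih, hj]
    by_cases h : (j : ℕ) = i + (k + 1)
    · have hlt : (i : ℕ) + k < N := by have := j.2; omega
      rw [if_pos h, Finset.sum_eq_single (⟨(i : ℕ) + k, hlt⟩ : Fin N)]
      · rw [if_pos rfl, if_pos (by simp only []; omega), mul_one]
      · intro l _ hl
        rw [if_neg (fun h' => hl (Fin.ext h')), zero_mul]
      · intro h'
        exact absurd (Finset.mem_univ _) h'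
    · rw [if_neg h]
      apply Finset.sum_eq_zero
      intro l _
      by_cases h1 : (l : ℕ) = i + k
      · rw [if_neg (show ¬ (j : ℕ) = l + 1 by omega), mul_zero]
      · rw [if_neg h1, zero_mul]

private theorem aeval_jor_apply (N : ℕ) (q : ℤ[X]) (i j : Fin N) :
    aeval (jor N) q i j = if (i : ℕ) ≤ j then q.coeff ((j : ℕ) - i) else 0 := by
  rw [aeval_eq_sum_range, Matrix.sum_apply]
  simp only [Matrix.smul_apply, jor_pow, smul_eq_mul]
  by_cases h : (i : ℕ) ≤ j
  · rw [if_pos h]
    by_cases h1 : (j : ℕ) - i ≤ q.natDegree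
    · rw [Finset.sum_eq_single ((j : ℕ) - i)]
      · rw [if_pos (by omega), mul_one]
      · intro k _ hk
        rw [if_neg (by omega), mul_zero]
      · intro h'
        exact absurd (Finset.mem_range.2 (by omega)) h'
    · rw [coeff_eq_zero_of_natDegree_lt (by omega)]
      apply Finset.sum_eq_zero
      intro k hk
      have := Finset.mem_range.1 hk
      rw [if_neg (by omega), mul_zero]
  · rw [if_neg h]
    apply Finset.sum_eq_zero
    intro k hk
    rw [if_neg (by omega), mul_zero]

theorem aeval_jor (N : ℕ) (q : ℤ[X]) : aeval (jor N) q = 0 ↔ X ^ N ∣ q := by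
  rw [X_pow_dvd_iff]
  constructor
  · intro h k hk
    have h1 := congrFun (congrFun h (⟨0, by omega⟩ : Fin N)) (⟨k, hk⟩ : Fin N)
    rw [aeval_jor_apply] at h1
    simpa using h1
  · intro h
    ext i j
    rw [aeval_jor_apply, Matrix.zero_apply]
    by_cases h1 : (i : ℕ) ≤ j
    · rw [if_pos h1]
      exact h _ (by have := j.2; omega)
    · rw [if_neg h1]

theorem aeval_blocks {ι κ : Type} [Fintype ι] [DecidableEq ι] [Fintype κ] [DecidableEq κ]
    (A : Matrix ι ι ℤ) (B : Matrix κ κ ℤ) (q : ℤ[X]) :
    aeval (Matrix.fromBlocks A 0 0 B) q = Matrix.fromBlocks (aeval A q) 0 0 (aeval B q) := by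
  have hX : ∀ n : ℕ, Matrix.fromBlocks A 0 0 B ^ n = Matrix.fromBlocks (A ^ n) 0 0 (B ^ n) := by
    intro n
    induction n with
    | zero => simp only [pow_zero, Matrix.fromBlocks_one]
    | succ n ih =>
      rw [pow_succ, ih, Matrix.fromBlocks_multiply]
      simp only [Matrix.mul_zero, Matrix.zero_mul, add_zero, zero_add, pow_succ]
  induction q using Polynomial.induction_on' with
  | add p q hp hq =>
    rw [map_add, hp, hq, Matrix.fromBlocks_add, map_add, map_add, add_zero, add_zero]
  | monomial n a =>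
    simp only [aeval_monomial, hX, ← Algebra.smul_def, Matrix.fromBlocks_smul, smul_zero]

end Pool.Agent.MPU
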