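import Mathlib

set_option autoImplicit false

/-!
MPU-Mz: the minimal polynomial over `ℤ` of an integer matrix. Mathlib only.

`Matrix ι ι ℤ` is a finite `ℤ`-algebra, so every `A` is integral (`Matrix.isIntegral` or
`IsIntegral` from `Algebra.IsIntegral`) and `mz_monic` is `minpoly.monic`.

PLAN.
(1) `mz_map`: let `Q = minpoly ℚ (A.map Int.cast)`, monic, it divides `(A.map Int.cast).charpoly = A.charpoly.map _`
(`Matrix.minpoly_dvd_charpoly`, `Matrix.charpoly_map`). By `IsIntegrallyClosed.eq_map_mul_C_of_dvd ℚ` there is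
`μ : ℤ[X]` with `μ.map _ = Q` (exactly as in `Pool/Agent/MPN/Int.lean`, `hμ`), `μ` is monic
(`monic_of_injective`), `aeval A μ = 0` (apply the injective map `A ↦ A.map Int.cast`, e.g.
`Matrix.map_injective`/`(Int.castRingHom ℚ).mapMatrix`, `aeval` commutes: `Polynomial.map_aeval_eq_aeval_map`-like,
or `hom_eval₂`). `minpoly.min ℤ A hmonic haeval : (minpoly ℤ A).degree ≤ μ.degree`. On the other hand
`(minpoly ℤ A).map _` annihilates `A.map Int.cast`, so `Q ∣ (minpoly ℤ A).map _`, both monic, degrees equal, so equal.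
(2) `mz_dvd`: `aeval A p = 0 ↔ aeval (A.map _) (p.map _) = 0 ↔ Q ∣ p.map _ ↔ (minpoly ℤ A).map _ ∣ p.map _ ↔
minpoly ℤ A ∣ p` (`minpoly.dvd_iff`, `Polynomial.map_dvd_map (Int.castRingHom ℚ) Int.cast_injective mz_monic`).
(3) `mz_dvd_charpoly`: `Matrix.aeval_self_charpoly`. (4) `mz_natDegree_le`: divisor of a monic polynomial of degree
`Fintype.card ι` (`Matrix.charpoly_natDegree_eq_dim`). (5) `mz_eq`: `minpoly ℤ A ∣ p` and `p ∣ minpoly ℤ A`,
both monic: `Polynomial.eq_of_monic_of_associated`.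
(6) `mz_reindex`: `minpoly.algEquiv_eq` for `Matrix.reindexAlgEquiv` or (5) with `aeval` (`Polynomial.aeval_algHom_apply`).
-/

namespace Pool.Agent.MPU

open Polynomial

variable {ι : Type} [Fintype ι] [DecidableEq ι]

theorem mz_monic (A : Matrix ι ι ℤ) : (minpoly ℤ A).Monic :=
  minpoly.monic (Algebra.IsIntegral.isIntegral A)

private theorem aeval_q (A : Matrix ι ι ℤ) (p : ℤ[X]) :
    aeval (A.map (Int.cast : ℤ → ℚ)) (p.map (Int.castRingHom ℚ)) =
      (Int.castRingHom ℚ).mapMatrix (aeval A p) := by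
  rw [aeval_def, eval₂_map, aeval_def, hom_eval₂]
  congr 1
  exact RingHom.ext_int _ _

private theorem map_inj : Function.Injective ((Int.castRingHom ℚ).mapMatrix : Matrix ι ι ℤ →+* Matrix ι ι ℚ) := by
  intro A B h
  ext i j
  have := congrFun (congrFun h i) j
  simpa using this

private theorem aeval_q_iff (A : Matrix ι ι ℤ) (p : ℤ[X]) :
    aeval A p = 0 ↔ minpoly ℚ (A.map (Int.cast : ℤ → ℚ)) ∣ p.map (Int.castRingHom ℚ) := by
  rw [← minpoly.dvd_iff.symm, aeval_q]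
  constructor
  · intro h
    rw [h, map_zero]
  · intro h
    exact map_inj (h.trans (map_zero _).symm)

theorem mz_map (A : Matrix ι ι ℤ) :
    (minpoly ℤ A).map (Int.castRingHom ℚ) = minpoly ℚ (A.map (Int.cast : ℤ → ℚ)) := by
  have hint : IsIntegral ℚ (A.map (Int.cast : ℤ → ℚ)) := Matrix.isIntegral _
  have hmon : (minpoly ℚ (A.map (Int.cast : ℤ → ℚ))).Monic := minpoly.monic hint
  have hchar : (A.map (Int.cast : ℤ → ℚ)).charpoly = A.charpoly.map (Int.castRingHom ℚ) :=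
    Matrix.charpoly_map A (Int.castRingHom ℚ)
  have hdvd : minpoly ℚ (A.map (Int.cast : ℤ → ℚ)) ∣ A.charpoly.map (algebraMap ℤ ℚ) := by
    have := Matrix.minpoly_dvd_charpoly (A.map (Int.cast : ℤ → ℚ))
    rw [hchar] at this
    exact this
  obtain ⟨μ, hμ⟩ := IsIntegrallyClosed.eq_map_mul_C_of_dvd ℚ (Matrix.charpoly_monic A) hdvd
  rw [hmon.leadingCoeff, map_one, mul_one] at hμ
  have hμ' : μ.map (Int.castRingHom ℚ) = minpoly ℚ (A.map (Int.cast : ℤ → ℚ)) := hμ
  have hμm : μ.Monic := monic_of_injective (f := Int.castRingHom ℚ) Int.cast_injective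
    (by rw [hμ']; exact hmon)
  have h0 : aeval A μ = 0 := (aeval_q_iff A μ).2 (hμ' ▸ dvd_refl _)
  have h1 := minpoly.min ℤ A hμm h0
  have h2 : minpoly ℚ (A.map (Int.cast : ℤ → ℚ)) ∣ (minpoly ℤ A).map (Int.castRingHom ℚ) :=
    (aeval_q_iff A _).1 (minpoly.aeval ℤ A)
  have hm := (mz_monic A).map (Int.castRingHom ℚ)
  refine eq_of_monic_of_dvd_of_natDegree_le hmon hm h2 ?_
  rw [(mz_monic A).natDegree_map, ← hμ', hμm.natDegree_map]
  exact natDegree_le_natDegree h1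

theorem mz_dvd (A : Matrix ι ι ℤ) (p : ℤ[X]) : aeval A p = 0 ↔ minpoly ℤ A ∣ p := by
  rw [aeval_q_iff, ← mz_map]
  exact map_dvd_map (Int.castRingHom ℚ) Int.cast_injective (mz_monic A)

theorem mz_dvd_charpoly (A : Matrix ι ι ℤ) : minpoly ℤ A ∣ A.charpoly :=
  (mz_dvd A _).1 (Matrix.aeval_self_charpoly A)

theorem mz_natDegree_le (A : Matrix ι ι ℤ) : (minpoly ℤ A).natDegree ≤ Fintype.card ι := by
  rw [← Matrix.charpoly_natDegree_eq_dim A]
  exact natDegree_le_of_dvd (mz_dvd_charpoly A) (Matrix.charpoly_monic A).ne_zero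

theorem mz_eq {A : Matrix ι ι ℤ} {p : ℤ[X]} (hp : p.Monic)
    (h : ∀ q : ℤ[X], aeval A q = 0 ↔ p ∣ q) : minpoly ℤ A = p := by
  have h1 : minpoly ℤ A ∣ p := (mz_dvd A p).1 ((h p).2 (dvd_refl p))
  have h2 : p ∣ minpoly ℤ A := (h _).1 (minpoly.aeval ℤ A)
  exact eq_of_monic_of_associated (mz_monic A) hp (associated_of_dvd_dvd h1 h2)

theorem mz_reindex {κ : Type} [Fintype κ] [DecidableEq κ] (e : ι ≃ κ) (A : Matrix ι ι ℤ)
    (B : Matrix κ κ ℤ) (h : ∀ i j, B (e i) (e j) = A i j) : minpoly ℤ B = minpoly ℤ A := by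
  have hB : B = Matrix.reindexAlgEquiv ℤ ℤ e A := by
    ext i j
    rw [Matrix.coe_reindexAlgEquiv, Matrix.reindex_apply, Matrix.submatrix_apply, ← h]
    simp
  rw [hB]
  exact minpoly.algEquiv_eq _ _

end Pool.Agent.MPU
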