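import Pool.Agent.MPU.GraV
import Pool.Agent.MPU.Jor
import Pool.Agent.MPU.Mz

set_option autoImplicit false

/-!
MPU-GraE: the layered graph with numbered vertices.

The vertex `inl i` has the number `i`, the vertex `inr (i, j, t, v)` has the number `n + c` with
`c = v + W * (t + (S + 1) * (j + n * i))`, so `v = c % W`, `t = c / W % (S + 1)`, `j = c / W / (S + 1) % n`,
`i = c / W / (S + 1) / n` (`dec`); the vertices of the Jordan block have the numbers `T + l`,
`T = siz n S W = n + n * n * (S + 1) * W`. The numbering is the equivalence `eA`, composed from `finSumFinEquiv` and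
`finProdFinEquiv`.
-/

namespace Pool.Agent.MPU

/-- the number of the vertices of the layered graph -/
def siz (n S W : ℕ) : ℕ := n + n * n * (S + 1) * W

/-- the weights of the layered graph and the Jordan block, for numbered vertices; the weights `1` are written `e` -/
def layE {R : Type} [Zero R] (e : R) (n S W : ℕ) (w m : ℕ → ℕ → ℕ) (B : ℕ → ℕ → ℕ → ℕ → R)
    (c c' : ℕ) : R :=
  if siz n S W ≤ c then (if siz n S W ≤ c' then (if c' = c + 1 then e else 0) else 0)
  else if siz n S W ≤ c' then 0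
  else if c < n then
    (if c' < n then 0
    else if (c' - n) / W / (S + 1) / n = c then
      (if (c' - n) / W % (S + 1) = 0 then (if (c' - n) % W = 0 then e else 0) else 0) else 0)
  else if c' < n then
    (if (c - n) / W % (S + 1) = S then
      (if (c - n) % W = 1 then (if (c - n) / W / (S + 1) % n = c' then e else 0) else 0) else 0)
  else if (c - n) / W / (S + 1) = (c' - n) / W / (S + 1) then
    (if (c' - n) / W % (S + 1) = (c - n) / W % (S + 1) + 1 then
      (if (c - n) / W % (S + 1) < m ((c - n) / W / (S + 1) / n) ((c - n) / W / (S + 1) % n) then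
        (if (c - n) % W < w ((c - n) / W / (S + 1) / n) ((c - n) / W / (S + 1) % n) then
          (if (c' - n) % W < w ((c - n) / W / (S + 1) / n) ((c - n) / W / (S + 1) % n) then
            B ((c - n) / W / (S + 1) / n) ((c - n) / W / (S + 1) % n) ((c - n) % W) ((c' - n) % W)
          else 0) else 0)
      else if (c - n) % W = (c' - n) % W then e else 0) else 0)
  else 0

private theorem si {p : Prop} [Decidable p] {a b c d : ℕ} {x y : ℤ} (h1 : (a : ℤ) - c = x)
    (h2 : (b : ℤ) - d = y) :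
    (((if p then a else b : ℕ) : ℤ) - ((if p then c else d : ℕ) : ℤ)) = if p then x else y := by
  by_cases h : p
  · rw [if_pos h, if_pos h, if_pos h, h1]
  · rw [if_neg h, if_neg h, if_neg h, h2]

theorem layE_sub (n S W : ℕ) (w m : ℕ → ℕ → ℕ) (a b : ℕ → ℕ → ℕ → ℕ → ℕ) (c c' : ℕ) :
    ((layE 1 n S W w m a c c' : ℕ) : ℤ) - (layE 0 n S W w m b c c' : ℕ) =
      layE 1 n S W w m (fun i j v v' => (a i j v v' : ℤ) - b i j v v') c c' := by
  unfold layE
  repeat' apply si
  all_goals simp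

/-- the numbering of the inner vertices -/
private def eP (n S W : ℕ) : Fin n × Fin n × Fin (S + 1) × Fin W ≃ Fin (n * n * (S + 1) * W) :=
  (Equiv.prodAssoc (Fin n) (Fin n) (Fin (S + 1) × Fin W)).symm.trans
    ((Equiv.prodAssoc (Fin n × Fin n) (Fin (S + 1)) (Fin W)).symm.trans
      ((Equiv.prodCongr ((Equiv.prodCongr finProdFinEquiv (Equiv.refl _)).trans finProdFinEquiv)
        (Equiv.refl _)).trans finProdFinEquiv))

private theorem eP_val (n S W : ℕ) (i j : Fin n) (t : Fin (S + 1)) (v : Fin W) :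
    (eP n S W (i, j, t, v) : ℕ) = v + W * (t + (S + 1) * (j + n * i)) := rfl

/-- the numbering of the vertices -/
private def eA (n S W N : ℕ) : Vx n S W ⊕ Fin N ≃ Fin (siz n S W + N) :=
  (Equiv.sumCongr ((Equiv.sumCongr (Equiv.refl (Fin n)) (eP n S W)).trans finSumFinEquiv)
    (Equiv.refl (Fin N))).trans finSumFinEquiv

private theorem eA_inl (n S W N : ℕ) (i : Fin n) : (eA n S W N (Sum.inl (Sum.inl i)) : ℕ) = i := rfl

private theorem eA_inr (n S W N : ℕ) (x : Fin n × Fin n × Fin (S + 1) × Fin W) :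
    (eA n S W N (Sum.inl (Sum.inr x)) : ℕ) = n + (eP n S W x : ℕ) := rfl

private theorem eA_jor (n S W N : ℕ) (l : Fin N) :
    (eA n S W N (Sum.inr l) : ℕ) = siz n S W + l := rfl

private theorem dec {W S n v t j i : ℕ} (hv : v < W) (ht : t < S + 1) (hj : j < n) :
    (v + W * (t + (S + 1) * (j + n * i))) % W = v ∧
    (v + W * (t + (S + 1) * (j + n * i))) / W % (S + 1) = t ∧
    (v + W * (t + (S + 1) * (j + n * i))) / W / (S + 1) = j + n * i ∧
    (j + n * i) % n = j ∧ (j + n * i) / n = i := by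
  have h1 : (v + W * (t + (S + 1) * (j + n * i))) / W = t + (S + 1) * (j + n * i) := by
    rw [Nat.add_mul_div_left _ _ (by omega), Nat.div_eq_of_lt hv, zero_add]
  refine ⟨?_, ?_, ?_, ?_, ?_⟩
  · rw [Nat.add_mul_mod_self_left, Nat.mod_eq_of_lt hv]
  · rw [h1, Nat.add_mul_mod_self_left, Nat.mod_eq_of_lt ht]
  · rw [h1, Nat.add_mul_div_left _ _ (Nat.succ_pos S), Nat.div_eq_of_lt ht, zero_add]
  · rw [Nat.add_mul_mod_self_left, Nat.mod_eq_of_lt hj]
  · rw [Nat.add_mul_div_left _ _ (by omega), Nat.div_eq_of_lt hj, zero_add]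

private theorem e_ii {n S W : ℕ} (w m : ℕ → ℕ → ℕ) (B : ℕ → ℕ → ℕ → ℕ → ℤ) (i i' : Fin n) :
    layE 1 n S W w m B i i' = gV n S W w m B (Sum.inl i) (Sum.inl i') := by
  have h1 : ¬ siz n S W ≤ (i : ℕ) := by
    have := i.2
    unfold siz
    omega
  have h2 : ¬ siz n S W ≤ (i' : ℕ) := by
    have := i'.2
    unfold siz
    omega
  rw [layE, if_neg h1, if_neg h2, if_pos i.2, if_pos i'.2]
  rfl

private theorem e_ir {n S W : ℕ} (w m : ℕ → ℕ → ℕ) (B : ℕ → ℕ → ℕ → ℕ → ℤ) (i i' j' : Fin n)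
    (t' : Fin (S + 1)) (v' : Fin W) :
    layE 1 n S W w m B i (n + (eP n S W (i', j', t', v') : ℕ)) =
      gV n S W w m B (Sum.inl i) (Sum.inr (i', j', t', v')) := by
  have h1 : ¬ siz n S W ≤ (i : ℕ) := by
    have := i.2
    unfold siz
    omega
  have h2 : ¬ siz n S W ≤ n + (eP n S W (i', j', t', v') : ℕ) := by
    have := (eP n S W (i', j', t', v')).2
    unfold siz
    omega
  have h3 : ¬ n + (eP n S W (i', j', t', v') : ℕ) < n := by omega
  rw [layE, if_neg h1, if_neg h2, if_pos i.2, if_neg h3, Nat.add_sub_cancel_left, eP_val]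
  obtain ⟨d1, d2, d3, d4, d5⟩ := dec (i := (i' : ℕ)) v'.2 t'.2 j'.2
  rw [d1, d2, d3, d5]
  show _ = if i' = i ∧ (t' : ℕ) = 0 ∧ (v' : ℕ) = 0 then (1 : ℤ) else 0
  by_cases ha : i' = i
  · subst ha
    by_cases hb : (t' : ℕ) = 0
    · by_cases hc : (v' : ℕ) = 0
      · rw [if_pos rfl, if_pos hb, if_pos hc, if_pos ⟨rfl, hb, hc⟩]
      · rw [if_pos rfl, if_pos hb, if_neg hc, if_neg fun h => hc h.2.2]
    · rw [if_pos rfl, if_neg hb, if_neg fun h => hb h.2.1]
  · rw [if_neg fun h => ha (Fin.ext h), if_neg fun h => ha h.1]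

private theorem e_ri {n S W : ℕ} (w m : ℕ → ℕ → ℕ) (B : ℕ → ℕ → ℕ → ℕ → ℤ) (i j j' : Fin n)
    (t : Fin (S + 1)) (v : Fin W) :
    layE 1 n S W w m B (n + (eP n S W (i, j, t, v) : ℕ)) j' =
      gV n S W w m B (Sum.inr (i, j, t, v)) (Sum.inl j') := by
  have h1 : ¬ siz n S W ≤ (j' : ℕ) := by
    have := j'.2
    unfold siz
    omega
  have h2 : ¬ siz n S W ≤ n + (eP n S W (i, j, t, v) : ℕ) := by
    have := (eP n S W (i, j, t, v)).2
    unfold siz
    omega
  have h3 : ¬ n + (eP n S W (i, j, t, v) : ℕ) < n := by omega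
  rw [layE, if_neg h2, if_neg h1, if_neg h3, if_pos j'.2, Nat.add_sub_cancel_left, eP_val]
  obtain ⟨d1, d2, d3, d4, d5⟩ := dec (i := (i : ℕ)) v.2 t.2 j.2
  rw [d1, d2, d3, d4]
  show _ = if (t : ℕ) = S ∧ (v : ℕ) = 1 ∧ j = j' then (1 : ℤ) else 0
  by_cases hb : (t : ℕ) = S
  · by_cases hc : (v : ℕ) = 1
    · by_cases ha : j = j'
      · subst ha
        rw [if_pos hb, if_pos hc, if_pos rfl, if_pos ⟨hb, hc, rfl⟩]
      · rw [if_pos hb, if_pos hc, if_neg fun h => ha (Fin.ext h), if_neg fun h => ha h.2.2]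
    · rw [if_pos hb, if_neg hc, if_neg fun h => hc h.2.1]
  · rw [if_neg hb, if_neg fun h => hb h.1]

private theorem e_rr {n S W : ℕ} (w m : ℕ → ℕ → ℕ) (B : ℕ → ℕ → ℕ → ℕ → ℤ) (i j i' j' : Fin n)
    (t t' : Fin (S + 1)) (v v' : Fin W) :
    layE 1 n S W w m B (n + (eP n S W (i, j, t, v) : ℕ)) (n + (eP n S W (i', j', t', v') : ℕ)) =
      gV n S W w m B (Sum.inr (i, j, t, v)) (Sum.inr (i', j', t', v')) := by
  have h1 : ¬ siz n S W ≤ n + (eP n S W (i, j, t, v) : ℕ) := by
    have := (eP n S W (i, j, t, v)).2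
    unfold siz
    omega
  have h2 : ¬ siz n S W ≤ n + (eP n S W (i', j', t', v') : ℕ) := by
    have := (eP n S W (i', j', t', v')).2
    unfold siz
    omega
  have h3 : ¬ n + (eP n S W (i, j, t, v) : ℕ) < n := by omega
  have h4 : ¬ n + (eP n S W (i', j', t', v') : ℕ) < n := by omega
  rw [layE, if_neg h1, if_neg h2, if_neg h3, if_neg h4, Nat.add_sub_cancel_left,
    Nat.add_sub_cancel_left, eP_val, eP_val]
  obtain ⟨d1, d2, d3, d4, d5⟩ := dec (i := (i : ℕ)) v.2 t.2 j.2
  obtain ⟨f1, f2, f3, f4, f5⟩ := dec (i := (i' : ℕ)) v'.2 t'.2 j'.2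
  rw [d1, d2, d3, d4, d5, f1, f2, f3]
  show _ = if i = i' ∧ j = j' ∧ (t' : ℕ) = t + 1 then
        (if (t : ℕ) < m i j then (if (v : ℕ) < w i j ∧ (v' : ℕ) < w i j then B i j v v' else 0)
        else if v = v' then 1 else 0)
      else 0
  by_cases ha : i = i' ∧ j = j'
  · obtain ⟨rfl, rfl⟩ := ha
    rw [if_pos rfl]
    by_cases hb : (t' : ℕ) = t + 1
    · have hcd : i = i ∧ j = j ∧ (t' : ℕ) = t + 1 := ⟨rfl, rfl, hb⟩
      rw [if_pos hb, if_pos hcd]
      by_cases hc : (t : ℕ) < m i j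
      · rw [if_pos hc, if_pos hc]
        by_cases hd : (v : ℕ) < w i j
        · by_cases he : (v' : ℕ) < w i j
          · have hde : (v : ℕ) < w i j ∧ (v' : ℕ) < w i j := ⟨hd, he⟩
            rw [if_pos hd, if_pos he, if_pos hde]
          · rw [if_pos hd, if_neg he, if_neg fun h => he h.2]
        · rw [if_neg hd, if_neg fun h => hd h.1]
      · rw [if_neg hc, if_neg hc]
        by_cases hd : v = v'
        · subst hd
          rw [if_pos rfl, if_pos rfl]
        · rw [if_neg fun h => hd (Fin.ext h), if_neg hd]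
    · rw [if_neg hb, if_neg fun h => hb h.2.2]
  · have hne : ¬ (j : ℕ) + n * i = j' + n * i' := by
      intro h
      apply ha
      have h5 : (j : ℕ) = j' := by rw [← d4, h, f4]
      have h6 : (i : ℕ) = i' := by rw [← d5, h, f5]
      exact ⟨Fin.ext h6, Fin.ext h5⟩
    rw [if_neg hne, if_neg fun h => ha ⟨h.1, h.2.1⟩]

private theorem e_all {n S W : ℕ} (w m : ℕ → ℕ → ℕ) (B : ℕ → ℕ → ℕ → ℕ → ℤ) (N : ℕ) (a b : Vx n S W) :
    layE 1 n S W w m B (eA n S W N (Sum.inl a)) (eA n S W N (Sum.inl b)) = gV n S W w m B a b := by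
  rcases a with i | ⟨i, j, t, v⟩ <;> rcases b with i' | ⟨i', j', t', v'⟩
  · rw [eA_inl, eA_inl, e_ii]
  · rw [eA_inl, eA_inr, e_ir]
  · rw [eA_inl, eA_inr, e_ri]
  · rw [eA_inr, eA_inr, e_rr]

private theorem eA_lt (n S W N : ℕ) (a : Vx n S W) : ¬ siz n S W ≤ (eA n S W N (Sum.inl a) : ℕ) := by
  rcases a with i | x
  · rw [eA_inl]
    have := i.2
    unfold siz
    omega
  · rw [eA_inr]
    have := (eP n S W x).2
    unfold siz
    omega

theorem layE_minpoly {n S W : ℕ} (hW : 0 < W) (N : ℕ) (w m : ℕ → ℕ → ℕ) (B : ℕ → ℕ → ℕ → ℕ → ℤ) :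
    minpoly ℤ (mat (siz n S W + N) (layE 1 n S W w m B)) =
      minpoly ℤ (Matrix.fromBlocks (gV n S W w m B) 0 0 (jor N)) := by
  refine mz_reindex (eA n S W N) _ _ ?_
  rintro (a | l) (b | l')
  · show layE 1 n S W w m B (eA n S W N (Sum.inl a)) (eA n S W N (Sum.inl b)) = gV n S W w m B a b
    exact e_all w m B N a b
  · show layE 1 n S W w m B (eA n S W N (Sum.inl a)) (eA n S W N (Sum.inr l')) = 0
    rw [layE, if_neg (eA_lt n S W N a), if_pos]
    rw [eA_jor]
    omega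
  · show layE 1 n S W w m B (eA n S W N (Sum.inr l)) (eA n S W N (Sum.inl b)) = 0
    rw [layE, if_pos, if_neg (eA_lt n S W N b)]
    rw [eA_jor]
    omega
  · show layE 1 n S W w m B (eA n S W N (Sum.inr l)) (eA n S W N (Sum.inr l')) = jor N l l'
    rw [layE, if_pos (by rw [eA_jor]; omega), if_pos (by rw [eA_jor]; omega), eA_jor, eA_jor]
    show _ = if (l' : ℕ) = l + 1 then (1 : ℤ) else 0
    by_cases h : (l' : ℕ) = l + 1
    · rw [if_pos h, if_pos (by omega)]
    · rw [if_neg h, if_neg (by omega)]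

end Pool.Agent.MPU
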