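import Pool.Agent.MPU.GraE
import Pool.Agent.MPU.Fam

set_option autoImplicit false

/-!
MPU-GraN: the weights of the layered graph are small numbers.

PLAN. Unfold `layE`, `siz` and apply `nite`, `neq`, `nlt`, `nadd`, `nsub`, `nmul`, `ndiv`, `nmod`, `𝓒.const_mem`; write
`x = pop (pop y)`, `c = top (pop y)`, `c' = top y`, `I = (c - n x) / W x / (S x + 1) / n x` etc. (first the memberships of
`I`, `J = .. % n x`, `v`, `t` and of the corresponding functions of `c'`). The atoms: `nsubst hn lp2`,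
`nsubst hS lp2`, `nsubst hW lp2`; for `w` the function `fun y => w (pop (pop y)) (I y) (J y)` is a substitution in
`hw` (`nsubst hw (lpush (lpush lp2 hI) hJ)`, `simpa only [pop_push, top_push]`), the same for `m`, and for `a` with
four numbers. (The order of the case distinctions in `layE` with `≤`, `<`, `=` is the one of the lemmas; a condition
`siz .. ≤ c` is `nite`.)
-/

namespace Pool.Agent.MPU

variable {𝓒 : GapClass}

theorem layE_mem (e : ℕ) {n S W : List Bool → ℕ} (hn : n ∈ 𝓒.N) (hS : S ∈ 𝓒.N) (hW : W ∈ 𝓒.N)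
    {w m : List Bool → ℕ → ℕ → ℕ} {a : List Bool → ℕ → ℕ → ℕ → ℕ → ℕ}
    (hw : (fun y => w (pop (pop y)) (top (pop y)) (top y)) ∈ 𝓒.N)
    (hm : (fun y => m (pop (pop y)) (top (pop y)) (top y)) ∈ 𝓒.N)
    (ha : (fun y => a (pop (pop (pop (pop y)))) (top (pop (pop (pop y)))) (top (pop (pop y)))
      (top (pop y)) (top y)) ∈ 𝓒.N) :
    (fun y => layE e (n (pop (pop y))) (S (pop (pop y))) (W (pop (pop y))) (w (pop (pop y)))
      (m (pop (pop y))) (a (pop (pop y))) (top (pop y)) (top y)) ∈ 𝓒.N := by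
  have hn' : (fun y => n (pop (pop y))) ∈ 𝓒.N := nsubst hn lp2
  have hS' : (fun y => S (pop (pop y))) ∈ 𝓒.N := nsubst hS lp2
  have hW' : (fun y => W (pop (pop y))) ∈ 𝓒.N := nsubst hW lp2
  have hc : (fun y => top (pop y)) ∈ 𝓒.N := nt2
  have hc' : (fun y => top y) ∈ 𝓒.N := nt1
  have h0 : (fun _ : List Bool => 0) ∈ 𝓒.N := 𝓒.const_mem 0
  have h1 : (fun _ : List Bool => 1) ∈ 𝓒.N := 𝓒.const_mem 1
  have he : (fun _ : List Bool => e) ∈ 𝓒.N := 𝓒.const_mem e
  have hS1 : (fun y => S (pop (pop y)) + 1) ∈ 𝓒.N := nadd hS' h1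
  have hs : (fun y => siz (n (pop (pop y))) (S (pop (pop y))) (W (pop (pop y)))) ∈ 𝓒.N :=
    nadd hn' (nmul (nmul (nmul hn' hn') hS1) hW')
  have hd : (fun y => top (pop y) - n (pop (pop y))) ∈ 𝓒.N := nsub hc hn'
  have hd' : (fun y => top y - n (pop (pop y))) ∈ 𝓒.N := nsub hc' hn'
  have hv : (fun y => (top (pop y) - n (pop (pop y))) % W (pop (pop y))) ∈ 𝓒.N := nmod hd hW'
  have hv' : (fun y => (top y - n (pop (pop y))) % W (pop (pop y))) ∈ 𝓒.N := nmod hd' hW'
  have hq : (fun y => (top (pop y) - n (pop (pop y))) / W (pop (pop y))) ∈ 𝓒.N := ndiv hd hW'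
  have hq' : (fun y => (top y - n (pop (pop y))) / W (pop (pop y))) ∈ 𝓒.N := ndiv hd' hW'
  have ht : (fun y => (top (pop y) - n (pop (pop y))) / W (pop (pop y)) %
      (S (pop (pop y)) + 1)) ∈ 𝓒.N := nmod hq hS1
  have ht' : (fun y => (top y - n (pop (pop y))) / W (pop (pop y)) %
      (S (pop (pop y)) + 1)) ∈ 𝓒.N := nmod hq' hS1
  have hp : (fun y => (top (pop y) - n (pop (pop y))) / W (pop (pop y)) /
      (S (pop (pop y)) + 1)) ∈ 𝓒.N := ndiv hq hS1
  have hp' : (fun y => (top y - n (pop (pop y))) / W (pop (pop y)) /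
      (S (pop (pop y)) + 1)) ∈ 𝓒.N := ndiv hq' hS1
  have hI : (fun y => (top (pop y) - n (pop (pop y))) / W (pop (pop y)) /
      (S (pop (pop y)) + 1) / n (pop (pop y))) ∈ 𝓒.N := ndiv hp hn'
  have hJ : (fun y => (top (pop y) - n (pop (pop y))) / W (pop (pop y)) /
      (S (pop (pop y)) + 1) % n (pop (pop y))) ∈ 𝓒.N := nmod hp hn'
  have hI' : (fun y => (top y - n (pop (pop y))) / W (pop (pop y)) /
      (S (pop (pop y)) + 1) / n (pop (pop y))) ∈ 𝓒.N := ndiv hp' hn'
  have hwa := nsubst hw (lpush (lpush lp2 hI) hJ)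
  have hma := nsubst hm (lpush (lpush lp2 hI) hJ)
  have haa := nsubst ha (lpush (lpush (lpush (lpush lp2 hI) hJ) hv) hv')
  simp only [pop_push, top_push] at hwa hma haa
  unfold layE
  exact nite hs hc (nite hs hc' (neq hc' (nadd hc h1) he h0) h0)
    (nite hs hc' h0
      (nlt hc hn'
        (nlt hc' hn' h0 (neq hI' hc (neq ht' h0 (neq hv' h0 he h0) h0) h0))
        (nlt hc' hn' (neq ht hS' (neq hv h1 (neq hJ hc' he h0) h0) h0)
          (neq hp hp'
            (neq ht' (nadd ht h1)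
              (nlt ht hma (nlt hv hwa (nlt hv' hwa haa h0) h0) (neq hv hv' he h0)) h0) h0))))

end Pool.Agent.MPU
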