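import Pool.Agent.MPU.Lay
import Pool.Agent.MPU.Bas

set_option autoImplicit false

/-!
MPU-GraV: the layered graph of a matrix of path counts.

`gV n S W w m B` has the vertices `inl i` (layer 0) and `inr (i, j, t, v)` (layer `t + 1`), `t ≤ S`, `v < W`. From `inl i`
there are edges to `inr (i, j, 0, 0)` for all `j`; from `inr (i, j, t, v)` there are edges to `inr (i, j, t + 1, v')` of
weight `B i j v v'` (if `t < m i j`, `v v' < w i j`) and `1` if `v = v'` (if `m i j ≤ t`); and from `inr (i, j, S, 1)`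
there is an edge to `inl j`. So the walks of length `S + 2` from `inl i` to `inl j` have total weight
`powE (w i j) (B i j) (m i j) 0 1`.
-/

namespace Pool.Agent.MPU

abbrev Vx (n S W : ℕ) : Type := Fin n ⊕ (Fin n × Fin n × Fin (S + 1) × Fin W)

/-- the weights of the layered graph -/
def gV (n S W : ℕ) (w m : ℕ → ℕ → ℕ) (B : ℕ → ℕ → ℕ → ℕ → ℤ) : Matrix (Vx n S W) (Vx n S W) ℤ :=
  Matrix.of fun u v => match u, v with
    | Sum.inl _, Sum.inl _ => 0
    | Sum.inl i, Sum.inr (i', _, t', v') => if i' = i ∧ (t' : ℕ) = 0 ∧ (v' : ℕ) = 0 then 1 else 0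
    | Sum.inr (_, j, t, v), Sum.inl j' => if (t : ℕ) = S ∧ (v : ℕ) = 1 ∧ j = j' then 1 else 0
    | Sum.inr (i, j, t, v), Sum.inr (i', j', t', v') =>
      if i = i' ∧ j = j' ∧ (t' : ℕ) = t + 1 then
        (if (t : ℕ) < m i j then (if (v : ℕ) < w i j ∧ (v' : ℕ) < w i j then B i j v v' else 0)
        else if v = v' then 1 else 0)
      else 0

section

variable {n S W : ℕ} {w m : ℕ → ℕ → ℕ} (B : ℕ → ℕ → ℕ → ℕ → ℤ)

private theorem g_ll (i k : Fin n) : gV n S W w m B (Sum.inl i) (Sum.inl k) = 0 := rfl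

private theorem g_lr (i i' j' : Fin n) (t' : Fin (S + 1)) (v' : Fin W) :
    gV n S W w m B (Sum.inl i) (Sum.inr (i', j', t', v')) =
      if i' = i ∧ (t' : ℕ) = 0 ∧ (v' : ℕ) = 0 then 1 else 0 := rfl

private theorem g_rl (i j : Fin n) (t : Fin (S + 1)) (v : Fin W) (j' : Fin n) :
    gV n S W w m B (Sum.inr (i, j, t, v)) (Sum.inl j') =
      if (t : ℕ) = S ∧ (v : ℕ) = 1 ∧ j = j' then 1 else 0 := rfl

private theorem g_rr (i j : Fin n) (t : Fin (S + 1)) (v : Fin W) (i' j' : Fin n) (t' : Fin (S + 1))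
    (v' : Fin W) :
    gV n S W w m B (Sum.inr (i, j, t, v)) (Sum.inr (i', j', t', v')) =
      if i = i' ∧ j = j' ∧ (t' : ℕ) = t + 1 then
        (if (t : ℕ) < m i j then (if (v : ℕ) < w i j ∧ (v' : ℕ) < w i j then B i j v v' else 0)
        else if v = v' then 1 else 0)
      else 0 := rfl

end

theorem gV_grade (n S W : ℕ) (w m : ℕ → ℕ → ℕ) (B : ℕ → ℕ → ℕ → ℕ → ℤ) :
    ∃ γ : Vx n S W → ZMod (S + 2), (∀ v, γ v = 0 ↔ v ∈ Set.range (Sum.inl : Fin n → Vx n S W)) ∧
      ∀ u v, gV n S W w m B u v ≠ 0 → γ v = γ u + 1 := by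
  refine ⟨Sum.elim (fun _ => 0) (fun x => (((x.2.2.1 : ℕ) + 1 : ℕ) : ZMod (S + 2))), ?_, ?_⟩
  · rintro (i | ⟨i, j, t, v⟩)
    · simp
    · simp only [Sum.elim_inr, Set.mem_range, reduceCtorEq, exists_false, iff_false]
      intro h
      rw [ZMod.natCast_eq_zero_iff] at h
      have h1 := Nat.le_of_dvd (Nat.succ_pos _) h
      have h2 := t.2
      omega
  · rintro (i | ⟨i, j, t, v⟩) (i' | ⟨i', j', t', v'⟩) h
    · exact absurd (g_ll B i i') h
    · rw [g_lr] at h
      have h1 : i' = i ∧ (t' : ℕ) = 0 ∧ (v' : ℕ) = 0 := by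
        by_contra h2
        exact h (if_neg h2)
      simp [h1.2.1]
    · rw [g_rl] at h
      have h1 : (t : ℕ) = S ∧ (v : ℕ) = 1 ∧ j = i' := by
        by_contra h2
        exact h (if_neg h2)
      simp only [Sum.elim_inl, Sum.elim_inr]
      rw [h1.1]
      have h2 : ((S + 2 : ℕ) : ZMod (S + 2)) = 0 := ZMod.natCast_self _
      have h3 : ((S + 1 : ℕ) : ZMod (S + 2)) + 1 = ((S + 2 : ℕ) : ZMod (S + 2)) := by
        push_cast; ring
      rw [h3, h2]
    · rw [g_rr] at h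
      have h1 : i = i' ∧ j = j' ∧ (t' : ℕ) = t + 1 := by
        by_contra h2
        exact h (if_neg h2)
      simp only [Sum.elim_inr]
      rw [h1.2.2]
      push_cast; ring

private theorem sum4 {n S W : ℕ} (F : Fin n × Fin n × Fin (S + 1) × Fin W → ℤ) (i j : Fin n)
    (t : Fin (S + 1)) (h : ∀ i' j' t' v, ¬ (i' = i ∧ j' = j ∧ t' = t) → F (i', j', t', v) = 0) :
    ∑ x, F x = ∑ v, F (i, j, t, v) := by
  rw [Fintype.sum_prod_type, Finset.sum_eq_single i, Fintype.sum_prod_type, Finset.sum_eq_single j,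
    Fintype.sum_prod_type, Finset.sum_eq_single t]
  · intro t' _ ht
    exact Finset.sum_eq_zero (fun v _ => h i j t' v (fun h' => ht h'.2.2))
  · intro h'; exact absurd (Finset.mem_univ _) h'
  · intro j' _ hj
    exact Finset.sum_eq_zero (fun x _ => h i j' x.1 x.2 (fun h' => hj h'.2.1))
  · intro h'; exact absurd (Finset.mem_univ _) h'
  · intro i' _ hi
    exact Finset.sum_eq_zero (fun x _ => h i' x.1 x.2.1 x.2.2 (fun h' => hi h'.1))
  · intro h'; exact absurd (Finset.mem_univ _) h'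

private theorem powE_step {w W : ℕ} (hW : w ≤ W) (B : ℕ → ℕ → ℤ) (t v' : ℕ) :
    ∑ v : Fin W, powE w B t 0 v * (if (v : ℕ) < w ∧ v' < w then B v v' else 0) =
      powE w B (t + 1) 0 v' := by
  rw [Fin.sum_univ_eq_sum_range
    (fun v => powE w B t 0 v * (if v < w ∧ v' < w then B v v' else 0)) W]
  by_cases hv : v' < w
  · have h0 : 0 < w := by omega
    rw [← Finset.sum_subset (Finset.range_mono hW) (by
      intro x _ hx
      have : ¬ x < w := by simpa using hx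
      simp [this])]
    rw [powE, dif_pos ⟨h0, hv⟩, pow_succ, Matrix.mul_apply, ← Fin.sum_univ_eq_sum_range
      (fun v => powE w B t 0 v * (if v < w ∧ v' < w then B v v' else 0)) w]
    apply Finset.sum_congr rfl
    intro x _
    rw [if_pos ⟨x.2, hv⟩, powE, dif_pos ⟨h0, x.2⟩]
    rfl
  · rw [powE, dif_neg (fun h => hv h.2)]
    apply Finset.sum_eq_zero
    intro x _
    simp [hv]

private theorem powE_zero' {w : ℕ} (hw : 2 ≤ w) (B : ℕ → ℕ → ℤ) (v : ℕ) :
    powE w B 0 0 v = if v = 0 then 1 else 0 := by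
  by_cases hv : v < w
  · rw [powE, dif_pos ⟨by omega, hv⟩, pow_zero, Matrix.one_apply]
    simp only [Fin.mk.injEq]
    by_cases h : v = 0
    · simp [h]
    · rw [if_neg (fun h' => h h'.symm), if_neg h]
  · rw [powE, dif_neg (fun h => hv h.2), if_neg (by omega)]

private theorem gV_row {n S W : ℕ} {w m : ℕ → ℕ → ℕ} (B : ℕ → ℕ → ℕ → ℕ → ℤ)
    (hw : ∀ i < n, ∀ j < n, 2 ≤ w i j ∧ w i j ≤ W) (i : Fin n) (t : ℕ) (ht : t ≤ S) :
    (∀ k : Fin n, (gV n S W w m B ^ (t + 1)) (Sum.inl i) (Sum.inl k) = 0) ∧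
    ∀ (i' j' : Fin n) (t' : Fin (S + 1)) (v : Fin W),
      (gV n S W w m B ^ (t + 1)) (Sum.inl i) (Sum.inr (i', j', t', v)) =
        if i' = i ∧ (t' : ℕ) = t then powE (w i j') (B i j') (min t (m i j')) 0 v else 0 := by
  induction t with
  | zero =>
    refine ⟨fun k => ?_, fun i' j' t' v => ?_⟩
    · rw [zero_add, pow_one]; exact g_ll B i k
    · rw [zero_add, pow_one, g_lr, Nat.zero_min, powE_zero' (hw i i.2 j' j'.2).1]
      by_cases h1 : i' = i ∧ (t' : ℕ) = 0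
      · rw [if_pos h1]
        by_cases h2 : (v : ℕ) = 0
        · rw [if_pos ⟨h1.1, h1.2, h2⟩, if_pos h2]
        · rw [if_neg (fun h => h2 h.2.2), if_neg h2]
      · rw [if_neg h1, if_neg (fun h => h1 ⟨h.1, h.2.1⟩)]
  | succ t ih =>
    obtain ⟨h1, h2⟩ := ih (by omega)
    refine ⟨fun k => ?_, fun i' j' t' v => ?_⟩
    · rw [pow_succ, Matrix.mul_apply, Fintype.sum_sum_type]
      have e1 : ∑ a : Fin n, (gV n S W w m B ^ (t + 1)) (Sum.inl i) (Sum.inl a) *
          gV n S W w m B (Sum.inl a) (Sum.inl k) = 0 := by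
        apply Finset.sum_eq_zero
        intro a _
        rw [h1, zero_mul]
      rw [e1, zero_add]
      apply Finset.sum_eq_zero
      rintro ⟨a, b, c, d⟩ _
      rw [h2, g_rl]
      by_cases h3 : a = i ∧ (c : ℕ) = t
      · rw [if_neg (fun h : (c : ℕ) = S ∧ (d : ℕ) = 1 ∧ b = k => by omega), mul_zero]
      · rw [if_neg h3, zero_mul]
    · rw [pow_succ, Matrix.mul_apply, Fintype.sum_sum_type]
      have e1 : ∑ a : Fin n, (gV n S W w m B ^ (t + 1)) (Sum.inl i) (Sum.inl a) *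
          gV n S W w m B (Sum.inl a) (Sum.inr (i', j', t', v)) = 0 := by
        apply Finset.sum_eq_zero
        intro a _
        rw [h1, zero_mul]
      rw [e1, zero_add]
      rw [sum4 (fun x => (gV n S W w m B ^ (t + 1)) (Sum.inl i) (Sum.inr x) *
        gV n S W w m B (Sum.inr x) (Sum.inr (i', j', t', v))) i j' ⟨t, by omega⟩ (by
          rintro a b c d h
          show (gV n S W w m B ^ (t + 1)) (Sum.inl i) (Sum.inr (a, b, c, d)) *
            gV n S W w m B (Sum.inr (a, b, c, d)) (Sum.inr (i', j', t', v)) = 0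
          rw [h2, g_rr]
          by_cases h3 : a = i ∧ (c : ℕ) = t
          · by_cases h4 : a = i' ∧ b = j' ∧ (t' : ℕ) = c + 1
            · exact absurd ⟨h3.1, h4.2.1, Fin.ext h3.2⟩ h
            · rw [if_neg h4, mul_zero]
          · rw [if_neg h3, zero_mul])]
      have e2 : ∀ x : Fin W, (gV n S W w m B ^ (t + 1)) (Sum.inl i)
          (Sum.inr (i, j', (⟨t, by omega⟩ : Fin (S + 1)), x)) =
            powE (w i j') (B i j') (min t (m i j')) 0 x := by
        intro x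
        rw [h2, if_pos ⟨rfl, rfl⟩]
      simp only [e2, g_rr]
      by_cases h3 : i' = i ∧ (t' : ℕ) = t + 1
      · rw [if_pos h3]
        obtain ⟨rfl, h3⟩ := h3
        simp only [h3, and_self, if_true]
        by_cases h4 : t < m i' j'
        · simp only [if_pos h4]
          rw [min_eq_left h4.le, min_eq_left (Nat.succ_le_of_lt h4)]
          exact powE_step (hw i' i'.2 j' j'.2).2 (B i' j') t v
        · simp only [if_neg h4]
          rw [min_eq_right (not_lt.1 h4), min_eq_right (by omega)]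
          simp
      · rw [if_neg h3]
        apply Finset.sum_eq_zero
        intro x _
        rw [if_neg (fun h => h3 ⟨h.1.symm, h.2.2⟩), mul_zero]

theorem gV_pow {n S W : ℕ} {w m : ℕ → ℕ → ℕ} (B : ℕ → ℕ → ℕ → ℕ → ℤ)
    (hw : ∀ i < n, ∀ j < n, 2 ≤ w i j ∧ w i j ≤ W) (hm : ∀ i < n, ∀ j < n, m i j ≤ S)
    (i j : Fin n) : (gV n S W w m B ^ (S + 2)) (Sum.inl i) (Sum.inl j) =
      powE (w i j) (B i j) (m i j) 0 1 := by
  obtain ⟨h1, h2⟩ := gV_row (m := m) B hw i S le_rfl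
  have hW : 1 < W := by
    have h := hw i i.2 j j.2
    omega
  rw [show S + 2 = (S + 1) + 1 from rfl, pow_succ, Matrix.mul_apply, Fintype.sum_sum_type]
  have e1 : ∑ a : Fin n, (gV n S W w m B ^ (S + 1)) (Sum.inl i) (Sum.inl a) *
      gV n S W w m B (Sum.inl a) (Sum.inl j) = 0 := by
    apply Finset.sum_eq_zero
    intro a _
    rw [h1, zero_mul]
  rw [e1, zero_add]
  rw [sum4 (fun x => (gV n S W w m B ^ (S + 1)) (Sum.inl i) (Sum.inr x) *
    gV n S W w m B (Sum.inr x) (Sum.inl j)) i j ⟨S, by omega⟩ (by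
      rintro a b c d h
      show (gV n S W w m B ^ (S + 1)) (Sum.inl i) (Sum.inr (a, b, c, d)) *
        gV n S W w m B (Sum.inr (a, b, c, d)) (Sum.inl j) = 0
      rw [h2, g_rl]
      by_cases h3 : a = i ∧ (c : ℕ) = S
      · by_cases h4 : (c : ℕ) = S ∧ (d : ℕ) = 1 ∧ b = j
        · exact absurd ⟨h3.1, h4.2.2, Fin.ext h3.2⟩ h
        · rw [if_neg h4, mul_zero]
      · rw [if_neg h3, zero_mul])]
  rw [Finset.sum_eq_single (⟨1, hW⟩ : Fin W)]
  · show (gV n S W w m B ^ (S + 1)) (Sum.inl i) (Sum.inr (i, j, ⟨S, by omega⟩, ⟨1, hW⟩)) *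
      gV n S W w m B (Sum.inr (i, j, ⟨S, by omega⟩, ⟨1, hW⟩)) (Sum.inl j) = _
    rw [h2, g_rl, if_pos ⟨rfl, rfl⟩, if_pos ⟨rfl, rfl, rfl⟩, mul_one, min_eq_right (hm i i.2 j j.2)]
  · intro x _ hx
    show (gV n S W w m B ^ (S + 1)) (Sum.inl i) (Sum.inr (i, j, ⟨S, by omega⟩, x)) *
      gV n S W w m B (Sum.inr (i, j, ⟨S, by omega⟩, x)) (Sum.inl j) = 0
    rw [g_rl, if_neg, mul_zero]
    rintro ⟨-, h, -⟩
    exact hx (Fin.ext h)
  · intro h; exact absurd (Finset.mem_univ _) h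

theorem gV_lay {n S W : ℕ} {w m : ℕ → ℕ → ℕ} (B : ℕ → ℕ → ℕ → ℕ → ℤ)
    (hw : ∀ i < n, ∀ j < n, 2 ≤ w i j ∧ w i j ≤ W) (hm : ∀ i < n, ∀ j < n, m i j ≤ S) :
    Lay (S + 2) (gV n S W w m B) (Sum.inl : Fin n → Vx n S W)
      (mat n fun i j => powE (w i j) (B i j) (m i j) 0 1) where
  pos := Nat.succ_pos _
  inj := Sum.inl_injective
  grade := gV_grade n S W w m B
  pow i j := gV_pow B hw hm i j

end Pool.Agent.MPU
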