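import Pool.Agent.MPU.Mz
import Pool.Agent.MPU.Bas
import Pool.Agent.MPN.Gram

set_option autoImplicit false

/-!
MPU-Gz: the coefficients of the minimal polynomial by Gram determinants.

Proved in `Pool/Agent/MPN/Gram.lean` (for rational matrices): `Pool.Agent.MPN.det_gm_ne_zero` (the Gram determinant
`(gm A k).det` is not zero iff `k ≤ natDegree (minpoly ℚ A)`), `Pool.Agent.MPN.cramer'`
(`(gm A k).det * (minpoly ℚ A).coeff i = -((gm A k).adjugate *ᵥ gb A k) i` for `k = natDegree (minpoly ℚ A)`), and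
`det_gm_map`, `adj_gm_map` (compatibility with ring homomorphisms).

PLAN. Let `A = mat n F`.
(1) for `i j : Fin k`: `gm A k i j = gE n F i j`, i.e. `mat k (gE n F) = gm A k`, and `gb A k i = gE n F i k`
(`Finset.sum_range`, `powE` with both indices in range is the entry of `A ^ i`).
(2) with `φ = Int.castRingHom ℚ` and `mz_map`, `(mz_monic A).natDegree_map`: `gD n F d ≠ 0 ↔ d ≤ d0`,
`d0 = natDegree (minpoly ℤ A) ≤ n` (`mz_natDegree_le`); `gD n F d0 * (minpoly ℤ A).coeff i =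
-(∑ j ∈ range d0, adjE d0 (gE n F) i j * gE n F j d0)` for `i < d0`.
(3) `ez n F d = if d = d0 then 1 else 0` for all `d`; so both sums over `range (n + 1)` have the single term `d0`.
(4) `k < d0`: (2); `k = d0`: the leading coefficient is 1; `k > d0`: both sides 0.
-/

namespace Pool.Agent.MPU

open Polynomial

/-- scalar products of the powers of the matrix -/
def gE (n : ℕ) (F : ℕ → ℕ → ℤ) (i j : ℕ) : ℤ :=
  ∑ a ∈ Finset.range n, ∑ b ∈ Finset.range n, powE n F i a b * powE n F j a b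

/-- Gram determinants -/
noncomputable def gD (n : ℕ) (F : ℕ → ℕ → ℤ) (d : ℕ) : ℤ := (mat d (gE n F)).det

/-- the indicator of `d = natDegree (minpoly)` -/
noncomputable def ez (n : ℕ) (F : ℕ → ℕ → ℤ) (d : ℕ) : ℤ :=
  (if gD n F (d + 1) = 0 then 1 else 0) * (1 - (if gD n F d = 0 then 1 else 0))

/-- the numerator of the `k`-th coefficient, if `d` is the degree -/
noncomputable def gC (n : ℕ) (F : ℕ → ℕ → ℤ) (d k : ℕ) : ℤ :=
  if k < d then -(∑ j ∈ Finset.range d, adjE d (gE n F) k j * gE n F j d)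
  else if k = d then gD n F d else 0

private theorem gz_pow (n : ℕ) (F : ℕ → ℕ → ℤ) (k : ℕ) (a b : Fin n) :
    powE n F k a b = (mat n F ^ k) a b := by
  rw [powE, dif_pos ⟨a.2, b.2⟩]

private theorem gz_gE (n : ℕ) (F : ℕ → ℕ → ℤ) (i j : ℕ) :
    gE n F i j = ∑ a, ∑ b, (mat n F ^ i) a b * (mat n F ^ j) a b := by
  rw [gE, Finset.sum_range]
  refine Finset.sum_congr rfl fun a _ => ?_
  rw [Finset.sum_range]
  refine Finset.sum_congr rfl fun b _ => ?_
  rw [gz_pow, gz_pow]

private theorem gz_mat (n : ℕ) (F : ℕ → ℕ → ℤ) (k : ℕ) :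
    mat k (gE n F) = Pool.Agent.MPN.gm (mat n F) k := by
  ext i j
  exact gz_gE n F i j

private theorem gz_ne (n : ℕ) (F : ℕ → ℕ → ℤ) (d : ℕ) :
    gD n F d ≠ 0 ↔ d ≤ (minpoly ℤ (mat n F)).natDegree := by
  have h1 := Pool.Agent.MPN.det_gm_map (Int.castRingHom ℚ) (mat n F) d
  have h2 := Pool.Agent.MPN.det_gm_ne_zero ((mat n F).map (Int.castRingHom ℚ)) d
  have h3 : (minpoly ℚ ((mat n F).map (Int.castRingHom ℚ))).natDegree =
      (minpoly ℤ (mat n F)).natDegree := by
    have h4 := mz_map (mat n F)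
    have h5 : (minpoly ℚ ((mat n F).map (Int.castRingHom ℚ))) =
        (minpoly ℤ (mat n F)).map (Int.castRingHom ℚ) := h4.symm
    rw [h5, (mz_monic (mat n F)).natDegree_map]
  rw [h3, ← h1] at h2
  rw [← h2, gD, gz_mat]
  constructor
  · intro h h6
    exact h (Int.cast_eq_zero.1 h6)
  · intro h h6
    apply h
    rw [h6, map_zero]

private theorem gz_eq (n : ℕ) (F : ℕ → ℕ → ℤ) (d : ℕ) :
    gD n F d = 0 ↔ (minpoly ℤ (mat n F)).natDegree < d := by
  have h := gz_ne n F d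
  rw [← not_iff_not, not_lt]
  exact h

private theorem gz_ez (n : ℕ) (F : ℕ → ℕ → ℤ) (d : ℕ) :
    ez n F d = if d = (minpoly ℤ (mat n F)).natDegree then 1 else 0 := by
  unfold ez
  have h1 := gz_eq n F (d + 1)
  have h2 := gz_eq n F d
  by_cases h3 : d = (minpoly ℤ (mat n F)).natDegree
  · rw [if_pos (h1.2 (by omega)), if_neg (fun h => by have := h2.1 h; omega), if_pos h3]
    norm_num
  · rw [if_neg h3]
    by_cases h4 : d < (minpoly ℤ (mat n F)).natDegree
    · rw [if_neg (fun h => by have := h1.1 h; omega)]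
      norm_num
    · rw [if_pos (h2.2 (by omega))]
      norm_num

private theorem gz_le (n : ℕ) (F : ℕ → ℕ → ℤ) : (minpoly ℤ (mat n F)).natDegree ≤ n := by
  have h := mz_natDegree_le (mat n F)
  rwa [Fintype.card_fin] at h

private theorem gz_sum (n : ℕ) (F : ℕ → ℕ → ℤ) (G : ℕ → ℤ) :
    ∑ d ∈ Finset.range (n + 1), ez n F d * G d = G (minpoly ℤ (mat n F)).natDegree := by
  rw [Finset.sum_eq_single (minpoly ℤ (mat n F)).natDegree]
  · rw [gz_ez, if_pos rfl, one_mul]
  · intro d _ hd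
    rw [gz_ez, if_neg hd, zero_mul]
  · intro h
    exact absurd (Finset.mem_range.2 (by have := gz_le n F; omega)) h

private theorem gz_cramer (n : ℕ) (F : ℕ → ℕ → ℤ) (d k : ℕ)
    (hd : (minpoly ℤ (mat n F)).natDegree = d) (hk : k < d) :
    gD n F d * (minpoly ℤ (mat n F)).coeff k =
      -(∑ j ∈ Finset.range d, adjE d (gE n F) k j * gE n F j d) := by
  have h4 := mz_map (mat n F)
  have h5 : (minpoly ℚ ((mat n F).map (Int.castRingHom ℚ))) =
      (minpoly ℤ (mat n F)).map (Int.castRingHom ℚ) := h4.symm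
  have h6 : (minpoly ℚ ((mat n F).map (Int.castRingHom ℚ))).natDegree = d := by
    rw [h5, (mz_monic (mat n F)).natDegree_map, hd]
  have h7 := Pool.Agent.MPN.cramer' ((mat n F).map (Int.castRingHom ℚ)) h6 ⟨k, hk⟩
  rw [h5, ← Pool.Agent.MPN.det_gm_map, ← Pool.Agent.MPN.adj_gm_map, Polynomial.coeff_map,
    ← map_mul, ← map_neg] at h7
  have h8 : (Pool.Agent.MPN.gm (mat n F) d).det * (minpoly ℤ (mat n F)).coeff k =
      -((Pool.Agent.MPN.gm (mat n F) d).adjugate.mulVec (Pool.Agent.MPN.gb (mat n F) d) ⟨k, hk⟩) :=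
    (Int.castRingHom ℚ).injective_int h7
  rw [gD, gz_mat, h8]
  congr 1
  rw [Matrix.mulVec, dotProduct, Finset.sum_range]
  refine Finset.sum_congr rfl fun j _ => ?_
  have h9 : adjE d (gE n F) k j = (mat d (gE n F)).adjugate ⟨k, hk⟩ j := by
    rw [adjE, dif_pos ⟨hk, j.2⟩]
  rw [h9, gz_mat, gz_gE]
  rfl

theorem gram_ne (n : ℕ) (F : ℕ → ℕ → ℤ) :
    ∑ d ∈ Finset.range (n + 1), ez n F d * gD n F d ≠ 0 := by
  rw [gz_sum]
  exact (gz_ne n F _).2 le_rfl

theorem gram_coeff (n : ℕ) (F : ℕ → ℕ → ℤ) (k : ℕ) :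
    (∑ d ∈ Finset.range (n + 1), ez n F d * gD n F d) * (minpoly ℤ (mat n F)).coeff k =
      ∑ d ∈ Finset.range (n + 1), ez n F d * gC n F d k := by
  rw [gz_sum, gz_sum n F (fun d => gC n F d k)]
  unfold gC
  rcases lt_trichotomy k (minpoly ℤ (mat n F)).natDegree with h | h | h
  · rw [if_pos h]
    exact gz_cramer n F _ k rfl h
  · rw [if_neg (by omega), if_pos h]
    have h1 : (minpoly ℤ (mat n F)).coeff k = 1 := by
      rw [h]
      exact (mz_monic (mat n F)).coeff_natDegree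
    rw [h1, mul_one]
  · rw [if_neg (by omega), if_neg (by omega), Polynomial.coeff_eq_zero_of_natDegree_lt h, mul_zero]

end Pool.Agent.MPU
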