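import Mathlib

set_option autoImplicit false

/-!
MPU-Lay: definition of a layered matrix. All edges of the graph of `B` go from a layer to the next one (cyclically,
`M` layers), the layer `0` is the image of `inl`, and the walks of length `M` inside layer `0` give the matrix `A`.
-/

namespace Pool.Agent.MPU

structure Lay {V : Type} [Fintype V] [DecidableEq V] {n : ℕ} (M : ℕ) (B : Matrix V V ℤ)
    (inl : Fin n → V) (A : Matrix (Fin n) (Fin n) ℤ) : Prop where
  pos : 0 < M
  inj : Function.Injective inl
  grade : ∃ γ : V → ZMod M, (∀ v, γ v = 0 ↔ v ∈ Set.range inl) ∧ ∀ u v, B u v ≠ 0 → γ v = γ u + 1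
  pow : ∀ i j, (B ^ M) (inl i) (inl j) = A i j

end Pool.Agent.MPU
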