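import Pool.Agent.MPU.Lay

set_option autoImplicit false

/-!
MPU-LiA: polynomials in a layered matrix.

PLAN. (1) `grade_pow`: `(B ^ k) u v ≠ 0 → γ v = γ u + k` (induction on `k`: `pow_succ`, a nonzero sum has a nonzero term).
So for `i`: `(B ^ M) (inl i) v = 0` for `v` outside the range of `inl`, and `(B ^ k) (inl i) (inl j) = 0` if `¬ M ∣ k`
(`ZMod.natCast_eq_zero_iff`). (2) `(B ^ (M * k)) (inl i) v = (A ^ k) i j` if `v = inl j` and `0` if `v` is not in the
range (induction on `k`; the sum over `V` reduces to the range of `inl`: `Finset.sum_image`/`Finset.sum_subset`, or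
`Function.Injective.tsum`-like; e.g. state it as: the row `inl i` of `B ^ (M * k)` is `∑ j, (A ^ k) i j • single (inl j)`).
(3) `lift_zero`: let `p` with `aeval A p = 0`. For `u : V` let `s = (-γ u).val ≤ M`; the row `u` of `B ^ s` is supported on
the range of `inl` (by (1): `γ v = γ u + s = 0`). `X ^ M * expand p = X ^ s * expand p * X ^ (M - s)`; the rows `inl i` of
`aeval B (expand ℤ M p) = aeval (B ^ M) p = ∑ p_k B ^ (M k)` are `∑ p_k (A ^ k) i j = (aeval A p) i j = 0` by (2). So the
row `u` of the product vanishes.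
(4) `lift_contract`: for `i j` the entry `(inl i, inl j)` of `aeval B p = ∑ k, p_k B ^ k` (`aeval_eq_sum_range`) only has
the terms with `M ∣ k`, and it is `∑ k, p_{M k} (A ^ k) i j = (aeval A (contract M p)) i j` (`coeff_contract`).
-/

namespace Pool.Agent.MPU

open Polynomial

variable {V : Type} [Fintype V] [DecidableEq V] {n M : ℕ} {B : Matrix V V ℤ} {inl : Fin n → V}
  {A : Matrix (Fin n) (Fin n) ℤ}

theorem grade_pow {γ : V → ZMod M} (h : ∀ u v, B u v ≠ 0 → γ v = γ u + 1) (k : ℕ) (u v : V)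
    (h1 : (B ^ k) u v ≠ 0) : γ v = γ u + k := by
  induction k generalizing v with
  | zero =>
    rw [pow_zero, Matrix.one_apply] at h1
    have huv : u = v := by
      by_contra h2
      rw [if_neg h2] at h1
      exact h1 rfl
    rw [huv, Nat.cast_zero, add_zero]
  | succ k ih =>
    rw [pow_succ, Matrix.mul_apply] at h1
    obtain ⟨w, _, hw⟩ := Finset.exists_ne_zero_of_sum_ne_zero h1
    have h2 := ih w (left_ne_zero_of_mul hw)
    have h3 := h w v (right_ne_zero_of_mul hw)
    rw [h3, h2, Nat.cast_succ, add_assoc]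

private theorem lia_off (h : Lay M B inl A) (k : ℕ) (i : Fin n) (v : V) (hv : v ∉ Set.range inl) :
    (B ^ (M * k)) (inl i) v = 0 := by
  obtain ⟨γ, hγ, hg⟩ := h.grade
  by_contra hc
  have h1 := grade_pow hg _ _ _ hc
  have h2 : γ (inl i) = 0 := (hγ _).2 ⟨i, rfl⟩
  have h3 : ((M * k : ℕ) : ZMod M) = 0 := by
    rw [Nat.cast_mul, ZMod.natCast_self, zero_mul]
  rw [h2, h3, add_zero] at h1
  exact hv ((hγ v).1 h1)

private theorem lia_ndvd (h : Lay M B inl A) (k : ℕ) (i j : Fin n) (hk : ¬ M ∣ k) :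
    (B ^ k) (inl i) (inl j) = 0 := by
  obtain ⟨γ, hγ, hg⟩ := h.grade
  by_contra hc
  have h1 := grade_pow hg _ _ _ hc
  have h2 : γ (inl i) = 0 := (hγ _).2 ⟨i, rfl⟩
  have h3 : γ (inl j) = 0 := (hγ _).2 ⟨j, rfl⟩
  rw [h2, h3, zero_add] at h1
  exact hk ((ZMod.natCast_eq_zero_iff k M).1 h1.symm)

theorem lay_pow (h : Lay M B inl A) (k : ℕ) (i j : Fin n) :
    (B ^ (M * k)) (inl i) (inl j) = (A ^ k) i j := by
  induction k generalizing j with
  | zero =>
    rw [mul_zero, pow_zero, pow_zero, Matrix.one_apply, Matrix.one_apply]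
    simp only [h.inj.eq_iff]
  | succ k ih =>
    rw [mul_add, mul_one, pow_add, Matrix.mul_apply, pow_succ, Matrix.mul_apply]
    refine (Fintype.sum_of_injective inl h.inj _ _ (fun v hv => ?_) (fun l => ?_)).symm
    · rw [lia_off h k i v hv, zero_mul]
    · rw [ih, h.pow]

private theorem lia_row (h : Lay M B inl A) {p : ℤ[X]} (hp : aeval A p = 0) (i : Fin n) (v : V) :
    (aeval B (expand ℤ M p)) (inl i) v = 0 := by
  rw [expand_aeval, aeval_eq_sum_range, Matrix.sum_apply]
  by_cases hv : v ∈ Set.range inl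
  · obtain ⟨j, rfl⟩ := hv
    have h1 : (aeval A p) i j = 0 := by
      rw [hp]
      rfl
    rw [aeval_eq_sum_range, Matrix.sum_apply] at h1
    rw [← h1]
    refine Finset.sum_congr rfl fun k _ => ?_
    rw [Matrix.smul_apply, Matrix.smul_apply, ← pow_mul, lay_pow h]
  · refine Finset.sum_eq_zero fun k _ => ?_
    rw [Matrix.smul_apply, ← pow_mul, lia_off h k i v hv, smul_zero]

theorem lift_zero (h : Lay M B inl A) {p : ℤ[X]} (hp : aeval A p = 0) :
    aeval B (X ^ M * expand ℤ M p) = 0 := by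
  have : NeZero M := ⟨h.pos.ne'⟩
  obtain ⟨γ, hγ, hg⟩ := h.grade
  ext u v
  have hs : (-γ u).val ≤ M := (ZMod.val_lt _).le
  have hX : (X ^ M * expand ℤ M p : ℤ[X]) =
      X ^ (-γ u).val * (expand ℤ M p * X ^ (M - (-γ u).val)) := by
    have h1 : (X ^ M : ℤ[X]) = X ^ (-γ u).val * X ^ (M - (-γ u).val) := by
      rw [← pow_add, Nat.add_sub_cancel' hs]
    rw [h1]
    ring
  rw [hX, map_mul, map_pow, aeval_X, map_mul, Matrix.mul_apply, Matrix.zero_apply]
  refine Finset.sum_eq_zero fun w _ => ?_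
  by_cases hw : w ∈ Set.range inl
  · obtain ⟨i, rfl⟩ := hw
    have h2 : (aeval B (expand ℤ M p) * aeval B (X ^ (M - (-γ u).val) : ℤ[X])) (inl i) v = 0 := by
      rw [Matrix.mul_apply]
      refine Finset.sum_eq_zero fun w' _ => ?_
      rw [lia_row h hp, zero_mul]
    rw [h2, mul_zero]
  · have h2 : (B ^ (-γ u).val) u w = 0 := by
      by_contra hc
      have h3 := grade_pow hg _ _ _ hc
      rw [ZMod.natCast_zmod_val, add_neg_cancel] at h3
      exact hw ((hγ w).1 h3)
    rw [h2, zero_mul]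

theorem lift_contract (h : Lay M B inl A) {p : ℤ[X]} (hp : aeval B p = 0) :
    aeval A (contract M p) = 0 := by
  have hM := h.pos
  ext i j
  rw [Matrix.zero_apply]
  have h0 : (aeval B p) (inl i) (inl j) = 0 := by
    rw [hp]
    rfl
  have hd : (contract M p).natDegree < p.natDegree + 1 := by
    rw [Nat.lt_succ_iff, natDegree_le_iff_coeff_eq_zero]
    intro k hk
    rw [coeff_contract hM.ne']
    apply coeff_eq_zero_of_natDegree_lt
    calc p.natDegree < k := hk
      _ = k * 1 := (mul_one k).symm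
      _ ≤ k * M := Nat.mul_le_mul_left k hM
  have hd2 : p.natDegree < (p.natDegree + 1) * M :=
    calc p.natDegree < (p.natDegree + 1) * 1 := by omega
      _ ≤ (p.natDegree + 1) * M := Nat.mul_le_mul_left _ hM
  rw [aeval_eq_sum_range' hd2, Matrix.sum_apply] at h0
  rw [aeval_eq_sum_range' hd, Matrix.sum_apply, ← h0]
  have h1 : ∀ k, ((contract M p).coeff k • A ^ k) i j =
      (p.coeff (k * M) • B ^ (k * M)) (inl i) (inl j) := fun k => by
    rw [Matrix.smul_apply, Matrix.smul_apply, coeff_contract hM.ne', mul_comm k M, lay_pow h]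
  rw [Finset.sum_congr rfl fun k _ => h1 k]
  have hinj : Set.InjOn (fun k => k * M) (Finset.range (p.natDegree + 1) : Set ℕ) :=
    fun a _ b _ hab => Nat.eq_of_mul_eq_mul_right hM hab
  rw [← Finset.sum_image (f := fun m => (p.coeff m • B ^ m) (inl i) (inl j)) hinj]
  apply Finset.sum_subset
  · intro m hm
    obtain ⟨k, hk, rfl⟩ := Finset.mem_image.1 hm
    exact Finset.mem_range.2 (Nat.mul_lt_mul_of_pos_right (Finset.mem_range.1 hk) hM)
  · intro m hm hm'
    rw [Matrix.smul_apply]
    by_cases hdvd : M ∣ m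
    · obtain ⟨k, rfl⟩ := hdvd
      exfalso
      apply hm'
      rw [Finset.mem_image]
      refine ⟨k, ?_, mul_comm _ _⟩
      rw [Finset.mem_range] at hm ⊢
      rw [mul_comm M k] at hm
      exact lt_of_mul_lt_mul_right hm (Nat.zero_le M)
    · rw [lia_ndvd h m i j hdvd, smul_zero]

end Pool.Agent.MPU
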