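import Mathlib

set_option autoImplicit false

/-!
MPU-LiB: sections of polynomials. Mathlib only.

PLAN. For `r < M` let `sec M r p = ∑ k ∈ range (natDegree p + 1), monomial k (p.coeff (M * k + r))`, so
`(sec M r p).coeff k = p.coeff (M * k + r)` and `p = ∑ r ∈ range M, X ^ r * expand ℤ M (sec M r p)`
(compare the coefficient of `X ^ l`, `l = M * (l / M) + l % M`: `coeff_X_pow_mul'`, `coeff_expand`; only the term
`r = l % M` contributes).
`contract M (X ^ (M - r) * p) = X * sec M r p` (`coeff_contract`: the coefficient of `X ^ k` is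
`(X ^ (M - r) * p).coeff (k * M)`, which is `0` for `k = 0` (as `r < M`) and `p.coeff (M * (k - 1) + r)` for `k ≥ 1`).
By `h2` with `s = M - r`: `U ∣ X * sec M r p`; `X` is prime in `ℤ[X]` (`Polynomial.prime_X`) and does not divide `U`
(`X_dvd_iff`), so `U ∣ sec M r p` (`X * t = U * c` implies `X ∣ c`). Hence `expand U ∣ p` (`map_dvd (expand ℤ M)`).
Last `p = expand U * c` and `X ^ N ∣ expand U * c` with `X` prime not dividing `expand U` (its constant coefficient is
`U.coeff 0`): `Prime.pow_dvd_of_dvd_mul_left`, so `X ^ N ∣ c`.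
-/

namespace Pool.Agent.MPU

open Polynomial

theorem expand_dvd {M : ℕ} (hM : 0 < M) {N b : ℕ} {U p : ℤ[X]} (hU : U.coeff 0 ≠ 0)
    (h1 : X ^ N ∣ p) (h2 : ∀ s, X ^ b * U ∣ contract M (X ^ s * p)) : X ^ N * expand ℤ M U ∣ p := by
  have hXU : ¬ (X : ℤ[X]) ∣ U := fun h => hU (X_dvd_iff.1 h)
  have hcoeff : ∀ r < M, ∀ k, (divX (contract M (X ^ (M - r) * p))).coeff k =
      p.coeff (k * M + r) := by
    intro r hr k
    rw [coeff_divX, coeff_contract hM.ne', coeff_X_pow_mul', if_pos]
    · congr 1
      have : (k + 1) * M = k * M + M := by ring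
      omega
    · have : (k + 1) * M = k * M + M := by ring
      omega
  have hUS : ∀ r < M, U ∣ divX (contract M (X ^ (M - r) * p)) := by
    intro r hr
    have h3 : contract M (X ^ (M - r) * p) = X * divX (contract M (X ^ (M - r) * p)) := by
      have h4 := X_mul_divX_add (contract M (X ^ (M - r) * p))
      have h5 : (contract M (X ^ (M - r) * p)).coeff 0 = 0 := by
        rw [coeff_contract hM.ne', Nat.zero_mul, coeff_X_pow_mul', if_neg (by omega)]
      rw [h5, C_0, add_zero] at h4
      exact h4.symm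
    have h6 : U ∣ X * divX (contract M (X ^ (M - r) * p)) := by
      rw [← h3]
      exact (Dvd.intro_left _ rfl).trans (h2 (M - r))
    obtain ⟨c, hc⟩ := h6
    have h7 : (X : ℤ[X]) ∣ U * c := ⟨_, hc.symm⟩
    rcases prime_X.dvd_or_dvd h7 with h | h
    · exact absurd h hXU
    · obtain ⟨c', rfl⟩ := h
      refine ⟨c', ?_⟩
      have h8 : (X : ℤ[X]) * divX (contract M (X ^ (M - r) * p)) = X * (U * c') := by
        rw [hc]
        ring
      exact mul_left_cancel₀ X_ne_zero h8
  have hsum : p = ∑ r ∈ Finset.range M, X ^ r *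
      expand ℤ M (divX (contract M (X ^ (M - r) * p))) := by
    ext l
    rw [finsetSum_coeff]
    have hlM : l % M < M := Nat.mod_lt _ hM
    have hdm : M * (l / M) + l % M = l := Nat.div_add_mod l M
    rw [Finset.sum_eq_single (l % M)]
    · rw [coeff_X_pow_mul', if_pos (Nat.mod_le l M), coeff_expand hM]
      have h3 : l - l % M = M * (l / M) := by omega
      rw [h3, if_pos (Dvd.intro _ rfl), Nat.mul_div_cancel_left _ hM, hcoeff _ hlM]
      congr 1
      rw [mul_comm]
      exact hdm.symm
    · intro r hr hne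
      rw [Finset.mem_range] at hr
      rw [coeff_X_pow_mul']
      by_cases hle : r ≤ l
      · rw [if_pos hle, coeff_expand hM, if_neg]
        intro hd
        apply hne
        have h3 : r ≡ l [MOD M] := (Nat.modEq_iff_dvd' hle).2 hd
        have h4 : r % M = l % M := h3
        rw [← h4, Nat.mod_eq_of_lt hr]
      · rw [if_neg hle]
    · intro h
      exact absurd (Finset.mem_range.2 hlM) h
  have hdvd : expand ℤ M U ∣ p := by
    rw [hsum]
    refine Finset.dvd_sum fun r hr => ?_
    have h3 := hUS r (Finset.mem_range.1 hr)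
    exact (map_dvd (expand ℤ M) h3).mul_left _
  have hXE : ¬ (X : ℤ[X]) ∣ expand ℤ M U := by
    intro h
    apply hU
    have h3 := X_dvd_iff.1 h
    rw [coeff_expand hM, if_pos (dvd_zero M), Nat.zero_div] at h3
    exact h3
  obtain ⟨c, hc⟩ := hdvd
  rw [hc] at h1
  obtain ⟨c', hc'⟩ := prime_X.pow_dvd_of_dvd_mul_left N hXE h1
  refine ⟨c', ?_⟩
  rw [hc, hc']
  ring

end Pool.Agent.MPU
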