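import Pool.Agent.MPU.LiA
import Pool.Agent.MPU.LiB
import Pool.Agent.MPU.Jor
import Pool.Agent.MPU.Mz

set_option autoImplicit false

/-!
MPU-LiC: the minimal polynomial of a layered matrix plus a nilpotent Jordan block.

PLAN. `mz_eq`: the polynomial `X ^ N * expand ℤ M U` is monic (`U` is monic because `X ^ b * U` is; `Monic.expand`).
For `q : ℤ[X]`: `aeval (fromBlocks ..) q = 0 ↔ aeval B q = 0 ∧ aeval (jor N) q = 0` (`aeval_blocks`,
`Matrix.fromBlocks_inj`, `Matrix.fromBlocks_zero`) `↔ aeval B q = 0 ∧ X ^ N ∣ q` (`aeval_jor`).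
(→) `aeval B (X ^ s * q) = 0` for all `s`, so `aeval A (contract M (X ^ s * q)) = 0` (`lift_contract`), so
`X ^ b * U ∣ contract M (X ^ s * q)` (`mz_dvd`, `hA`); `expand_dvd`.
(←) it is enough that `aeval B (X ^ N * expand ℤ M U) = 0`: `X ^ N = X ^ (N - M * (b + 1)) * (X ^ M * X ^ (M * b))` and
`X ^ (M * b) * expand ℤ M U = expand ℤ M (X ^ b * U)`, which is killed after multiplication by `X ^ M` (`lift_zero` with
`p = minpoly ℤ A`, `minpoly.aeval`).
-/

namespace Pool.Agent.MPU

open Polynomial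

variable {V : Type} [Fintype V] [DecidableEq V] {n M : ℕ} {B : Matrix V V ℤ} {inl : Fin n → V}
  {A : Matrix (Fin n) (Fin n) ℤ}

theorem minpoly_lift (h : Lay M B inl A) {b N : ℕ} {U : ℤ[X]} (hU : U.coeff 0 ≠ 0)
    (hA : minpoly ℤ A = X ^ b * U) (hN : M * (b + 1) ≤ N) :
    minpoly ℤ (Matrix.fromBlocks B 0 0 (jor N)) = X ^ N * expand ℤ M U := by
  have hM := h.pos
  have hUm : U.Monic := (monic_X_pow b).of_mul_monic_left (hA ▸ mz_monic A)
  have hm : (X ^ N * expand ℤ M U).Monic := (monic_X_pow N).mul ((monic_expand_iff hM).2 hUm)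
  refine mz_eq hm fun q => ?_
  have hblk : aeval (Matrix.fromBlocks B 0 0 (jor N)) q = 0 ↔ aeval B q = 0 ∧ X ^ N ∣ q := by
    rw [aeval_blocks, ← aeval_jor, ← Matrix.fromBlocks_zero, Matrix.fromBlocks_inj]
    exact ⟨fun h => ⟨h.1, h.2.2.2⟩, fun h => ⟨h.1, rfl, rfl, h.2⟩⟩
  rw [hblk]
  constructor
  · rintro ⟨h1, h2⟩
    refine expand_dvd (b := b) hM hU h2 fun s => ?_
    rw [← hA, ← mz_dvd]
    refine lift_contract h ?_
    rw [map_mul, h1, mul_zero]
  · intro hq
    obtain ⟨c, rfl⟩ := hq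
    refine ⟨?_, ?_⟩
    · have h0 : aeval B (X ^ N * expand ℤ M U) = 0 := by
        have h3 := lift_zero h (minpoly.aeval ℤ A)
        rw [hA] at h3
        have h5 : expand ℤ M (X ^ b * U) = (X ^ M) ^ b * expand ℤ M U := by
          rw [map_mul, map_pow, expand_X]
        rw [h5] at h3
        have h4 : X ^ N * expand ℤ M U =
            X ^ (N - M * (b + 1)) * (X ^ M * ((X ^ M) ^ b * expand ℤ M U)) := by
          rw [← mul_assoc, ← mul_assoc, ← pow_mul, ← pow_add, ← pow_add]
          have h6 : N - M * (b + 1) + M + M * b = N := by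
            have h7 : M * (b + 1) = M + M * b := by ring
            omega
          rw [h6]
        rw [h4, map_mul, h3, mul_zero]
      rw [map_mul, h0, zero_mul]
    · rw [mul_assoc]
      exact dvd_mul_right _ _

end Pool.Agent.MPU
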