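import Pool.Agent.MPU.FinA
import Pool.Agent.MPU.GcdB
import Pool.Agent.MPU.GcdZ
import Pool.Agent.MPU.GcdGa
import Pool.Agent.MPU.GauB

set_option autoImplicit false

/-!
MPU-Main: the equivalence.
-/

namespace Pool.Agent.MPU

theorem minPolyN_of (𝓒 : GapClass) (h : MinPolyG 𝓒) : MinPolyN 𝓒 := fun n hn k hk _ ha _ hb =>
  h n hn k hk _ (gsub (gcast ha) (gcast hb))

theorem main (𝓒 : GapClass) :
    List.TFAE [MinPolyN 𝓒, MinPolyG 𝓒, GcdG 𝓒, ZeroG 𝓒 ∧ GaussG 𝓒] := by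
  tfae_have 1 → 2 := minPolyG_of_small
  tfae_have 2 → 1 := minPolyN_of 𝓒
  tfae_have 2 → 3 := gcd_of_minPoly
  tfae_have 3 → 4 := fun h => ⟨zero_of_gcd h, gauss_of_gcd h⟩
  tfae_have 4 → 2 := fun h => minPolyG_of_gauss h.1 h.2
  tfae_finish

end Pool.Agent.MPU
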