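import Pool.Agent.MPU.GraN
import Pool.Agent.MPU.LiC

set_option autoImplicit false

/-!
MPU-MuO: from small entries to entries in the class, up to a power of the variable.

PLAN. Let `w m a b` be given by `𝓒.complete f hf`. Put (for the string `x`) `w' x i j = w (push (push x i) j)`,
`m' x i j = m (push (push x i) j)`, `a' x i j v v' = a (push (push (push (push x i) j) v) v')`, the same for `b'`;
`S x = ∑ i ∈ range (n x), ∑ j ∈ range (n x), m' x i j`, `W x = 2 + ∑ i, ∑ j, w' x i j` (`nsum` twice),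
`M x = S x + 2`, `N0 x = M x * (n x + 1)`. By `gV_lay` and `minpoly_lift` (`b x ≤ natDegree (minpoly ..) ≤ n x`),
`layE_minpoly`, `layE_sub`: the minimal polynomial of
`mat (siz (n x) (S x) (W x) + N0 x) (fun c c' => (layE 1 .. a' .. : ℤ) - layE 0 .. b' ..)` is
`X ^ N0 x * expand ℤ (M x) (U x)`; its family is `PG` by `minPolyN_fam` and `layE_mem`. The coefficient of
`X ^ (N0 x + M x * k)` is `(U x).coeff k` (`coeff_X_pow_mul`, `coeff_expand_mul`). Here
`fam f x i j = f (push (push x i) j) = powE (w' x i j) (fun v v' => a' .. - b' ..) (m' x i j) 0 1`.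
-/

namespace Pool.Agent.MPU

open Polynomial

variable {𝓒 : GapClass}

private theorem le_dsum (n : ℕ) (g : ℕ → ℕ → ℕ) {i j : ℕ} (hi : i < n) (hj : j < n) :
    g i j ≤ ∑ i ∈ Finset.range n, ∑ j ∈ Finset.range n, g i j :=
  le_trans (Finset.single_le_sum (f := fun j => g i j) (fun _ _ => Nat.zero_le _)
    (Finset.mem_range.2 hj))
    (Finset.single_le_sum (f := fun i => ∑ j ∈ Finset.range n, g i j) (fun _ _ => Nat.zero_le _)
      (Finset.mem_range.2 hi))

private theorem dsum_mem {n : List Bool → ℕ} (hn : n ∈ 𝓒.N) {g : List Bool → ℕ → ℕ → ℕ}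
    (hg : (fun y => g (pop (pop y)) (top (pop y)) (top y)) ∈ 𝓒.N) :
    (fun x => ∑ i ∈ Finset.range (n x), ∑ j ∈ Finset.range (n x), g x i j) ∈ 𝓒.N :=
  nsum (F := fun x i => ∑ j ∈ Finset.range (n x), g x i j) hn
    (nsum (n := fun y => n (pop y)) (F := fun y j => g (pop y) (top y) j) (nsubst hn lp1) hg)

private theorem coeff_aux {M N k : ℕ} (hM : 0 < M) (U : ℤ[X]) :
    (X ^ N * expand ℤ M U).coeff (N + M * k) = U.coeff k := by
  rw [Nat.add_comm N, coeff_X_pow_mul, coeff_expand_mul' hM]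

private theorem b_le {n b : ℕ} {A : Matrix (Fin n) (Fin n) ℤ} {U : ℤ[X]}
    (h : minpoly ℤ A = X ^ b * U) (hU : U.coeff 0 ≠ 0) : b ≤ n := by
  have h0 : U ≠ 0 := by
    rintro rfl
    exact hU (coeff_zero 0)
  have h1 := mz_natDegree_le A
  rw [h, natDegree_mul (pow_ne_zero _ X_ne_zero) h0, natDegree_X_pow, Fintype.card_fin] at h1
  omega

theorem unit_part (h : MinPolyN 𝓒) {n : List Bool → ℕ} (hn : n ∈ 𝓒.N) {f : List Bool → ℤ}
    (hf : f ∈ 𝓒.G) {b : List Bool → ℕ} {U : List Bool → ℤ[X]}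
    (hU : ∀ x, minpoly ℤ (mat (n x) (fam f x)) = X ^ (b x) * U x ∧ (U x).coeff 0 ≠ 0) :
    PG 𝓒 U := by
  obtain ⟨w, hw, m, hm, a, ha, b', hb', hw2, hfe⟩ := 𝓒.complete f hf
  obtain ⟨w', hw'⟩ : ∃ w' : List Bool → ℕ → ℕ → ℕ, w' = fun x i j => w (push (push x i) j) :=
    ⟨_, rfl⟩
  obtain ⟨m', hm'⟩ : ∃ m' : List Bool → ℕ → ℕ → ℕ, m' = fun x i j => m (push (push x i) j) :=
    ⟨_, rfl⟩
  obtain ⟨a', ha'⟩ : ∃ a' : List Bool → ℕ → ℕ → ℕ → ℕ → ℕ, a' = fun x i j v v' =>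
    a (push (push (push (push x i) j) v) v') := ⟨_, rfl⟩
  obtain ⟨d, hd⟩ : ∃ d : List Bool → ℕ → ℕ → ℕ → ℕ → ℕ, d = fun x i j v v' =>
    b' (push (push (push (push x i) j) v) v') := ⟨_, rfl⟩
  have hwN : (fun y => w' (pop (pop y)) (top (pop y)) (top y)) ∈ 𝓒.N := by
    rw [hw']
    exact nsubst hw (lpush (lpush lp2 nt2) nt1)
  have hmN : (fun y => m' (pop (pop y)) (top (pop y)) (top y)) ∈ 𝓒.N := by
    rw [hm']
    exact nsubst hm (lpush (lpush lp2 nt2) nt1)
  have haN : (fun y => a' (pop (pop (pop (pop y)))) (top (pop (pop (pop y)))) (top (pop (pop y)))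
      (top (pop y)) (top y)) ∈ 𝓒.N := by
    rw [ha']
    exact nsubst ha (lpush (lpush (lpush (lpush lp4 nt4) nt3) nt2) nt1)
  have hdN : (fun y => d (pop (pop (pop (pop y)))) (top (pop (pop (pop y)))) (top (pop (pop y)))
      (top (pop y)) (top y)) ∈ 𝓒.N := by
    rw [hd]
    exact nsubst hb' (lpush (lpush (lpush (lpush lp4 nt4) nt3) nt2) nt1)
  obtain ⟨S, hS⟩ : ∃ S : List Bool → ℕ, S = fun x =>
    ∑ i ∈ Finset.range (n x), ∑ j ∈ Finset.range (n x), m' x i j := ⟨_, rfl⟩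
  obtain ⟨W, hW⟩ : ∃ W : List Bool → ℕ, W = fun x =>
    2 + ∑ i ∈ Finset.range (n x), ∑ j ∈ Finset.range (n x), w' x i j := ⟨_, rfl⟩
  have hSN : S ∈ 𝓒.N := by
    rw [hS]
    exact dsum_mem hn hmN
  have hWN : W ∈ 𝓒.N := by
    rw [hW]
    exact nadd (𝓒.const_mem 2) (dsum_mem hn hwN)
  have hMN : (fun x => S x + 2) ∈ 𝓒.N := nadd hSN (𝓒.const_mem 2)
  have hN0 : (fun x => (S x + 2) * (n x + 1)) ∈ 𝓒.N := nmul hMN (nadd hn (𝓒.const_mem 1))
  have hsiz : (fun x => siz (n x) (S x) (W x) + (S x + 2) * (n x + 1)) ∈ 𝓒.N := by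
    have h1 : (fun x => n x + n x * n x * (S x + 1) * W x) ∈ 𝓒.N :=
      nadd hn (nmul (nmul (nmul hn hn) (nadd hSN (𝓒.const_mem 1))) hWN)
    exact nadd h1 hN0
  have hP := minPolyN_fam h hsiz
    (a := fun x => layE 1 (n x) (S x) (W x) (w' x) (m' x) (a' x))
    (b := fun x => layE 0 (n x) (S x) (W x) (w' x) (m' x) (d x))
    (layE_mem 1 hn hSN hWN hwN hmN haN) (layE_mem 0 hn hSN hWN hwN hmN hdN)
  have hmain : ∀ x, minpoly ℤ (mat (siz (n x) (S x) (W x) + (S x + 2) * (n x + 1)) (fun i j =>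
      ((layE 1 (n x) (S x) (W x) (w' x) (m' x) (a' x) i j : ℕ) : ℤ) -
        (layE 0 (n x) (S x) (W x) (w' x) (m' x) (d x) i j : ℕ))) =
      X ^ ((S x + 2) * (n x + 1)) * expand ℤ (S x + 2) (U x) := by
    intro x
    have hWx : 0 < W x := by
      rw [hW]
      show 0 < 2 + _
      omega
    have e1 : (fun i j => ((layE 1 (n x) (S x) (W x) (w' x) (m' x) (a' x) i j : ℕ) : ℤ) -
        (layE 0 (n x) (S x) (W x) (w' x) (m' x) (d x) i j : ℕ)) =
        layE 1 (n x) (S x) (W x) (w' x) (m' x) (fun i j v v' => (a' x i j v v' : ℤ) - d x i j v v') := by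
      funext i j
      exact layE_sub _ _ _ _ _ _ _ _ _
    rw [e1, layE_minpoly hWx]
    have hlay := gV_lay (n := n x) (S := S x) (W := W x) (w := w' x) (m := m' x)
      (fun i j v v' => (a' x i j v v' : ℤ) - d x i j v v')
      (fun i hi j hj => ⟨by rw [hw']; exact hw2 _, by
        rw [hW]
        have := le_dsum (n x) (w' x) hi hj
        show w' x i j ≤ 2 + _
        omega⟩)
      (fun i hi j hj => by
        rw [hS]
        exact le_dsum (n x) (m' x) hi hj)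
    have hA : (mat (n x) fun i j => powE (w' x i j)
        ((fun i j v v' => (a' x i j v v' : ℤ) - d x i j v v') i j) (m' x i j) 0 1) =
        mat (n x) (fam f x) := by
      congr 1
      funext i j
      rw [fam, hfe, hw', hm', ha', hd]
      rfl
    rw [hA] at hlay
    exact minpoly_lift hlay (hU x).2 (hU x).1
      (Nat.mul_le_mul_left _ (Nat.succ_le_succ (b_le (hU x).1 (hU x).2)))
  have h2 := hP.coeff (φ := fun y => pop y) lp1
    (k := fun y => (S (pop y) + 2) * (n (pop y) + 1) + (S (pop y) + 2) * top y)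
    (nadd (nsubst hN0 lp1) (nmul (nsubst hMN lp1) nt1))
  have h3 : (fun y => (U (pop y)).coeff (top y)) = fun x =>
      (minpoly ℤ (mat (siz (n (pop x)) (S (pop x)) (W (pop x)) + (S (pop x) + 2) * (n (pop x) + 1))
        (fun i j =>
      ((layE 1 (n (pop x)) (S (pop x)) (W (pop x)) (w' (pop x)) (m' (pop x)) (a' (pop x)) i j : ℕ) : ℤ) -
        (layE 0 (n (pop x)) (S (pop x)) (W (pop x)) (w' (pop x)) (m' (pop x)) (d (pop x)) i j : ℕ)))).coeff
        ((S (pop x) + 2) * (n (pop x) + 1) + (S (pop x) + 2) * top x) := by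
    funext y
    rw [hmain (pop y), coeff_aux (Nat.succ_pos _)]
  rw [PG, h3]
  exact h2

end Pool.Agent.MPU
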