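import Pool.Agent.MPU.Fam
import Pool.Agent.MPU.Mz

set_option autoImplicit false

/-!
MPU-ZMin: minimal polynomials give the indicators of zero sets: the minimal polynomial of the diagonal matrix with the
entries `0` and `a` has degree `2` iff `a ≠ 0`.
-/

namespace Pool.Agent.MPU

open Polynomial

variable {𝓒 : GapClass}

private theorem zmin_coeff (a : ℤ) :
    (minpoly ℤ (mat 2 (fun i j => if i = 1 then (if j = 1 then a else 0) else 0))).coeff 2 =
      if a = 0 then 0 else 1 := by
  set A := mat 2 (fun i j => if i = 1 then (if j = 1 then a else 0) else 0) with hA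
  have hdeg : (minpoly ℤ A).natDegree ≤ 2 := by
    have h := mz_natDegree_le A
    rwa [Fintype.card_fin] at h
  split_ifs with ha
  · have h0 : A = 0 := by
      ext i j
      show (if (i : ℕ) = 1 then (if (j : ℕ) = 1 then a else 0) else 0) = 0
      rw [ha]
      simp
    have h1 : minpoly ℤ A ∣ X := by
      rw [← mz_dvd, aeval_X]
      exact h0
    have h2 : (minpoly ℤ A).natDegree ≤ 1 := by
      have h3 := natDegree_le_of_dvd h1 X_ne_zero
      rwa [natDegree_X] at h3
    exact coeff_eq_zero_of_natDegree_lt (by omega)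
  · have h2 : (minpoly ℤ A).natDegree = 2 := by
      by_contra hne
      have h3 : (minpoly ℤ A).natDegree ≤ 1 := by omega
      obtain ⟨c, b, hcb⟩ := exists_eq_X_add_C_of_natDegree_le_one h3
      have h4 : aeval A (minpoly ℤ A) = 0 := minpoly.aeval ℤ A
      rw [hcb, map_add, map_mul, aeval_C, aeval_C, aeval_X, Algebra.algebraMap_eq_smul_one,
        Algebra.algebraMap_eq_smul_one, smul_mul_assoc, one_mul] at h4
      have h5 := congrFun (congrFun h4 0) 0
      have h6 := congrFun (congrFun h4 1) 1
      rw [Matrix.add_apply, Matrix.smul_apply, Matrix.smul_apply, Matrix.one_apply_eq] at h5 h6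
      have hb : b = 0 := by
        simpa [hA, mat] using h5
      have hc : c = 0 := by
        have h7 : c * a + b = 0 := by
          simpa [hA, mat] using h6
        rw [hb, add_zero] at h7
        exact (mul_eq_zero.1 h7).resolve_right ha
      have h8 := mz_monic A
      rw [hcb, hb, hc] at h8
      simp at h8
    have h3 := mz_monic A
    have h4 : (minpoly ℤ A).coeff (minpoly ℤ A).natDegree = 1 := h3
    rwa [h2] at h4

theorem zero_of_minPoly (h : MinPolyG 𝓒) : ZeroG 𝓒 := by
  intro f hf
  have hF : (fun y => if top (pop y) = 1 then (if top y = 1 then f (pop (pop y)) else 0) else 0) ∈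
      𝓒.G := geq nt2 (𝓒.const_mem 1) (geq nt1 (𝓒.const_mem 1) (gsubst hf lp2) (gconst 0)) (gconst 0)
  have h1 := minPolyG_fam (F := fun x i j => if i = 1 then (if j = 1 then f x else 0) else 0) h
    (𝓒.const_mem 2) hF
  have h2 := h1.coeff' (𝓒.const_mem 2)
  have h3 := gsub (gconst 1) h2
  have h4 : (fun x => if f x = 0 then (1 : ℤ) else 0) = fun x => (1 : ℤ) -
      (minpoly ℤ (mat 2 (fun i j => if i = 1 then (if j = 1 then f x else 0) else 0))).coeff 2 := by
    funext x
    rw [zmin_coeff]
    split_ifs <;> norm_num
  rw [h4]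
  exact h3

end Pool.Agent.MPU
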