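import Pool.Agent.MPU.MuO

set_option autoImplicit false

/-!
MPU-ZiA: minimal polynomials of matrices with small entries give the indicators of zero sets.

PLAN. For `f ∈ 𝓒.G` let `f' y = f (pop (pop y))` (so `fam f' x i j = f x`) and `n = 1`. The minimal polynomial of the
`1 × 1` matrix `(f x)` is `X - C (f x)` (`mz_eq`; `aeval` of a `1 × 1` matrix: `A = algebraMap ℤ _ (f x)`,
`aeval_algebraMap_apply`, `dvd_iff_isRoot`). So `unit_part` applies with `b x = if f x = 0 then 1 else 0` and
`U x = if f x = 0 then 1 else X - C (f x)`, and the indicator is `1 - (U x).coeff 1`.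
-/

namespace Pool.Agent.MPU

open Polynomial

variable {𝓒 : GapClass}

private theorem min_one (a : ℤ) :
    minpoly ℤ (algebraMap ℤ (Matrix (Fin 1) (Fin 1) ℤ) a) = X - C a := by
  refine mz_eq (monic_X_sub_C a) fun q => ?_
  rw [aeval_algebraMap_apply, dvd_iff_isRoot, IsRoot.def, coe_aeval_eq_eval]
  constructor
  · intro h
    have h1 := congrFun (congrFun h 0) 0
    rw [Matrix.algebraMap_matrix_apply, if_pos rfl] at h1
    simpa using h1
  · intro h
    rw [h, map_zero]

private theorem mat_one (f : List Bool → ℤ) (x : List Bool) :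
    mat 1 (fam (fun y => f (pop (pop y))) x) = algebraMap ℤ (Matrix (Fin 1) (Fin 1) ℤ) (f x) := by
  ext i j
  rw [Matrix.algebraMap_matrix_apply, if_pos (Subsingleton.elim i j)]
  show fam (fun y => f (pop (pop y))) x i j = _
  simp only [fam, pop_push]
  rfl

theorem zero_of_small (h : MinPolyN 𝓒) : ZeroG 𝓒 := by
  intro f hf
  have hf' : (fun y => f (pop (pop y))) ∈ 𝓒.G := gsubst hf lp2
  have hU : PG 𝓒 (fun x => if f x = 0 then 1 else X - C (f x)) := by
    refine unit_part h (𝓒.const_mem 1) hf' (b := fun x => if f x = 0 then 1 else 0) ?_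
    intro x
    show minpoly ℤ (mat 1 (fam (fun y => f (pop (pop y))) x)) = _ ∧ _
    rw [mat_one, min_one]
    by_cases hx : f x = 0
    · simp only [hx, if_true]
      refine ⟨by simp, by simp⟩
    · simp only [hx, if_false]
      refine ⟨by simp, ?_⟩
      rw [coeff_sub, coeff_X_zero, coeff_C_zero, zero_sub]
      exact neg_ne_zero.2 hx
  have h1 := gsub (gconst 1) (hU.coeff' (𝓒.const_mem 1))
  have h2 : (fun x => if f x = 0 then (1 : ℤ) else 0) =
      fun x => 1 - (if f x = 0 then (1 : ℤ[X]) else X - C (f x)).coeff 1 := by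
    funext x
    by_cases hx : f x = 0
    · rw [if_pos hx, if_pos hx, coeff_one, if_neg one_ne_zero, sub_zero]
    · rw [if_neg hx, if_neg hx, coeff_sub, coeff_X_one, coeff_C_succ, sub_zero, sub_self]
  rw [h2]
  exact h1

end Pool.Agent.MPU
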